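import Pool.Agent.Helper2.LD.St4

/-!
# LD project, part B2: finite skeletons with the same data as the tree skeleton
-/

set_option autoImplicit false

namespace Pool.Agent.Helper2.LD

/-- Abstract rigidity: hubs which see a uniquely labelled hub. -/
def StRig : Prop :=
  ∀ {K X W : Type} (N e : ℕ) (T : SimpleGraph X) (tl : X → Finset K) (M : SimpleGraph W)
    (lm : W → Finset K) (C : Set X), 1 ≤ N → T.IsAcyclic →
    (∀ x y, x ≠ y → T.edist x y ≤ 2 → tl x ≠ tl y) → (∀ υ ∈ C, ∀ x, tl x = tl υ → x = υ) →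
    (∀ υ ∈ C, ∀ x y x' y', T.edist υ x ≤ ((2 * N : ℕ) : ℕ∞) → T.Adj x y →
      T.edist υ y' ≤ ((2 * N - 1 : ℕ) : ℕ∞) → T.Adj x' y' → tl x = tl x' → tl y = tl y' →
      x = x' ∧ y = y') →
    DEq N e T tl M lm →
    (∀ x, (∃ υ ∈ C, T.edist υ x ≤ ((2 * N : ℕ) : ℕ∞)) → ∃! g, DR N e T tl M lm x g) ∧
    (∀ x x' g, (∃ υ ∈ C, T.edist υ x ≤ ((2 * N : ℕ) : ℕ∞)) → DR N e T tl M lm x g →
      DR N e T tl M lm x' g → x = x') ∧
    (∀ x g, (∃ υ ∈ C, T.edist υ x ≤ ((2 * N - 1 : ℕ) : ℕ∞)) → DR N e T tl M lm x g →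
      (∀ y, T.Adj x y → ∃ g', DR N e T tl M lm y g' ∧ M.Adj g g') ∧
      ∀ g', M.Adj g g' → ∃ y, T.Adj x y ∧ DR N e T tl M lm y g')

section

variable {V Q Λ B FB W : Type} [Fintype Λ] [Fintype B] [Fintype FB]

/-- The context of part B2. -/
structure Cx (N e : ℕ) (c : Core V Q Λ B FB) (s : Ch V Q) (M : SimpleGraph W)
    (lm : W → Finset (Kd N Λ B FB)) : Prop where
  par : Par N e
  ax : CoreAx N e c
  ch : ChAx N c s
  deq : DEq N e (TG N e c s) (tL N e c s) M lm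

/-- The hub `t` of the tree skeleton is a partner of the vertex `g`. -/
def Pt (N e : ℕ) (c : Core V Q Λ B FB) (s : Ch V Q) (M : SimpleGraph W)
    (lm : W → Finset (Kd N Λ B FB)) (t : TH V Q (Kd N Λ B FB)) (g : W) : Prop :=
  ∃ h : okT N e c s t, DR N e (TG N e c s) (tL N e c s) M lm ⟨t, h⟩ g

omit [Fintype Λ] [Fintype B] [Fintype FB] in
/-- There is a cap at distance at most `r`. -/
def Rg (N e : ℕ) (c : Core V Q Λ B FB) (s : Ch V Q) (r : ℕ) (t : TH V Q (Kd N Λ B FB)) : Prop :=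
  ∃ x υ : TV N e c s, x.1 = t ∧ (∃ b u h, υ.1 = .cap b u h) ∧
    (TG N e c s).edist υ x ≤ (r : ℕ∞)

omit [Fintype Λ] [Fintype B] [Fintype FB] in
/-- Labels which occur only far apart. -/
def PlnL (N : ℕ) (l : Finset (Kd N Λ B FB)) : Prop :=
  (∃ a, l = {Kd.kap a}) ∨ (∃ b f j, ∀ κ, κ ∈ l ↔ κ = Kd.gam b f ∨ κ = piK N j) ∨
    (∃ a j, ∀ κ, κ ∈ l ↔ κ = Kd.del a ∨ κ = piK N j)

/-- The two directions around a face. -/
def cw (c : Core V Q Λ B FB) (σ : Bool) : Q → Q := if σ = true then c.nx else c.nx.symm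

/-- The `j`-th point of the face of `q` in direction `σ`. -/
def fa (c : Core V Q Λ B FB) (σ : Bool) (q : Q) (j : ℕ) : V := c.ow ((cw c σ)^[j] q)

end

/-- Rigid hubs of the tree skeleton. -/
structure StRg : Prop where
  uniq : ∀ {V Q Λ B FB W : Type} [Fintype Λ] [Fintype B] [Fintype FB] (N e : ℕ)
    (c : Core V Q Λ B FB) (s : Ch V Q) (M : SimpleGraph W) (lm : W → Finset (Kd N Λ B FB)),
    Cx N e c s M lm → ∀ t, Rg N e c s (2 * N) t → ∃! g, Pt N e c s M lm t g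
  uniq' : ∀ {V Q Λ B FB W : Type} [Fintype Λ] [Fintype B] [Fintype FB] (N e : ℕ)
    (c : Core V Q Λ B FB) (s : Ch V Q) (M : SimpleGraph W) (lm : W → Finset (Kd N Λ B FB)),
    Cx N e c s M lm → ∀ t t' g, Rg N e c s (2 * N) t → Pt N e c s M lm t g →
    Pt N e c s M lm t' g → t = t'
  nbr : ∀ {V Q Λ B FB W : Type} [Fintype Λ] [Fintype B] [Fintype FB] (N e : ℕ)
    (c : Core V Q Λ B FB) (s : Ch V Q) (M : SimpleGraph W) (lm : W → Finset (Kd N Λ B FB)),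
    Cx N e c s M lm → ∀ t g, Rg N e c s (2 * N - 1) t → Pt N e c s M lm t g →
    (∀ x y : TV N e c s, x.1 = t → (TG N e c s).Adj x y →
      ∃ g', Pt N e c s M lm y.1 g' ∧ M.Adj g g') ∧
    ∀ g', M.Adj g g' → ∃ x y : TV N e c s, x.1 = t ∧ (TG N e c s).Adj x y ∧
      Pt N e c s M lm y.1 g'

/-- What one sees in the tree skeleton. -/
structure StTsee : Prop where
  nat : ∀ {V Q Λ B FB : Type} [Fintype Λ] [Fintype B] [Fintype FB] (N e : ℕ)
    (c : Core V Q Λ B FB) (s : Ch V Q), Par N e → CoreAx N e c → ChAx N c s →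
    ∀ (x y : TV N e c s) b u h, x.1 = .nat b u h →
    (TG N e c s).edist x y ≤ ((2 * N : ℕ) : ℕ∞) → tL N e c s y ∈ NLb N e c →
    ∃ h', y.1 = .nat b u h'
  fan : ∀ {V Q Λ B FB : Type} (N e : ℕ)
    (c : Core V Q Λ B FB) (s : Ch V Q), Par N e → CoreAx N e c → ChAx N c s →
    ∀ (x y : TV N e c s) u h l, x.1 = .nat true u h → (∀ j, h ≠ .tru u j) →
    (∀ l', h ≠ .fan u l') → y.1 = .nat true u (.fan u l) →
    (TG N e c s).edist x y = ((2 * N + lev N c u h : ℕ) : ℕ∞)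
  cap : ∀ {V Q Λ B FB : Type} (N e : ℕ)
    (c : Core V Q Λ B FB) (s : Ch V Q), Par N e → CoreAx N e c → ChAx N c s →
    ∀ (x y : TV N e c s) b u h b' u' h', x.1 = .nat b u h → y.1 = .cap b' u' h' →
    ((dep N b + 1 : ℕ) : ℕ∞) ≤ (TG N e c s).edist x y + ((lev N c u h : ℕ) : ℕ∞)
  core : ∀ {V Q Λ B FB : Type} [Fintype Λ] [Fintype B] [Fintype FB] (N e : ℕ)
    (c : Core V Q Λ B FB) (s : Ch V Q), Par N e → CoreAx N e c → ChAx N c s →
    ∀ (x y : TV N e c s) b u h a (d : ℕ), x.1 = .nat b u h → (∀ j, h ≠ .tru u j) →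
    (∀ l', h ≠ .fan u l') → (TG N e c s).edist x y = (d : ℕ∞) → d ≤ 2 * N →
    d < 2 * N + lev N c u h → tL N e c s y = {Kd.kap a} →
    ∃ z, y.1 = .nat b u (.core z) ∧ c.lb z = a
  sep : ∀ {V Q Λ B FB : Type} [Fintype Λ] [Fintype B] [Fintype FB] (N e : ℕ)
    (c : Core V Q Λ B FB) (s : Ch V Q), Par N e → CoreAx N e c → ChAx N c s →
    ∀ (x y : TV N e c s), x ≠ y → tL N e c s x = tL N e c s y → PlnL N (tL N e c s x) →
    ((2 * N : ℕ) : ℕ∞) ≤ (TG N e c s).edist x y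

/-- Labels in `M`. -/
structure StMinj : Prop where
  two : ∀ {V Q Λ B FB W : Type} [Fintype Λ] [Fintype B] [Fintype FB] (N e : ℕ)
    (c : Core V Q Λ B FB) (s : Ch V Q) (M : SimpleGraph W) (lm : W → Finset (Kd N Λ B FB)),
    Cx N e c s M lm → ∀ g g', g ≠ g' → M.edist g g' ≤ 2 → lm g ≠ lm g'
  sep : ∀ {V Q Λ B FB W : Type} [Fintype Λ] [Fintype B] [Fintype FB] (N e : ℕ)
    (c : Core V Q Λ B FB) (s : Ch V Q) (M : SimpleGraph W) (lm : W → Finset (Kd N Λ B FB)),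
    Cx N e c s M lm → ∀ g g', g ≠ g' → lm g = lm g' → PlnL N (lm g) →
    ((2 * N : ℕ) : ℕ∞) ≤ M.edist g g'
  uni : ∀ {V Q Λ B FB W : Type} [Fintype Λ] [Fintype B] [Fintype FB] (N e : ℕ)
    (c : Core V Q Λ B FB) (s : Ch V Q) (M : SimpleGraph W) (lm : W → Finset (Kd N Λ B FB)),
    Cx N e c s M lm → ∀ t : TV N e c s, (∀ b u h, t.1 ≠ .nat b u h) →
    ∃! g, lm g = tL N e c s t
  /-- neighbours by labels -/
  nbr : ∀ {V Q Λ B FB W : Type} [Fintype Λ] [Fintype B] [Fintype FB] (N e : ℕ)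
    (c : Core V Q Λ B FB) (s : Ch V Q) (M : SimpleGraph W) (lm : W → Finset (Kd N Λ B FB)),
    Cx N e c s M lm → ∀ (x : TV N e c s) g, Pt N e c s M lm x.1 g →
    lm g = tL N e c s x ∧
    (∀ y, (TG N e c s).Adj x y → ∃! g', M.Adj g g' ∧ lm g' = tL N e c s y) ∧
    (∀ g', M.Adj g g' → ∃! y, (TG N e c s).Adj x y ∧ tL N e c s y = lm g')
  ex : ∀ {V Q Λ B FB W : Type} [Fintype Λ] [Fintype B] [Fintype FB] (N e : ℕ)
    (c : Core V Q Λ B FB) (s : Ch V Q) (M : SimpleGraph W) (lm : W → Finset (Kd N Λ B FB)),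
    Cx N e c s M lm → (∀ g, ∃ t, Pt N e c s M lm t g) ∧
      ∀ t, okT N e c s t → ∃ g, Pt N e c s M lm t g

/-- Classification of the hubs of the tree skeleton. -/
structure StCls : Prop where
  cls : ∀ {V Q Λ B FB : Type} (N e : ℕ) (c : Core V Q Λ B FB) (s : Ch V Q), Par N e →
    CoreAx N e c → ChAx N c s → ∀ t, okT N e c s t →
    Rg N e c s (2 * N - 1) t ∨
    (∃ u w, c.G.Adj u w ∧ t = .nat true u (.core w)) ∨
    (∃ u q, c.ow q = u ∧ t = .nat true u (.gho q 1)) ∨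
    (∃ u, t = .nat false u (.core u)) ∨
    (∃ b u, t = .pth b u (2 * N)) ∨
    t = .rt ∨ (∃ u, t = .nat true u (.core u)) ∨ (∃ u j, t = .nat true u (.tru u j)) ∨
    (∃ u l, t = .nat true u (.fan u l)) ∨ ∃ u q j, c.ow q = u ∧ t = .nat false u (.gho q j)
  rg : ∀ {V Q Λ B FB : Type} (N e : ℕ) (c : Core V Q Λ B FB) (s : Ch V Q), Par N e →
    CoreAx N e c → ChAx N c s → ∀ t, okT N e c s t →
    ((∃ u w, c.G.Adj u w ∧ t = .nat true u (.core w)) ∨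
      (∃ u q, c.ow q = u ∧ t = .nat true u (.gho q 1)) ∨
      (∃ u, t = .nat false u (.core u)) ∨ (∃ b u, t = .pth b u (2 * N))) →
    Rg N e c s (2 * N) t ∧ ¬ Rg N e c s (2 * N - 1) t
  free : ∀ {V Q Λ B FB : Type} (N e : ℕ) (c : Core V Q Λ B FB) (s : Ch V Q), Par N e →
    CoreAx N e c → ChAx N c s → ∀ t, okT N e c s t →
    (t = .rt ∨ (∃ u, t = .nat true u (.core u)) ∨ (∃ u j, t = .nat true u (.tru u j)) ∨
      (∃ u l, t = .nat true u (.fan u l)) ∨ ∃ u q j, c.ow q = u ∧ t = .nat false u (.gho q j)) →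
    ¬ Rg N e c s (2 * N) t
  strong : ∀ {V Q Λ B FB : Type} (N e : ℕ) (c : Core V Q Λ B FB) (s : Ch V Q), Par N e →
    CoreAx N e c → ChAx N c s → ∀ b u h, okT N e c s (.nat b u h) →
    ((b = true ∧ 2 ≤ lev N c u h ∧ (∀ j, h ≠ .tru u j) ∧ (∀ l, h ≠ .fan u l)) ∨
      (b = false ∧ 1 ≤ lev N c u h ∧ ∀ q j, c.ow q = u → h ≠ .gho q j)) →
    Rg N e c s (2 * N - 1) (.nat b u h)

/-- Faces through the centre of a piece. -/
structure StFace : Prop where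
  dist : ∀ {V Q Λ B FB : Type} (N e : ℕ) (c : Core V Q Λ B FB), Par N e → CoreAx N e c →
    ∀ q σ, (∀ j ≤ 2 * e, c.G.dist (c.ow q) (fa c σ q j) = j) ∧
      fa c σ q (2 * e) = fa c (!σ) q (2 * e) ∧ fa c true q (2 * e) = c.ow ((c.nx^[2 * e]) q) ∧
      (∀ j ≤ 4 * e, fa c (!σ) q (4 * e - j) = fa c σ q j) ∧
      (∀ j, c.G.Adj (fa c σ q j) (fa c σ q (j + 1)))
  par : ∀ {V Q Λ B FB K : Type} (N e : ℕ) (c : Core V Q Λ B FB) (s : Ch V Q), Par N e →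
    CoreAx N e c → ChAx N c s → ∀ b q σ j, 1 ≤ j → j ≤ 2 * e - 1 →
    pb (K := K) N e c s b (c.ow q) (.core (fa c σ q j)) = .core (fa c σ q (j - 1))
  /-- following a face -/
  follow : ∀ {V Q Λ B FB : Type} (N e : ℕ) (c : Core V Q Λ B FB), Par N e → CoreAx N e c →
    ∀ σ q z, c.lb (c.ow q) = c.lb z → ∃ q', c.ow q' = z ∧ c.fl q' = c.fl q ∧
      c.bs (c.lb (fa c σ q' 1)) = c.bs (c.lb (fa c σ q 1)) ∧
      c.bs (c.lb (fa c (!σ) q' 1)) = c.bs (c.lb (fa c (!σ) q 1))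
  same : ∀ {V Q Λ B FB : Type} (N e : ℕ) (c : Core V Q Λ B FB) (s : Ch V Q), Par N e →
    CoreAx N e c → ChAx N c s → ∀ (q : Q) (σ : Bool) (i j : ℕ) (x y : TV N e c s),
    x.1 = .nat true (c.ow q) (.core (fa c σ q i)) → y.1 = .nat true (c.ow q) (.core (fa c σ q j)) →
    i ≤ 2 * e - 1 → j ≤ 2 * e - 1 → (TG N e c s).edist x y = ((i - j + (j - i) : ℕ) : ℕ∞)
  opp : ∀ {V Q Λ B FB : Type} (N e : ℕ) (c : Core V Q Λ B FB) (s : Ch V Q), Par N e →
    CoreAx N e c → ChAx N c s → ∀ (q : Q) (σ : Bool) (i j : ℕ) (x y : TV N e c s),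
    x.1 = .nat true (c.ow q) (.core (fa c σ q i)) →
    y.1 = .nat true (c.ow q) (.core (fa c (!σ) q j)) →
    i ≤ 2 * e - 1 → j ≤ 2 * e - 1 → (TG N e c s).edist x y = ((i + j : ℕ) : ℕ∞)
  anti : ∀ {V Q Λ B FB : Type} (N e : ℕ) (c : Core V Q Λ B FB) (s : Ch V Q), Par N e →
    CoreAx N e c → ChAx N c s → ∀ (q : Q) (σ : Bool) (i : ℕ) (x y : TV N e c s),
    x.1 = .nat true (c.ow q) (.core (fa c σ q i)) →
    y.1 = .nat true (c.ow q) (.core (fa c true q (2 * e))) →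
    i ≤ 2 * e - 1 → (TG N e c s).edist x y = ((i + 2 * e : ℕ) : ℕ∞)
  gho : ∀ {V Q Λ B FB : Type} (N e : ℕ) (c : Core V Q Λ B FB) (s : Ch V Q), Par N e →
    CoreAx N e c → ChAx N c s → ∀ (q q' : Q) (i : ℕ) (x y : TV N e c s), c.ow q' = c.ow q →
    x.1 = .nat true (c.ow q) (.gho q' i) →
    y.1 = .nat true (c.ow q) (.core (fa c true q (2 * e))) → 1 ≤ i → i ≤ 2 * e - 1 →
    (q' = q → (TG N e c s).edist x y = ((2 * e - i : ℕ) : ℕ∞)) ∧
    (q' ≠ q → (TG N e c s).edist x y = ((i + 2 * e : ℕ) : ℕ∞))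
  gho' : ∀ {V Q Λ B FB : Type} (N e : ℕ) (c : Core V Q Λ B FB) (s : Ch V Q), Par N e →
    CoreAx N e c → ChAx N c s → ∀ (q q' : Q) (σ : Bool) (i j : ℕ) (x y : TV N e c s),
    c.ow q' = fa c (!σ) q 1 → x.1 = .nat true (c.ow q) (.gho q' i) →
    y.1 = .nat true (c.ow q) (.core (fa c σ q j)) → 1 ≤ i → i + 1 ≤ 2 * N → j ≤ 2 * e - 1 →
    (TG N e c s).edist x y = ((i + 1 + j : ℕ) : ℕ∞)

/-- A ghost of a piece `true` is not glued to the centre of a piece `false`. -/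
def StGlue1 : Prop :=
  ∀ {V Q Λ B FB W : Type} [Fintype Λ] [Fintype B] [Fintype FB] (N e : ℕ)
    (c : Core V Q Λ B FB) (s : Ch V Q) (M : SimpleGraph W) (lm : W → Finset (Kd N Λ B FB)),
    Cx N e c s M lm → ∀ q u' g g', Pt N e c s M lm (.nat true (c.ow q) (.gho q 1)) g →
    Pt N e c s M lm (.nat false u' (.core u')) g' → M.Adj g g' → c.lb u' = c.lb (c.ow q) → False

/-- Two pieces `true` are not glued along an edge. -/
def StGlue2 : Prop :=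
  ∀ {V Q Λ B FB W : Type} [Fintype Λ] [Fintype B] [Fintype FB] (N e : ℕ)
    (c : Core V Q Λ B FB) (s : Ch V Q) (M : SimpleGraph W) (lm : W → Finset (Kd N Λ B FB)),
    Cx N e c s M lm → ∀ u w u' w' g g', c.G.Adj u w → c.G.Adj u' w' →
    Pt N e c s M lm (.nat true u (.core w)) g → Pt N e c s M lm (.nat true u' (.core w')) g' →
    M.Adj g g' → c.lb w' = c.lb u → c.lb w = c.lb u' → False

/-- The inner neighbour of a hub of level one of a piece `true` is a copy of the centre. -/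
def StInner : Prop :=
  ∀ {V Q Λ B FB W : Type} [Fintype Λ] [Fintype B] [Fintype FB] (N e : ℕ)
    (c : Core V Q Λ B FB) (s : Ch V Q) (M : SimpleGraph W) (lm : W → Finset (Kd N Λ B FB)),
    Cx N e c s M lm → ∀ u h g g', ((∃ w, c.G.Adj u w ∧ h = .core w) ∨
      ∃ q, c.ow q = u ∧ h = .gho q 1) →
    Pt N e c s M lm (.nat true u h) g → M.Adj g g' → lm g' = {Kd.kap (c.lb u)} →
    Pt N e c s M lm (.nat true u (.core u)) g'

/-- The partner of a copy of a centre is unique. -/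
def StRoot : Prop :=
  ∀ {V Q Λ B FB W : Type} [Fintype Λ] [Fintype B] [Fintype FB] (N e : ℕ)
    (c : Core V Q Λ B FB) (s : Ch V Q) (M : SimpleGraph W) (lm : W → Finset (Kd N Λ B FB)),
    Cx N e c s M lm → ∀ u g, Pt N e c s M lm (.nat true u (.core u)) g →
    ∀ t, Pt N e c s M lm t g → t = .nat true u (.core u)

/-- Neighbours of a copy of a centre. -/
structure StPort : Prop where
  core : ∀ {V Q Λ B FB W : Type} [Fintype Λ] [Fintype B] [Fintype FB] (N e : ℕ)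
    (c : Core V Q Λ B FB) (s : Ch V Q) (M : SimpleGraph W) (lm : W → Finset (Kd N Λ B FB)),
    Cx N e c s M lm → ∀ u g, Pt N e c s M lm (.nat true u (.core u)) g →
    ∀ w, c.G.Adj u w → ∀ g', M.Adj g g' → lm g' = {Kd.kap (c.lb w)} →
    Pt N e c s M lm (.nat true u (.core w)) g' ∨
      ∃ u', c.lb u' = c.lb w ∧ Pt N e c s M lm (.nat true u' (.core u')) g'
  gho : ∀ {V Q Λ B FB W : Type} [Fintype Λ] [Fintype B] [Fintype FB] (N e : ℕ)
    (c : Core V Q Λ B FB) (s : Ch V Q) (M : SimpleGraph W) (lm : W → Finset (Kd N Λ B FB)),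
    Cx N e c s M lm → ∀ u g, Pt N e c s M lm (.nat true u (.core u)) g →
    ∀ q, c.ow q = u → ∀ g', M.Adj g g' → lm g' = gl N e c (.gho q 1) →
    Pt N e c s M lm (.nat true u (.gho q 1)) g' ∨
      ∃ q', c.lb (c.ow q') = c.lb u ∧ c.fl q' = c.fl q ∧
        Pt N e c s M lm (.nat false (c.ow q') (.gho q' 1)) g'
  tru : ∀ {V Q Λ B FB W : Type} [Fintype Λ] [Fintype B] [Fintype FB] (N e : ℕ)
    (c : Core V Q Λ B FB) (s : Ch V Q) (M : SimpleGraph W) (lm : W → Finset (Kd N Λ B FB)),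
    Cx N e c s M lm → ∀ u g, Pt N e c s M lm (.nat true u (.core u)) g →
    ∀ g', M.Adj g g' → lm g' = gl N e c (.tru u 1) →
    ∃ u', c.lb u' = c.lb u ∧ Pt N e c s M lm (.nat true u' (.tru u' 1)) g'
  /-- ghosts at the centre of a piece `false` -/
  sp : ∀ {V Q Λ B FB W : Type} [Fintype Λ] [Fintype B] [Fintype FB] (N e : ℕ)
    (c : Core V Q Λ B FB) (s : Ch V Q) (M : SimpleGraph W) (lm : W → Finset (Kd N Λ B FB)),
    Cx N e c s M lm → ∀ u g, Pt N e c s M lm (.nat false u (.core u)) g →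
    ∀ q, c.ow q = u → ∀ g', M.Adj g g' → lm g' = gl N e c (.gho q 1) →
    ∃ q', c.lb (c.ow q') = c.lb u ∧ c.fl q' = c.fl q ∧
      Pt N e c s M lm (.nat false (c.ow q') (.gho q' 1)) g'

/-- Free ghosts are complete pendant paths. -/
def StGch : Prop :=
  ∀ {V Q Λ B FB W : Type} [Fintype Λ] [Fintype B] [Fintype FB] (N e : ℕ)
    (c : Core V Q Λ B FB) (s : Ch V Q) (M : SimpleGraph W) (lm : W → Finset (Kd N Λ B FB)),
    Cx N e c s M lm → ∀ q g g' q1, lm g = {Kd.kap (c.lb (c.ow q))} → M.Adj g g' →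
    lm g' = gl N e c (.gho q 1) → Pt N e c s M lm (.nat false (c.ow q1) (.gho q1 1)) g' →
    ∃ γ : ℕ → W, γ 0 = g ∧ γ 1 = g' ∧ (∀ j < 2 * N, M.Adj (γ j) (γ (j + 1))) ∧
      ∀ j, 1 ≤ j → j ≤ 2 * N →
        (∃ q2, c.bs (c.lb (c.ow q2)) = c.bs (c.lb (c.ow q)) ∧ c.fl q2 = c.fl q ∧
          Pt N e c s M lm (.nat false (c.ow q2) (.gho q2 j)) (γ j)) ∧
        ∀ g'', M.Adj (γ j) g'' → g'' = γ (j - 1) ∨ (j < 2 * N ∧ g'' = γ (j + 1))

/-- Trunks and fans of copies of centres. -/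
def StTch : Prop :=
  ∀ {V Q Λ B FB W : Type} [Fintype Λ] [Fintype B] [Fintype FB] (N e : ℕ)
    (c : Core V Q Λ B FB) (s : Ch V Q) (M : SimpleGraph W) (lm : W → Finset (Kd N Λ B FB)),
    Cx N e c s M lm → ∀ u g, Pt N e c s M lm (.nat true u (.core u)) g →
    ∃ θ : ℕ → W, θ 0 = g ∧ (∀ j < 2 * N - 1, M.Adj (θ j) (θ (j + 1))) ∧
      (∀ j, 1 ≤ j → j < 2 * N →
        (∃ u', c.lb u' = c.lb u ∧ Pt N e c s M lm (.nat true u' (.tru u' j)) (θ j)) ∧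
        ∀ g', M.Adj (θ j) g' → g' = θ (j - 1) ∨ (j < 2 * N - 1 ∧ g' = θ (j + 1)) ∨
          (j = 2 * N - 1 ∧ okG N e c (.fan u (lm g')) ∧ g' ≠ θ (j - 1))) ∧
      ∀ l, okG N e c (.fan u l) → ∃ φ, M.Adj (θ (2 * N - 1)) φ ∧ lm φ = l ∧ φ ≠ θ (2 * N - 2) ∧
        ∀ g', M.Adj φ g' → g' = θ (2 * N - 1)

section

variable {V Q Λ B FB W : Type} [Fintype Λ] [Fintype B] [Fintype FB]

/-- The neighbour of `g` with the label of `w` is again a copy of a centre. -/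
def Opn (N e : ℕ) (c : Core V Q Λ B FB) (s : Ch V Q) (M : SimpleGraph W)
    (lm : W → Finset (Kd N Λ B FB)) (w : V) (g : W) : Prop :=
  ∃ g', M.Adj g g' ∧ lm g' = {Kd.kap (c.lb w)} ∧
    ∃ u', Pt N e c s M lm (.nat true u' (.core u')) g'

/-- The neighbour of `g` with the label of the ghost at `q` is free. -/
def OpnG (N e : ℕ) (c : Core V Q Λ B FB) (s : Ch V Q) (M : SimpleGraph W)
    (lm : W → Finset (Kd N Λ B FB)) (q : Q) (g : W) : Prop :=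
  ∃ g', M.Adj g g' ∧ lm g' = gl N e c (.gho q 1) ∧
    ∃ q', Pt N e c s M lm (.nat false (c.ow q') (.gho q' 1)) g'

end

/-- Following a face through an open port. -/
def StFL : Prop :=
  ∀ {V Q Λ B FB W : Type} [Fintype Λ] [Fintype B] [Fintype FB] (N e : ℕ)
    (c : Core V Q Λ B FB) (s : Ch V Q) (M : SimpleGraph W) (lm : W → Finset (Kd N Λ B FB)),
    Cx N e c s M lm → ∀ q g σ, Pt N e c s M lm (.nat true (c.ow q) (.core (c.ow q))) g →
    Opn N e c s M lm (fa c σ q 1) g →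
    ∃ p : ℕ → W, p 0 = g ∧ (∀ j < 2 * e, M.Adj (p j) (p (j + 1))) ∧
      (∀ j ≤ 2 * e, lm (p j) = {Kd.kap (c.lb (fa c σ q j))}) ∧
      ∀ j, 1 ≤ j → j ≤ 2 * e → ∃ u' z, c.G.dist u' z ≤ j - 1 ∧
        Pt N e c s M lm (.nat true u' (.core z)) (p j)

/-- Claim A. -/
def StClA : Prop :=
  ∀ {V Q Λ B FB W : Type} [Fintype Λ] [Fintype B] [Fintype FB] (N e : ℕ)
    (c : Core V Q Λ B FB) (s : Ch V Q) (M : SimpleGraph W) (lm : W → Finset (Kd N Λ B FB)),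
    Cx N e c s M lm → ∀ q g σ, Pt N e c s M lm (.nat true (c.ow q) (.core (c.ow q))) g →
    Opn N e c s M lm (fa c σ q 1) g →
    Opn N e c s M lm (fa c (!σ) q 1) g ∧
    ∃ p : ℕ → W, p 0 = g ∧ p (4 * e) = g ∧ (∀ j < 4 * e, M.Adj (p j) (p (j + 1))) ∧
      ∀ j ≤ 4 * e, lm (p j) = {Kd.kap (c.lb (c.ow ((c.nx^[j]) q)))}

/-- Claim B. -/
def StClB : Prop :=
  ∀ {V Q Λ B FB W : Type} [Fintype Λ] [Fintype B] [Fintype FB] (N e : ℕ)
    (c : Core V Q Λ B FB) (s : Ch V Q) (M : SimpleGraph W) (lm : W → Finset (Kd N Λ B FB)),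
    Cx N e c s M lm → ∀ q g, Pt N e c s M lm (.nat true (c.ow q) (.core (c.ow q))) g →
    OpnG N e c s M lm q g → ∀ σ, Opn N e c s M lm (fa c σ q 1) g

/-- All ports open, or all ports plugged. -/
def StDich : Prop :=
  ∀ {V Q Λ B FB W : Type} [Fintype Λ] [Fintype B] [Fintype FB] (N e : ℕ)
    (c : Core V Q Λ B FB) (s : Ch V Q) (M : SimpleGraph W) (lm : W → Finset (Kd N Λ B FB)),
    Cx N e c s M lm → ∀ u g, Pt N e c s M lm (.nat true u (.core u)) g →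
    (∀ w, c.G.Adj u w → Opn N e c s M lm w g) ∨
    ((∀ w, c.G.Adj u w → ∃ g', M.Adj g g' ∧ Pt N e c s M lm (.nat true u (.core w)) g') ∧
      (∀ q, c.ow q = u → ∃ g', M.Adj g g' ∧ Pt N e c s M lm (.nat true u (.gho q 1)) g'))

/-- The open copies of centres form a graph which looks locally like the core complex. -/
def StB2K : Prop :=
  ∀ {V Q Λ B FB W : Type} [Fintype Λ] [Fintype B] [Fintype FB] (N e : ℕ)
    (c : Core V Q Λ B FB) (s : Ch V Q) (M : SimpleGraph W) (lm : W → Finset (Kd N Λ B FB)),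
    Cx N e c s M lm → (∃ u g, Pt N e c s M lm (.nat true u (.core u)) g ∧
      ∀ w, c.G.Adj u w → Opn N e c s M lm w g) →
    ∃ (A : Set W) (L : A → Λ), A.Nonempty ∧ LocLike e c (M.induce A) L

/-- If there are no open copies, the skeleton is the tree skeleton. -/
def StB2I : Prop :=
  ∀ {V Q Λ B FB W : Type} [Fintype Λ] [Fintype B] [Fintype FB] (N e : ℕ)
    (c : Core V Q Λ B FB) (s : Ch V Q) (M : SimpleGraph W) (lm : W → Finset (Kd N Λ B FB)),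
    Cx N e c s M lm → (∀ u g, Pt N e c s M lm (.nat true u (.core u)) g →
      (∀ w, c.G.Adj u w → ∃ g', M.Adj g g' ∧ Pt N e c s M lm (.nat true u (.core w)) g') ∧
      (∀ q, c.ow q = u → ∃ g', M.Adj g g' ∧ Pt N e c s M lm (.nat true u (.gho q 1)) g')) →
    ∃ φ : TG N e c s ≃g M, ∀ x, lm (φ x) = tL N e c s x

/-- Part B2. -/
def StB2 : Prop :=
  ∀ {V Q Λ B FB W : Type} [Fintype Λ] [Fintype B] [Fintype FB] (N e : ℕ)
    (c : Core V Q Λ B FB) (s : Ch V Q) (M : SimpleGraph W) (lm : W → Finset (Kd N Λ B FB)),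
    Par N e → CoreAx N e c → ChAx N c s → DEq N e (TG N e c s) (tL N e c s) M lm →
    (∃ φ : TG N e c s ≃g M, ∀ x, lm (φ x) = tL N e c s x) ∨
    ∃ (A : Set W) (L : A → Λ), A.Nonempty ∧ LocLike e c (M.induce A) L

end Pool.Agent.Helper2.LD
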