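import Pool.Agent.Helper2.LD.St6
import Pool.Agent.Helper84.LD.Bridge

/-!
# LD project: final assembly from parts A, B, C
-/

set_option autoImplicit false

namespace Pool.Agent.Helper2.LD

theorem win_iff_EF {V W : Type} (G : SimpleGraph V) (H : SimpleGraph W) (k : ℕ)
    (p : List (V × W)) : Pool.Agent.Helper84.LD.Win G H k p ↔ EF G H k p := by
  induction k generalizing p with
  | zero => exact Iff.rfl
  | succ k ih =>
    refine and_congr Iff.rfl (and_congr ?_ ?_)
    · exact forall_congr' fun v => exists_congr fun w => ih _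
    · exact forall_congr' fun w => exists_congr fun v => ih _

/-- Everything together. -/
theorem final_of (hEFb : StEFb) (hA1 : StA1) (hA2a : StA2a) (hA2b : StA2b) (hB1 : StB1)
    (hB2 : StB2) (hHyp : StHyp) (hTtree : StTtree) (hMac : StMac) (hFT : StFTree) (hFI : StFIso)
    (hFF : StFFin) (hTF : StTFin) (hKC : StKC) (hCh : StCh) (hKd : StKd) (hSz : StSize) :
    ¬ ∃ f : ℕ → List (ℕ × ℕ) → ℕ, Computable₂ f ∧ Pool.Agent.Helper84.LD.IsDepth f := by
  classical
  obtain ⟨K, Wt, kk, hK, hW, hmono, hWK, hkk, h60, hmac⟩ := hMac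
  obtain ⟨S, hS, hS2⟩ := hSz
  refine Pool.Agent.Helper84.LD.bridge hK hW hmono hWK (S := fun a => S (kk a) + 1)
    (Primrec.succ.to_comp.comp (hS.comp hkk)) ?_
  intro a
  by_cases hKa : K a
  · obtain ⟨V, Q, Λ, B, FB, _, _, _, _, _, c, hc, hloc, hcard⟩ := hmac a hKa
    set k := kk a with hk
    have hk60 : 60 ≤ k := h60 a
    have hk40 : 40 ≤ k := by omega
    have hPar : Par (NN k) (EE k) := by
      have h1 : 2 ^ 5 ≤ 2 ^ (k - 3) := Nat.pow_le_pow_right (by norm_num) (by omega)
      constructor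
      · show 2 ^ (k - 3) - 4 + 4 = 2 ^ (k - 3)
        omega
      · show 20 ≤ 2 ^ (k - 3) - 4
        omega
    obtain ⟨s, hs⟩ := hCh (NN k) (EE k) c hc
    have hKdc := hKd (Λ := Λ) (B := B) (FB := FB) (NN k)
    have hKdlt : Fintype.card (Kd (NN k) Λ B FB) < 2 ^ (SS k - 4) := by
      rw [hKdc]; exact hcard
    obtain ⟨C⟩ := hKC k (Kd (NN k) Λ B FB) hk60 hKdlt
    have hkd8 : k + 8 ≤ Fintype.card (Kd (NN k) Λ B FB) := by
      rw [hKdc]
      have h1 : k < 2 ^ k := Nat.lt_two_pow_self
      have h2 : 2 ^ k = 8 * 2 ^ (k - 3) := by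
        have : k = 3 + (k - 3) := by omega
        conv_lhs => rw [this, pow_add]
        norm_num
      have h3 : k - 3 < 2 ^ (k - 3) := Nat.lt_two_pow_self
      have h4 : NN k = 2 ^ (k - 3) := rfl
      rw [h4]
      generalize 2 ^ (k - 3) = X at *
      generalize Fintype.card Λ * (2 * X + 2) = Y1
      generalize Fintype.card B * Fintype.card FB = Y2
      omega
    have := hTF.finT (NN k) (EE k) c s
    have := hTF.finG (NN k) (EE k) c
    have iT : Fintype (TV (NN k) (EE k) c s) := Fintype.ofFinite _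
    have iG : Fintype (GV (NN k) (EE k) c) := Fintype.ofFinite _
    obtain ⟨hy1, hy2, hy3, hy4⟩ := hHyp k c s hk60 hc hs
    have hFinT : Finite (FullV k C (tL (NN k) (EE k) c s)) := hFF.fin k C _
    have iFT : Fintype (FullV k C (tL (NN k) (EE k) c s)) := Fintype.ofFinite _
    have hcT : Nat.card (FullV k C (tL (NN k) (EE k) c s)) ≤ S k := by
      refine (hS2 k hk60).2 _ (Fintype.card (TV (NN k) (EE k) c s)) _ hKdlt ?_ (hFF.card k C _)
      have := hTF.card (NN k) (EE k) c s hPar hc hs
      rwa [Nat.card_eq_fintype_card] at this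
    refine ⟨FullV k C (tL (NN k) (EE k) c s), iFT,
      full k C (TG (NN k) (EE k) c s) (tL (NN k) (EE k) c s), k, ?_, ?_, ?_, ?_, ?_⟩
    · rw [← Nat.card_eq_fintype_card]
      exact hcT.trans (Nat.le_succ _)
    · exact ((hS2 k hk60).1).trans (Nat.le_succ _)
    · exact hFT k C _ _ (hTtree (NN k) (EE k) c s hPar hc hs)
    · intro _
      have : Finite (FullV k C (sL (NN k) (EE k) c s)) := hFF.fin k C _
      refine ⟨FullV k C (sL (NN k) (EE k) c s), Fintype.ofFinite _,
        full k C (SG (NN k) (EE k) c s) (sL (NN k) (EE k) c s), ?_, ?_⟩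
      · rw [win_iff_EF]
        exact hA1 k hk40 hkd8 C _ _ _ _ hy1 hy2 (hB1 (NN k) (EE k) c s hPar hc hs)
      · rintro ⟨φ⟩
        have h1 := Nat.card_congr φ.toEquiv
        have : Nonempty (GV (NN k) (EE k) c) := by
          obtain ⟨x⟩ := hc.conn.nonempty
          exact ⟨⟨.core x, trivial⟩⟩
        have h2 := hFF.sum k C (tL (NN k) (EE k) c s) (gL (NN k) (EE k) c)
        have h3 : Nat.card (FullV k C (sL (NN k) (EE k) c s)) =
          Nat.card (FullV k C (Sum.elim (tL (NN k) (EE k) c s) (gL (NN k) (EE k) c))) := rfl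
        omega
    · intro W _ H hw hni
      rw [win_iff_EF] at hw
      obtain ⟨A, S', lab', ⟨φ⟩, hhub⟩ := hA2a k hk40 hkd8 C _ _ H hy3 hw
      have hEF' : EF (full k C (TG (NN k) (EE k) c s) (tL (NN k) (EE k) c s))
          (full k C S' lab') k [] := by
        have h1 := hEFb.iso H (full k C S' lab') φ k []
        exact hEFb.trans _ _ _ k [] hw h1
      have hD := hA2b k hk40 hkd8 C _ _ _ _ hy3.1 hhub hEF'
      rcases hB2 (NN k) (EE k) c s S' lab' hPar hc hs hD with ⟨ψ, hψ⟩ | ⟨A', L, hne, hL⟩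
      · exfalso
        obtain ⟨θ⟩ := hFI k C _ _ _ _ ψ hψ
        exact hni ⟨θ.trans φ.symm⟩
      · have : Fintype A := Fintype.ofFinite _
        have : Fintype A' := Fintype.ofFinite _
        have : Nonempty A' := hne.to_subtype
        have h1 := hloc A' _ L hL
        refine hmono a _ _ ?_ h1
        refine (Fintype.card_le_of_injective (fun x : A' => (x.1 : A)) Subtype.val_injective).trans ?_
        exact Fintype.card_le_of_injective (fun x : A => (x.1 : W)) Subtype.val_injective
  · -- trivial tree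
    refine ⟨Unit, inferInstance, ⊥, 2, ?_, ?_, ?_, fun h => absurd h hKa, ?_⟩
    · simp
    · have := (hS2 (kk a) (h60 a)).1
      have := h60 a
      omega
    · exact SimpleGraph.IsTree.of_subsingleton
    · intro W _ H hw hni
      exfalso
      apply hni
      obtain ⟨-, h1, h2⟩ := hw
      obtain ⟨w, hw1⟩ := h1 ()
      obtain ⟨-, -, h3⟩ := hw1
      have key : ∀ w', w' = w := by
        intro w'
        obtain ⟨v, hv⟩ := h3 w'
        have := (hv (v, w') (by simp) ((), w) (by simp)).1
        exact this.1 (Subsingleton.elim _ _)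
      refine ⟨⟨⟨fun _ => w, fun _ => (), fun _ => rfl, fun w' => (key w').symm⟩, ?_⟩⟩
      intro a b
      simp

end Pool.Agent.Helper2.LD
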