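import Pool.Agent.Helper2.LD.St5

/-!
# LD project, module Tsee: what one sees in the tree skeleton
-/

set_option autoImplicit false

namespace Pool.Agent.Helper2.LD

namespace Tsee

section

variable {V Q Λ B FB : Type} [Fintype Λ] [Fintype B] [Fintype FB] {N e : ℕ}
    {c : Core V Q Λ B FB} {s : Ch V Q}

/-- Hubs without flags are natural. -/
theorem natOf (x : TH V Q (Kd N Λ B FB)) (h : ∀ i, Kd.fg i ∉ tl N e c s x) :
    ∃ b u h, x = .nat b u h := by
  cases x with
  | nat b u h' => exact ⟨b, u, h', rfl⟩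
  | cap b u h' =>
    exfalso
    refine h (if b = true then 1 else 0) ?_
    simp only [tl, Finset.mem_union, Finset.mem_singleton]
    right; trivial
  | pth b u j =>
    exfalso
    refine h 2 ?_
    simp [tl]
  | rt =>
    exfalso
    refine h 3 ?_
    simp [tl]

omit [Fintype Λ] [Fintype B] [Fintype FB] in
theorem nlb_fg (l : Finset (Kd N Λ B FB)) (h : l ∈ NLb N e c) (i : Fin 4) : Kd.fg i ∉ l := by
  rcases h with ⟨x, rfl⟩ | ⟨q, j, -, -, rfl⟩ | ⟨x, j, -, -, rfl⟩
  · simp [gl]
  · show Kd.fg i ∉ if j = e then _ else _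
    split_ifs <;> simp [piK]
  · simp [gl, piK]

omit [Fintype Λ] [Fintype B] [Fintype FB] in
theorem pln_fg (l : Finset (Kd N Λ B FB)) (h : PlnL N l) (i : Fin 4) : Kd.fg i ∉ l := by
  rcases h with ⟨a, rfl⟩ | ⟨b, f, j, h⟩ | ⟨a, j, h⟩
  · simp
  · rw [h]; simp [piK]
  · rw [h]; simp [piK]

theorem near_nat (hTd : StTdist) (hp : Par N e) (hc : CoreAx N e c) (hs : ChAx N c s)
    (x y : TV N e c s) (b : Bool) (u : V) (h : GH V Q (Kd N Λ B FB)) (hx : x.1 = .nat b u h)
    (hd : (TG N e c s).edist x y ≤ ((2 * N : ℕ) : ℕ∞)) (hl : ∀ i, Kd.fg i ∉ tL N e c s y) :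
    ∃ h', y.1 = .nat b u h' := by
  obtain ⟨b', u', h', hy⟩ := natOf (e := e) (c := c) (s := s) y.1 hl
  rcases hTd.near N e c s hp hc hs x y b u (by rw [hx]; rfl) hd with h1 | ⟨j, h1⟩
  · rw [hy] at h1
    simp only [pc, Option.some.injEq, Prod.mk.injEq] at h1
    obtain ⟨rfl, rfl⟩ := h1
    exact ⟨h', hy⟩
  · rw [hy] at h1
    cases h1

end

section

variable {V Q Λ B FB : Type} {N e : ℕ} {c : Core V Q Λ B FB} {s : Ch V Q}

theorem pb_own {K : Type} (b : Bool) (u : V) (h : GH V Q K) (h1 : ∀ j, h ≠ .tru u j)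
    (h2 : ∀ l, h ≠ .fan u l) : (∀ j, pb N e c s b u h ≠ .tru u j) ∧
      ∀ l, pb N e c s b u h ≠ .fan u l := by
  cases h with
  | core z =>
    unfold pb
    dsimp only
    split_ifs <;> simp
  | gho q j =>
    unfold pb GH.dp
    dsimp only
    split_ifs <;> simp
  | tru x j =>
    unfold pb GH.dp
    dsimp only
    split_ifs
    · simp
    · refine ⟨fun j' h3 => ?_, by simp⟩
      simp only [GH.tru.injEq] at h3
      exact h1 j (by rw [h3.1])
  | fan x l =>
    unfold pb GH.dp
    refine ⟨fun j' h3 => ?_, by simp⟩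
    simp only [GH.tru.injEq] at h3
    exact h2 l (by rw [h3.1])

theorem it_nat (b : Bool) (u : V) (h : GH V Q (Kd N Λ B FB)) (k : ℕ) :
    (tpar N e c s)^[k] (.nat b u h) = .nat b u ((pb N e c s b u)^[k] h) := by
  induction k generalizing h with
  | zero => rfl
  | succ n ih =>
    rw [Function.iterate_succ_apply, Function.iterate_succ_apply]
    exact ih _

theorem it_own {K : Type} (b : Bool) (u : V) (h : GH V Q K) (h1 : ∀ j, h ≠ .tru u j)
    (h2 : ∀ l, h ≠ .fan u l) (k : ℕ) : (∀ j, (pb N e c s b u)^[k] h ≠ .tru u j) ∧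
      ∀ l, (pb N e c s b u)^[k] h ≠ .fan u l := by
  induction k with
  | zero => exact ⟨h1, h2⟩
  | succ n ih =>
    rw [Function.iterate_succ_apply']
    exact pb_own b u _ ih.1 ih.2

theorem it_fan {K : Type} (b : Bool) (u : V) (l : Finset K) (k : ℕ) (hk : k + 1 < 2 * N) :
    (pb N e c s b u)^[k + 1] (.fan u l : GH V Q K) = .tru u (2 * N - (k + 1)) := by
  induction k with
  | zero => rfl
  | succ n ih =>
    rw [Function.iterate_succ_apply', ih (by omega)]
    show (if 2 * N - (n + 1) ≤ 1 then _ else _) = _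
    rw [if_neg (by omega)]
    rfl

theorem it_fan' {K : Type} (b : Bool) (u : V) (l : Finset K) (j : ℕ) (hj : j < 2 * N) :
    (∃ j', (pb N e c s b u)^[j] (.fan u l : GH V Q K) = .tru u j') ∨
      ∃ l', (pb N e c s b u)^[j] (.fan u l : GH V Q K) = .fan u l' := by
  rcases Nat.eq_zero_or_pos j with rfl | hj'
  · exact Or.inr ⟨l, rfl⟩
  · obtain ⟨k, rfl⟩ : ∃ k, j = k + 1 := ⟨j - 1, by omega⟩
    exact Or.inl ⟨_, it_fan b u l k hj⟩

/-- Levels of iterated parents. -/
theorem lvl (hT : StTok) (hp : Par N e) (hc : CoreAx N e c) (hs : ChAx N c s) :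
    ∀ (i : ℕ) (x : TH V Q (Kd N Λ B FB)), okT N e c s x → i ≤ tlev N c x →
      tlev N c ((tpar N e c s)^[i] x) + i = tlev N c x := by
  intro i
  induction i with
  | zero => intro x hx _; rfl
  | succ n ih =>
    intro x hx hi
    obtain ⟨h1, h2, h3⟩ := hT.ok N e c s hp hc hs x hx (by omega)
    have h5 := ih (tpar N e c s x) h1 (by omega)
    rw [Function.iterate_succ_apply]
    omega

theorem okroot {x : TV N e c s} {b : Bool} {u : V} {h : GH V Q (Kd N Λ B FB)}
    (hx : x.1 = .nat b u h) : okT N e c s (.nat b u (.core u)) := by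
  have h1 := x.2
  rw [hx] at h1
  refine ⟨h1.1, trivial, Or.inl ?_⟩
  simp [lev, GH.own, GH.ht]

theorem fan (hT : StTok) (hTd : StTdist) (hp : Par N e) (hc : CoreAx N e c) (hs : ChAx N c s)
    (x y : TV N e c s) (u : V) (h : GH V Q (Kd N Λ B FB)) (l : Finset (Kd N Λ B FB))
    (hx : x.1 = .nat true u h) (h1 : ∀ j, h ≠ .tru u j) (h2 : ∀ l', h ≠ .fan u l')
    (hy : y.1 = .nat true u (.fan u l)) :
    (TG N e c s).edist x y = ((2 * N + lev N c u h : ℕ) : ℕ∞) := by
  have hly : tlev N c y.1 = 2 * N := by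
    rw [hy]; simp [tlev, lev, GH.own, GH.ht]
  have hlx : tlev N c x.1 = lev N c u h := by
    rw [hx]; rfl
  have hinn := hTd.inn N e c s hp hc hs x y (by rw [hx, hy]; rfl)
  apply le_antisymm
  · let r : TV N e c s := ⟨.nat true u (.core u), okroot hx⟩
    have h3 := hTd.root N e c s hp hc hs r x true u rfl (by rw [hx]; rfl)
    have h4 := hTd.root N e c s hp hc hs r y true u rfl (by rw [hy]; rfl)
    rw [hlx] at h3
    rw [hly] at h4
    calc (TG N e c s).edist x y ≤ (TG N e c s).edist x r + (TG N e c s).edist r y :=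
          SimpleGraph.edist_triangle
      _ = ((2 * N + lev N c u h : ℕ) : ℕ∞) := by
          rw [SimpleGraph.edist_comm (u := x), h3, h4]; push_cast; rw [add_comm]
  · by_contra hlt
    rw [not_le] at hlt
    have hle := hlt.le
    obtain ⟨d, hd⟩ : ∃ d : ℕ, (TG N e c s).edist x y = (d : ℕ∞) :=
      ⟨_, (ENat.natCast_toNat (ne_top_of_le_ne_top (ENat.natCast_ne_top _) hle)).symm⟩
    have hd' : d < 2 * N + lev N c u h := by rw [hd] at hlt; exact_mod_cast hlt
    obtain ⟨i, j, hi, hj, hij, heq⟩ := (hinn d).1 hd.le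
    rw [hx, hy, it_nat, it_nat] at heq
    simp only [TH.nat.injEq, true_and] at heq
    rw [hly] at hj
    rcases Nat.lt_or_ge j (2 * N) with hj' | hj'
    · obtain ⟨h5, h6⟩ := it_own (N := N) (e := e) (c := c) (s := s) true u h h1 h2 i
      rcases it_fan' (N := N) (e := e) (c := c) (s := s) true u l j hj' with ⟨j', h7⟩ | ⟨l', h7⟩
      · exact h5 j' (heq.trans h7)
      · exact h6 l' (heq.trans h7)
    · have hj2 : j = 2 * N := le_antisymm hj hj'
      have e1 := lvl hT hp hc hs i x.1 x.2 hi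
      have e2 := lvl hT hp hc hs j y.1 y.2 (by omega)
      rw [hx, it_nat, heq] at e1
      rw [hy, it_nat] at e2
      rw [← hx, hlx] at e1
      rw [← hy, hly] at e2
      omega

theorem cap (hTd : StTdist) (hT : StTok) (hp : Par N e) (hc : CoreAx N e c) (hs : ChAx N c s)
    (x y : TV N e c s) (b : Bool) (u : V) (h : GH V Q (Kd N Λ B FB)) (b' : Bool) (u' : V)
    (h' : GH V Q (Kd N Λ B FB)) (hx : x.1 = .nat b u h) (hy : y.1 = .cap b' u' h') :
    ((dep N b + 1 : ℕ) : ℕ∞) ≤ (TG N e c s).edist x y + ((lev N c u h : ℕ) : ℕ∞) := by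
  let r : TV N e c s := ⟨.nat b u (.core u), okroot hx⟩
  have h3 := hTd.root N e c s hp hc hs r x b u rfl (by rw [hx]; rfl)
  have hlx : tlev N c x.1 = lev N c u h := by rw [hx]; rfl
  rw [hlx] at h3
  have key : ∀ z : TV N e c s, ∀ h0, z.1 = .cap b u h0 →
      ((dep N b + 1 : ℕ) : ℕ∞) ≤ (TG N e c s).edist x z + ((lev N c u h : ℕ) : ℕ∞) := by
    intro z h0 hz
    have h4 := hTd.root N e c s hp hc hs r z b u rfl (by rw [hz]; rfl)
    have h5 : tlev N c z.1 = dep N b + 1 := by
      have h6 := z.2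
      rw [hz] at h6
      rw [hz]
      show lev N c u h0 + 1 = _
      rw [h6.2.2.1]
    rw [h5] at h4
    rw [← h4, ← h3, add_comm, SimpleGraph.edist_comm (u := r) (v := x)]
    calc (TG N e c s).edist r z ≤ (TG N e c s).edist r x + (TG N e c s).edist x z :=
          SimpleGraph.edist_triangle
      _ = _ := by rw [SimpleGraph.edist_comm (u := r) (v := x)]
  by_cases hpc : pc y.1 = some (b, u)
  · rw [hy] at hpc
    simp only [pc, Option.some.injEq, Prod.mk.injEq] at hpc
    obtain ⟨rfl, rfl⟩ := hpc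
    exact key y h' hy
  · have hu : s.rp u = u := by
      have := x.2
      rw [hx] at this
      exact this.1
    have hN : 1 ≤ 2 * N := by
      have h1 := hp.1
      omega
    let a : TV N e c s := ⟨.cap b u (cc N s b u), hT.okc N e c s hp hc hs b u hu⟩
    let a' : TV N e c s := ⟨.pth b u 1, hu, le_refl _, hN⟩
    rw [hTd.out N e c s hp hc hs x y a a' b u (by rw [hx]; rfl) hpc rfl rfl]
    refine (key a _ rfl).trans ?_
    gcongr
    rw [add_assoc]
    exact le_self_add

end

section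

variable {V Q Λ B FB : Type} {N e : ℕ} {c : Core V Q Λ B FB} {s : Ch V Q}

/-- The two midpoints of a face have different labels. -/
theorem mid_ne (hPb : StPb) (hp : Par N e) (hc : CoreAx N e c) (hs : ChAx N c s) (q : Q) :
    c.lb (c.ow ((c.nx^[e]) q)) ≠ c.lb (c.ow ((c.nx^[3 * e]) q)) := by
  intro h
  obtain ⟨-, -, h3⟩ := hPb (K := Unit) N e c s hp hc hs true (c.ow q)
  obtain ⟨-, h4, -, h5, h6⟩ := h3 q rfl
  refine h4 (hc.k5 _ _ ?_ (by rw [h]))
  have e1 : c.G.edist (c.ow ((c.nx^[e]) q)) (c.ow q) = ((e : ℕ) : ℕ∞) := by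
    rw [SimpleGraph.edist_comm, ← SimpleGraph.Reachable.coe_dist_eq_edist
      (hc.conn.preconnected _ _), h5]
  have e2 : c.G.edist (c.ow q) (c.ow ((c.nx^[3 * e]) q)) = ((e : ℕ) : ℕ∞) := by
    rw [← SimpleGraph.Reachable.coe_dist_eq_edist (hc.conn.preconnected _ _), h6]
  have h1 := hp.1
  calc c.G.edist (c.ow ((c.nx^[e]) q)) (c.ow ((c.nx^[3 * e]) q)) ≤
        c.G.edist (c.ow ((c.nx^[e]) q)) (c.ow q) +
          c.G.edist (c.ow q) (c.ow ((c.nx^[3 * e]) q)) := SimpleGraph.edist_triangle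
    _ = ((e + e : ℕ) : ℕ∞) := by rw [e1, e2]; push_cast; rfl
    _ ≤ _ := by exact_mod_cast (by omega : e + e ≤ 4 * N + 2)

/-- Fans of a piece are the own fans of the piece `true`. -/
theorem fan_own {b : Bool} {u x : V} {l : Finset (Kd N Λ B FB)} (hp : Par N e)
    (hc : CoreAx N e c) (h : okT N e c s (.nat b u (.fan x l))) : b = true ∧ x = u := by
  have h0 := hp.1
  have h1 := hp.2
  rcases h.2.2 with h2 | ⟨-, q, -, h2⟩
  · have h3 : lev N c u (GH.fan x l : GH V Q (Kd N Λ B FB)) = c.G.dist u x + 2 * N := rfl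
    rw [h3] at h2
    cases b with
    | false =>
      simp only [dep, Bool.false_eq_true, if_false] at h2
      omega
    | true =>
      simp only [dep, if_true] at h2
      refine ⟨rfl, ?_⟩
      have h4 : c.G.dist u x = 0 := by omega
      exact ((hc.conn.preconnected u x).dist_eq_zero_iff.1 h4).symm
  · cases h2

theorem core (hT : StTok) (hTd : StTdist) (hPb : StPb) (hp : Par N e) (hc : CoreAx N e c)
    (hs : ChAx N c s) (x y : TV N e c s) (b : Bool) (u : V) (h h' : GH V Q (Kd N Λ B FB))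
    (a : Λ) (d : ℕ) (hx : x.1 = .nat b u h) (h1 : ∀ j, h ≠ .tru u j) (h2 : ∀ l', h ≠ .fan u l')
    (hd : (TG N e c s).edist x y = (d : ℕ∞)) (hd' : d < 2 * N + lev N c u h)
    (hl : gl N e c h' = {Kd.kap a}) (hy : y.1 = .nat b u h') :
    ∃ z, h' = .core z ∧ c.lb z = a := by
  cases h' with
  | core z =>
    refine ⟨z, rfl, ?_⟩
    simpa [gl] using hl
  | gho q j =>
    exfalso
    by_cases hje : j = e
    · have e1 : Kd.kap (c.lb (c.ow ((c.nx^[e]) q))) ∈ gl N e c (.gho q j) := by
        simp [gl, hje]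
      have e2 : Kd.kap (c.lb (c.ow ((c.nx^[3 * e]) q))) ∈ gl N e c (.gho q j) := by
        simp [gl, hje]
      rw [hl] at e1 e2
      simp only [Finset.mem_singleton, Kd.kap.injEq] at e1 e2
      exact mid_ne hPb hp hc hs q (e1.trans e2.symm)
    · have e1 : Kd.gam (c.bs (c.lb (c.ow q))) (c.fl q) ∈ gl N e c (.gho q j) := by
        simp [gl, hje]
      rw [hl] at e1
      simp at e1
  | tru z j =>
    exfalso
    have e1 : Kd.del (c.lb z) ∈ ({Kd.kap a} : Finset (Kd N Λ B FB)) := by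
      rw [← hl]; simp [gl]
    simp at e1
  | fan z l =>
    exfalso
    have hok := y.2
    rw [hy] at hok
    obtain ⟨rfl, rfl⟩ := fan_own hp hc hok
    have h3 := fan hT hTd hp hc hs x y z h l hx h1 h2 hy
    rw [hd] at h3
    have : d = 2 * N + lev N c z h := by exact_mod_cast h3
    omega

end

end Tsee

open Tsee in
/-- Module Tsee. -/
theorem pTsee (hT : StTok) (hPb : StPb) (hTd : StTdist) (hTinj : StTinj) : StTsee where
  nat := by
    intro V Q Λ B FB _ _ _ N e c s hp hc hs x y b u h hx hd hl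
    exact near_nat hTd hp hc hs x y b u h hx hd (fun i => nlb_fg _ hl i)
  fan := by
    intro V Q Λ B FB N e c s hp hc hs x y u h l hx h1 h2 hy
    exact Tsee.fan hT hTd hp hc hs x y u h l hx h1 h2 hy
  cap := by
    intro V Q Λ B FB N e c s hp hc hs x y b u h b' u' h' hx hy
    exact Tsee.cap hTd hT hp hc hs x y b u h b' u' h' hx hy
  core := by
    intro V Q Λ B FB _ _ _ N e c s hp hc hs x y b u h a d hx h1 h2 hd hdN hd' hl
    obtain ⟨h', hy⟩ := near_nat hTd hp hc hs x y b u h hx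
      (by rw [hd]; exact_mod_cast hdN) (fun i => by rw [hl]; simp)
    have hl' : gl N e c h' = {Kd.kap a} := by
      rw [← hl]; unfold tL; rw [hy]; rfl
    obtain ⟨z, rfl, hz⟩ :=
      Tsee.core hT hTd hPb hp hc hs x y b u h h' a d hx h1 h2 hd hd' hl' hy
    exact ⟨z, hy, hz⟩
  sep := by
    intro V Q Λ B FB _ _ _ N e c s hp hc hs x y hne hl hpl
    by_contra hlt
    rw [not_le] at hlt
    have hle := hlt.le
    obtain ⟨b, u, h, hx⟩ := natOf (e := e) (c := c) (s := s) x.1 (fun i => pln_fg _ hpl i)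
    obtain ⟨h', hy⟩ := near_nat hTd hp hc hs x y b u h hx hle
      (fun i => by rw [← hl]; exact pln_fg _ hpl i)
    have hgl : gl N e c h = gl N e c h' := by
      have := hl
      unfold tL at this
      rw [hx, hy] at this
      exact this
    have hneh : h ≠ h' := by
      rintro rfl
      exact hne (Subtype.ext (hx.trans hy.symm))
    have hokx := x.2
    have hoky := y.2
    rw [hx] at hokx
    rw [hy] at hoky
    have key : ∀ (x y : TV N e c s) (h h' : GH V Q (Kd N Λ B FB)) (b : Bool) (u : V)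
        (l : Finset (Kd N Λ B FB)), x.1 = .nat b u h → y.1 = .nat b u h' →
        gl N e c h = gl N e c h' → h ≠ h' → (TG N e c s).edist x y < ((2 * N : ℕ) : ℕ∞) →
        h' ≠ .fan u l := by
      intro x y h h' b u l hx hy hgl hneh hlt hf
      subst hf
      have hokx := x.2
      have hoky := y.2
      rw [hx] at hokx
      rw [hy] at hoky
      obtain ⟨rfl, -⟩ := fan_own hp hc hoky
      have h1 : ∀ j, h ≠ .tru u j := by
        rintro j rfl
        have h3 := hokx.2.1
        exact hoky.2.1.2 j h3.1 h3.2 hgl.symm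
      have h2 : ∀ l', h ≠ .fan u l' := by
        rintro l' rfl
        apply hneh
        have : l' = l := hgl
        rw [this]
      rw [Tsee.fan hT hTd hp hc hs x y u h l hx h1 h2 hy] at hlt
      have : 2 * N + lev N c u h < 2 * N := by exact_mod_cast hlt
      omega
    rcases hTinj.nat N e c s hp hc hs b u h h' hokx hoky hgl with h1 | ⟨hb, l, h1⟩ |
      ⟨hb, l, h1⟩ | ⟨q, q', h1, h2⟩
    · exact hneh h1
    · subst hb
      obtain ⟨-, hx1⟩ | hno := Classical.em (true = true ∧ h = .fan u l)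
      · refine key y x h' h true u l hy hx hgl.symm (fun h0 => hneh h0.symm) ?_ hx1
        rwa [SimpleGraph.edist_comm]
      · exact hno ⟨rfl, h1⟩
    · exact key x y h h' b u l hx hy hgl hneh hlt h1
    · subst h1
      have e0 : ∀ κ, κ ∈ tL N e c s x ↔ κ = Kd.kap (c.lb (c.ow ((c.nx^[e]) q))) ∨
          κ = Kd.kap (c.lb (c.ow ((c.nx^[3 * e]) q))) := by
        intro κ
        unfold tL
        rw [hx]
        show κ ∈ gl N e c (.gho q e) ↔ _
        unfold gl
        simp
      have hm := mid_ne hPb hp hc hs q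
      rcases hpl with ⟨a, ha⟩ | ⟨b1, f, j, ha⟩ | ⟨a, j, ha⟩
      · rw [ha] at e0
        have e1 := (e0 (Kd.kap (c.lb (c.ow ((c.nx^[e]) q))))).2 (Or.inl rfl)
        have e2 := (e0 (Kd.kap (c.lb (c.ow ((c.nx^[3 * e]) q))))).2 (Or.inr rfl)
        simp only [Finset.mem_singleton, Kd.kap.injEq] at e1 e2
        exact hm (e1.trans e2.symm)
      · have e1 := (ha (Kd.gam b1 f)).2 (Or.inl rfl)
        rw [e0] at e1
        simp at e1
      · have e1 := (ha (Kd.del a)).2 (Or.inl rfl)
        rw [e0] at e1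
        simp at e1

end Pool.Agent.Helper2.LD
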