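import Pool.Agent.Helper2.LD.St2

/-!
# LD project, part A2: statements of auxiliary modules
-/

set_option autoImplicit false

namespace Pool.Agent.Helper2.LD

/-- Basic sorts in the full graph. -/
def StIs1 : Prop :=
  ∀ {K V : Type} [Fintype K] [DecidableEq K] (k : ℕ), 40 ≤ k → k + 8 ≤ Fintype.card K →
    ∀ (C : KCode k K) (S : SimpleGraph V) (lab : V → Finset K) (v : FullV k C lab),
    (Leaf (full k C S lab) v ↔ (∃ κ c i, fb v = Fb.lf κ c i) ∨ ∃ κ c i, fb v = Fb.mk κ c i i) ∧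
    (Rv (full k C S lab) v ↔ ∃ κ c, fb v = Fb.r κ c) ∧
    (A2v (full k C S lab) v ↔ ∃ κ c, fb v = Fb.a2 κ c) ∧
    (A1v (full k C S lab) v ↔ ∃ κ c, fb v = Fb.a1 κ c) ∧
    (Plv (full k C S lab) v ↔ fb v = Fb.root)

/-- Distance of a name from the `a1` vertex of its gadget. -/
def gd {K : Type} : Fb K → ℕ
  | Fb.root => 1
  | Fb.a1 _ _ => 0
  | Fb.a2 _ _ => 1
  | Fb.r _ _ => 2
  | Fb.lf _ _ _ => 3
  | Fb.mk _ _ _ j => j

/-- Restricted walks in the full graph. -/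
def StIs2 : Prop :=
  ∀ {K V : Type} [Fintype K] [DecidableEq K] (k : ℕ), 40 ≤ k → k + 8 ≤ Fintype.card K →
    ∀ (C : KCode k K) (S : SimpleGraph V) (lab : V → Finset K) (u v : FullV k C lab) (n : ℕ)
    (κ : K) (c : Bool), fb v ≠ Fb.root →
    (fb u = Fb.a1 κ c → (RW (full k C S lab) n u v ↔
      own v = own u ∧ (fb v).gid = some (κ, c) ∧ gd (fb v) ≤ n)) ∧
    (∀ i j i', fb u = Fb.mk κ c i j → fb v = Fb.mk κ c i' i' → own u = own v →
      (RW (full k C S lab) n u v ↔ (i = i' ∧ i - j ≤ n) ∨ (i ≠ i' ∧ j + i' ≤ n)))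

/-- The gadgets in a graph with the local axioms. -/
structure GadMap {K W : Type} (k : ℕ) (code : K → Finset ℕ) (H : SimpleGraph W)
    (L : {v // Plv H v} → Finset K) (ψ : {v // Plv H v} → Fb K → W) : Prop where
  root : ∀ v, ψ v Fb.root = v.1
  cls : ∀ v f, Fb.ok (MM k) code (L v) f → Is k code H (clOf f) (ψ v f)
  adj : ∀ v f, Fb.ok (MM k) code (L v) f → f ≠ Fb.root → H.Adj (ψ v f) (ψ v f.par)
  inj : ∀ v f g, Fb.ok (MM k) code (L v) f → Fb.ok (MM k) code (L v) g → f ≠ Fb.root →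
    g ≠ Fb.root → f.par = g.par → ψ v f = ψ v g → f = g
  sur : ∀ v f, Fb.ok (MM k) code (L v) f → ∀ w, H.Adj (ψ v f) w → ∀ c' : Cl K, c'.ok code →
    Is k code H c' w → c' ≠ Cl.pl → c'.par = clOf f →
    ∃ g, g ≠ Fb.root ∧ Fb.ok (MM k) code (L v) g ∧ g.par = f ∧ ψ v g = w
  lab : ∀ v κ, κ ∈ L v ↔ StrAt k code H v.1 κ

def StDecX1 : Prop :=
  ∀ {K W : Type} [Fintype K] [DecidableEq K] (k : ℕ), 40 ≤ k →
    ∀ (C : KCode k K) (H : SimpleGraph W), LocAx k C.code H →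
    ∃ (L : {v // Plv H v} → Finset K) (ψ : {v // Plv H v} → Fb K → W),
      GadMap k C.code H L ψ

def StDecX2 : Prop :=
  ∀ {K W : Type} [Fintype K] [DecidableEq K] (k : ℕ), 40 ≤ k →
    ∀ (C : KCode k K) (H : SimpleGraph W), LocAx k C.code H →
    ∀ (L : {v // Plv H v} → Finset K) (ψ : {v // Plv H v} → Fb K → W),
    GadMap k C.code H L ψ →
    ∃ (φ : H ≃g encG (H.comap (Subtype.val : {v // Plv H v} → W)) (MM k) C.code L),
      (∀ v : {v // Plv H v}, (φ v.1).1 = (v, Fb.root))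

/-- A leaf which has at least `m` twins. -/
def StrL {V : Type} (m : ℕ) (G : SimpleGraph V) (v : V) : Prop :=
  ∃ s : Finset V, s.card = m ∧ v ∉ s ∧ ∀ w ∈ s, ∀ x, (G.Adj v x ↔ G.Adj w x)

/-- Ranks of the predicates concerning strong gadgets. -/
def StRankL : Prop :=
  (∀ m, Inv1 (m + 1) (fun {_} G v => StrL m G v)) ∧
  ∀ (k : ℕ), 40 ≤ k → ∀ {K V W : Type} (code : K → Finset ℕ) (G : SimpleGraph V)
    (H : SimpleGraph W), (∀ κ, ∀ i ∈ code κ, i ≤ SS k) → LocAx k code G → LocAx k code H →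
    ∀ (p : List (V × W)) (v : V) (w : W), EF G H (k - 2) p → (v, w) ∈ p → Plv G v →
    ∀ κ, (StrAt k code G v κ ↔ StrAt k code H w κ)

/-- In a graph with the local axioms, a plain vertex is at distance `4` from the leaves of its
gadgets, which are strong iff the gadget is. -/
def StStrL : Prop :=
  ∀ {K W : Type} (k : ℕ), 40 ≤ k → ∀ (code : K → Finset ℕ) (H : SimpleGraph W),
    LocAx k code H → ∀ (v : W) (κ : K), Plv H v →
    (StrAt k code H v κ ↔ ∃ z y x w, Is k code H (Cl.l κ) z ∧ H.Adj z y ∧ Is k code H (Cl.r κ) y ∧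
      H.Adj y x ∧ Is k code H (Cl.a2 κ) x ∧ H.Adj x w ∧ Is k code H (Cl.a1 κ) w ∧ H.Adj w v ∧
      StrL (MM k) H z)

/-- Distances and labels in a full graph. -/
structure StFD : Prop where
  dist : ∀ {K V : Type} (k : ℕ) (C : KCode k K) (S : SimpleGraph V) (lab : V → Finset K)
    (u v : FullV k C lab), fb u = Fb.root → fb v = Fb.root →
    (full k C S lab).edist u v = (brG K S (HH k)).edist (own u) (own v)
  leaf : ∀ {K V : Type} (k : ℕ) (C : KCode k K) (S : SimpleGraph V) (lab : V → Finset K)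
    (u v : FullV k C lab) (κ : K) (c : Bool) (i : ℕ), fb u = Fb.root → fb v = Fb.lf κ c i →
    (full k C S lab).edist u v = (brG K S (HH k)).edist (own u) (own v) + 4
  str : ∀ {K V : Type} [Fintype K] [DecidableEq K] (k : ℕ), 40 ≤ k → k + 8 ≤ Fintype.card K →
    ∀ (C : KCode k K) (S : SimpleGraph V) (lab : V → Finset K) (v : FullV k C lab) (κ : K)
    (c : Bool) (i : ℕ), fb v = Fb.lf κ c i →
    (StrL (MM k) (full k C S lab) v ↔ (c = true ∧ κ ∈ brL lab (own v)))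
  strAt : ∀ {K V : Type} [Fintype K] [DecidableEq K] (k : ℕ), 40 ≤ k → k + 8 ≤ Fintype.card K →
    ∀ (C : KCode k K) (S : SimpleGraph V) (lab : V → Finset K) (v : FullV k C lab) (κ : K),
    fb v = Fb.root → (StrAt k C.code (full k C S lab) v κ ↔ κ ∈ brL lab (own v))

/-- The full graph satisfies the local axioms. -/
def StLocF : Prop :=
  ∀ {K V : Type} [Fintype K] [DecidableEq K] (k : ℕ), 40 ≤ k → k + 8 ≤ Fintype.card K →
    ∀ (C : KCode k K) (S : SimpleGraph V) (lab : V → Finset K),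
    LocAx k C.code (full k C S lab)

end Pool.Agent.Helper2.LD
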