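import Pool.Agent.Helper2.LD.St1

/-!
# LD project, part A1: statements of the shared lemmas on names and on the full graph
-/

set_option autoImplicit false

namespace Pool.Agent.Helper2.LD

/-- Corresponding names at one owner. -/
def NmRel {K : Type} (l : List (Fb K × Fb K)) : Prop :=
  (∀ a ∈ l, Fb.same a.1 a.2) ∧
  (∀ a ∈ l, ∀ b ∈ l, (a.1.gid = b.1.gid ↔ a.2.gid = b.2.gid)) ∧
  (∀ a ∈ l, ∀ b ∈ l, (a.1 = b.1 ↔ a.2 = b.2))

/-- A new name at an old owner. -/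
def StNm : Prop :=
  ∀ {K : Type} (m : ℕ) (code : K → Finset ℕ) (L L' : Finset K)
    (l : List (Fb K × Fb K)) (f : Fb K), 1 ≤ m → Fb.ok m code L f →
    (∀ a ∈ l, Fb.ok m code L a.1 ∧ Fb.ok m code L' a.2) → NmRel l →
    (∀ κ c i, f = Fb.lf κ c i → l.length < m ∨ (l.length ≤ m ∧ ∃ a ∈ l,
      (∀ j, a.1 ≠ Fb.lf κ c j) ∨ ∃ j c' j', a = (Fb.lf κ c j, Fb.lf κ c' j') ∧
        ((c = true ∧ κ ∈ L) ↔ (c' = true ∧ κ ∈ L')))) →
    ∃ f', Fb.ok m code L' f' ∧ NmRel ((f, f') :: l)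

/-- Adjacency and common neighbours are determined by corresponding names. -/
def StRelNm : Prop :=
  ∀ {K : Type} (m : ℕ) (code : K → Finset ℕ) (L L' : Finset K) (a b : Fb K × Fb K), 1 ≤ m →
    Fb.ok m code L a.1 → Fb.ok m code L b.1 → Fb.ok m code L' a.2 → Fb.ok m code L' b.2 →
    NmRel [a, b] →
    (Fb.adj a.1 b.1 ↔ Fb.adj a.2 b.2) ∧
    (a.1 ≠ b.1 → ((∃ g, Fb.ok m code L g ∧ Fb.adj a.1 g ∧ Fb.adj b.1 g) ↔
      (∃ g, Fb.ok m code L' g ∧ Fb.adj a.2 g ∧ Fb.adj b.2 g)))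

/-- Common neighbours in the full graph. -/
def StCnF : Prop :=
  ∀ {K V : Type} (k : ℕ) (C : KCode k K) (S : SimpleGraph V) (lab : V → Finset K)
    (u v : FullV k C lab), u ≠ v →
    (CN (full k C S lab) u v ↔
      (own u = own v ∧ ∃ g, Fb.ok (MM k) C.code (brL lab (own u)) g ∧ Fb.adj (fb u) g ∧
        Fb.adj (fb v) g) ∨
      (fb u = Fb.root ∧ fb v = Fb.root ∧ own u ≠ own v ∧ CN (brG K S (HH k)) (own u) (own v)) ∨
      (fb u = Fb.root ∧ (∃ κ c, fb v = Fb.a1 κ c) ∧ (brG K S (HH k)).Adj (own u) (own v)) ∨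
      (fb v = Fb.root ∧ (∃ κ c, fb u = Fb.a1 κ c) ∧ (brG K S (HH k)).Adj (own u) (own v)))

/-- Degree of a name different from the root. -/
def fdeg {K : Type} [DecidableEq K] (m : ℕ) (code : K → Finset ℕ) (L : Finset K) : Fb K → ℕ
  | Fb.root => 0
  | Fb.a1 κ _ => 2 + (code κ).card
  | Fb.a2 _ _ => 2
  | Fb.r κ c => m + 1 + (if c = true ∧ κ ∈ L then 1 else 0)
  | Fb.lf _ _ _ => 1
  | Fb.mk _ _ i j => if j < i then 2 else 1

/-- Degrees in the full graph. -/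
def StDegF : Prop :=
  ∀ {K V : Type} [Fintype K] [DecidableEq K] (k : ℕ), 40 ≤ k → k + 8 ≤ Fintype.card K →
    ∀ (C : KCode k K) (S : SimpleGraph V) (lab : V → Finset K) (u : FullV k C lab),
    (fb u = Fb.root → ∀ n ≤ k, DegGe (full k C S lab) n u) ∧
    (fb u ≠ Fb.root → ∀ n, (DegGe (full k C S lab) n u ↔
      n ≤ fdeg (MM k) C.code (brL lab (own u)) (fb u)))

end Pool.Agent.Helper2.LD
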