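import Pool.Agent.Helper77.LD.P_EFb
import Pool.Agent.Helper89.LD.P_BrD
import Pool.Agent.Helper8.LD.P_PL
import Pool.Agent.Helper79.LD.P_D12
import Pool.Agent.Helper51.LD.P_Hom
import Pool.Agent.Helper4.LD.P_Ext3
import Pool.Agent.Helper7.LD.P_InvSym
import Pool.Agent.Helper80.LD.P_Nm
import Pool.Agent.Helper62.LD.P_RelNm
import Pool.Agent.Helper13.LD.P_CnF
import Pool.Agent.Helper13.LD.P_DegF
import Pool.Agent.Helper45.LD.P_InvStep
import Pool.Agent.Helper72.LD.P_EF1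
import Pool.Agent.Helper26.LD.P_Full
import Pool.Agent.Helper72.LD.P_InvEnd
import Pool.Agent.Helper36.LD.P_J12
import Pool.Agent.Helper98.LD.P_J3
import Pool.Agent.Helper49.LD.P_A1
import Pool.Agent.Helper96.LD.P_Rank
import Pool.Agent.Helper44.LD.P_Is1
import Pool.Agent.Helper44.LD.P_Is2
import Pool.Agent.Helper7.LD.P_Is
import Pool.Agent.Helper27.LD.P_FD
import Pool.Agent.Helper36.LD.P_LocF
import Pool.Agent.Helper39.LD.P_StrL
import Pool.Agent.Helper32.LD.P_RankL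
import Pool.Agent.Helper29.LD.P_TrX
import Pool.Agent.Helper1.LD.P_DecX1
import Pool.Agent.Helper98.LD.P_DecX2
import Pool.Agent.Helper32.LD.P_DecY
import Pool.Agent.Helper90.LD.P_TrY
import Pool.Agent.Helper11.LD.P_A2a
import Pool.Agent.Helper81.LD.P_A2b

/-!
# LD project: assembly of part A
-/

set_option autoImplicit false

namespace Pool.Agent.Helper2.LD

theorem aEFb : StEFb := Pool.Agent.Helper77.LD.pEFb
theorem aBrD : StBrD := Pool.Agent.Helper89.LD.pBrD
theorem aPL : StPL := Pool.Agent.Helper8.LD.pPL aBrD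
theorem aD12 : StD12 := Pool.Agent.Helper79.LD.pD12
theorem aHom : StHom := Pool.Agent.Helper51.LD.pHom aD12
theorem aExt3 : StExt3 := Pool.Agent.Helper4.LD.pExt3 aBrD
theorem aInvSym : StInvSym := Pool.Agent.Helper7.LD.pInvSym
theorem aNm : StNm := Pool.Agent.Helper80.LD.pNm
theorem aRelNm : StRelNm := Pool.Agent.Helper62.LD.pRelNm
theorem aCnF : StCnF := Pool.Agent.Helper13.LD.pCnF
theorem aDegF : StDegF := Pool.Agent.Helper13.LD.pDegF
theorem aInvStep : StInvStep := Pool.Agent.Helper45.LD.pInvStep aHom aPL aNm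
theorem aEF1 : StEF1 := Pool.Agent.Helper72.LD.pEF1
theorem aFull : StFull := Pool.Agent.Helper26.LD.pFull aBrD aPL
theorem aInvEnd : StInvEnd := Pool.Agent.Helper72.LD.pInvEnd aHom aPL aNm aRelNm aCnF aDegF
theorem aJ12 : StJ12 := Pool.Agent.Helper36.LD.pJ12
theorem aJ3 : StJ3 := Pool.Agent.Helper98.LD.pJ3 aBrD aExt3
theorem partA1 : StA1 :=
  Pool.Agent.Helper49.LD.pA1 aEFb aInvSym aInvStep aInvEnd aEF1 aFull aJ12 aJ3
theorem aRank : StRank := Pool.Agent.Helper96.LD.pRank aEFb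
theorem aIs1 : StIs1 := Pool.Agent.Helper44.LD.pIs1 aDegF
theorem aIs2 : StIs2 := Pool.Agent.Helper44.LD.pIs2 aIs1
theorem aIs : StIs := Pool.Agent.Helper7.LD.pIs aIs1 aIs2
theorem aFD : StFD := Pool.Agent.Helper27.LD.pFD aIs aDegF
theorem aLocF : StLocF := Pool.Agent.Helper36.LD.pLocF aIs aDegF
theorem aStrL : StStrL := Pool.Agent.Helper39.LD.pStrL
theorem aRankL : StRankL := Pool.Agent.Helper32.LD.pRankL aEFb aRank aStrL
theorem aTrX : StTrX := Pool.Agent.Helper29.LD.pTrX aEFb aRank aRankL aIs aLocF aFD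
theorem aDecX1 : StDecX1 := Pool.Agent.Helper1.LD.pDecX1
theorem aDecX2 : StDecX2 := Pool.Agent.Helper98.LD.pDecX2
theorem aDecY : StDecY := Pool.Agent.Helper32.LD.pDecY
theorem aTrY : StTrY := Pool.Agent.Helper90.LD.pTrY aEFb aRank aRankL aTrX aLocF aFD aIs aBrD
theorem partA2a : StA2a := Pool.Agent.Helper11.LD.pA2a aTrX aDecX1 aDecX2 aTrY aDecY
theorem partA2b : StA2b := Pool.Agent.Helper81.LD.pA2b aEFb aRank aRankL aLocF aIs aFD aBrD

end Pool.Agent.Helper2.LD
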