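import Pool.Agent.Helper32.LD.StT3

/-!
# LD project, tiling part, module FB: lifting of arcs and faces
-/

set_option autoImplicit false

namespace Pool.Agent.Helper2.LD

open Pool.Agent.Helper32.LD

/-- Module FB. -/
theorem tFB (hSB : StSB) : StFB := by
  intro I m t al e inf hm ht hal he hax W M L hloc g hg
  have hal1 : 1 ≤ al := by omega
  obtain ⟨u, hu, -, -, hface⟩ := hloc g
  have hx : ∃ x : BX m t, u = Sum.inl x := by
    rcases u with x | ⟨ε, i⟩
    · exact ⟨x, rfl⟩
    · rw [hu] at hg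
      exact absurd hg (by simp [btc, MC.core, lbB])
  obtain ⟨x, rfl⟩ := hx
  have hF : ∀ (f : BF m t) (i0 : ZMod 5), (bt m t).src ((bt m t).arc f i0) = x →
        ∃ p : ℕ → W, p 0 = g ∧ p (5 * al) = g ∧ (∀ i < 5 * al, M.Adj (p i) (p (i + 1))) ∧
        ∀ (j i : ℕ), j < 5 → i ≤ al → L (p (j * al + i)) =
          lbB m t al inf ((bt m t).pt al ((bt m t).arc f (i0 + (j : ZMod 5))) i) := by
    intro f i0 hf
    obtain ⟨q, hq1, hq2⟩ := hSB.sur al f (i0.val * al) hal1
    have h5 : i0.val < 5 := ZMod.val_lt i0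
    have hlt : i0.val * al < 5 * al := Nat.mul_lt_mul_of_pos_right h5 hal1
    rw [Nat.mod_eq_of_lt hlt] at hq2
    have hnxt : ∀ j, (btc m t al inf).ow (((btc m t al inf).nx^[j]) q) =
        (bt m t).fpt al f (i0.val * al + j) := by
      intro j
      have := hSB.nxt (bt m t) al (lbB m t al inf) (bsB al) (flB m t inf) q j hal1
      rw [hq1, hq2] at this
      exact this
    have hpt : ∀ j i, i ≤ al → (bt m t).fpt al f (i0.val * al + (j * al + i)) =
        (bt m t).pt al ((bt m t).arc f (i0 + (j : ZMod 5))) i := by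
      intro j i hi
      have h1 : i0.val * al + (j * al + i) = (i0.val + j) * al + i := by ring
      rw [h1, hSB.fptE (bt m t) al f (i0.val + j) i hax hal1 hi]
      congr 2
      push_cast
      rw [ZMod.natCast_zmod_val]
    have hqu : (btc m t al inf).ow q = Sum.inl x := by
      have h1 := hnxt 0
      have h2 := hpt 0 0 (Nat.zero_le _)
      simp only [zero_mul, add_zero, Nat.cast_zero] at h2
      rw [Function.iterate_zero_apply, add_zero, h2, hSB.pt0 _ _ _ hal1, hf] at h1
      exact h1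
    obtain ⟨p, hp0, hp1, hp2, hp3⟩ := hface q hqu
    rw [he] at hp1 hp2 hp3
    refine ⟨p, hp0, hp1, hp2, fun j i hj hi => ?_⟩
    have hle : j * al + i ≤ 5 * al := by nlinarith
    rw [hp3 _ hle, hnxt, hpt j i hi]
    rfl
  refine ⟨x, hu, fun A hA => ?_, hF⟩
  obtain ⟨f, i, hi | hi⟩ := hax.cov A
  · obtain ⟨p, hp0, -, hp2, hp3⟩ := hF f i (by rw [hi]; exact hA)
    refine ⟨p, hp0, fun i hi => hp2 i (by omega), fun i' hi' => ?_⟩
    have := hp3 0 i' (by omega) hi'
    rwa [zero_mul, zero_add, Nat.cast_zero, add_zero, hi] at this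
  · have h1 : (bt m t).src ((bt m t).arc f (i + 1)) = x := by
      rw [← hax.fc f i, hi, ← hA]
      unfold MC.dst MC.src rev
      cases A.2 <;> simp
    obtain ⟨p, hp0, hp1, hp2, hp3⟩ := hF f (i + 1) h1
    refine ⟨fun i => p (5 * al - i), by simpa using hp1, fun i' hi' => ?_, fun i' hi' => ?_⟩
    · have h2 := hp2 (5 * al - (i' + 1)) (by omega)
      rw [show 5 * al - (i' + 1) + 1 = 5 * al - i' by omega] at h2
      exact h2.symm
    · have h2 := hp3 4 (al - i') (by omega) (by omega)
      rw [show 4 * al + (al - i') = 5 * al - i' by omega] at h2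
      have h3 : i + 1 + ((4 : ℕ) : ZMod 5) = i := by
        have : (1 : ZMod 5) + ((4 : ℕ) : ZMod 5) = 0 := by decide
        rw [add_assoc, this, add_zero]
      rw [h3, hi, hSB.ptrev _ _ _ _ (by omega)] at h2
      rw [show al - (al - i') = i' by omega] at h2
      exact h2

end Pool.Agent.Helper2.LD
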