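import Pool.Agent.Helper32.LD.StT1

/-!
# LD project, tiling part, module IS: paths without backtracking are geodesics
-/

set_option autoImplicit false

namespace Pool.Agent.Helper2.LD

open Pool.Agent.Helper32.LD

theorem IS_col {V : Type} {G : SimpleGraph V} {col : V → Bool}
    (hcol : ∀ u v, G.Adj u v → col u ≠ col v) {u v : V} (w : G.Walk u v) :
    col v = (col u ^^ decide (w.length % 2 = 1)) := by
  induction w with
  | nil => simp
  | cons h w ih =>
    have h1 := hcol _ _ h
    rw [ih, SimpleGraph.Walk.length_cons]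
    rename_i a b d
    rcases Nat.mod_two_eq_zero_or_one w.length with h2 | h2
    · have h3 : (w.length + 1) % 2 = 1 := by omega
      rw [h2, h3]
      cases ha : col a <;> cases hb : col b <;> simp_all
    · have h3 : (w.length + 1) % 2 = 0 := by omega
      rw [h2, h3]
      cases ha : col a <;> cases hb : col b <;> simp_all

/-- Module IS. -/
theorem tIS : StIS := by
  intro V G r hbip hk p hadj hnb j hj
  obtain ⟨col, hcol⟩ := hbip
  induction j using Nat.strong_induction_on with
  | _ j ih =>
    rcases j with _ | _ | j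
    · simp
    · exact SimpleGraph.edist_eq_one_iff_adj.2 (hadj 0)
    · have h1 := ih (j + 1) (by omega) (by omega)
      have h0 := ih j (by omega) (by omega)
      have ha := hadj (j + 1)
      have ha1 : G.edist (p (j + 1)) (p (j + 2)) = 1 := SimpleGraph.edist_eq_one_iff_adj.2 ha
      have hup : G.edist (p 0) (p (j + 2)) ≤ ((j + 2 : ℕ) : ℕ∞) := by
        calc G.edist (p 0) (p (j + 2)) ≤ G.edist (p 0) (p (j + 1)) +
              G.edist (p (j + 1)) (p (j + 2)) := SimpleGraph.edist_triangle
          _ = ((j + 2 : ℕ) : ℕ∞) := by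
              rw [h1, ha1]; push_cast; ring
      obtain ⟨D, hD⟩ : ∃ D : ℕ, G.edist (p 0) (p (j + 2)) = (D : ℕ∞) :=
        ⟨_, (ENat.natCast_toNat (ne_top_of_le_ne_top (ENat.natCast_ne_top _) hup)).symm⟩
      have hlo : ((j + 1 : ℕ) : ℕ∞) ≤ (D : ℕ∞) + 1 := by
        rw [← h1, ← hD]
        calc G.edist (p 0) (p (j + 1)) ≤ G.edist (p 0) (p (j + 2)) +
              G.edist (p (j + 2)) (p (j + 1)) := SimpleGraph.edist_triangle
          _ = _ := by rw [SimpleGraph.edist_comm (u := p (j + 2)), ha1]
      have hD1 : D ≤ j + 2 := by rw [hD] at hup; exact_mod_cast hup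
      have hD2 : j + 1 ≤ D + 1 := by exact_mod_cast hlo
      have hw : ∀ (i d : ℕ), G.edist (p 0) (p i) = (d : ℕ∞) →
          col (p i) = (col (p 0) ^^ decide (d % 2 = 1)) := by
        intro i d hd
        obtain ⟨w, hw⟩ := SimpleGraph.exists_walk_of_edist_ne_top
          (by rw [hd]; exact ENat.natCast_ne_top _ : G.edist (p 0) (p i) ≠ ⊤)
        rw [hd] at hw
        have : w.length = d := by exact_mod_cast hw
        rw [IS_col hcol w, this]
      rw [hD]
      rcases Nat.lt_or_ge D (j + 1) with h2 | h2
      · exfalso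
        have hDj : D = j := by omega
        subst hDj
        exact hnb D (hk (p 0) (p (D + 1)) (p D) (p (D + 2)) D (by omega) h1 (hadj D).symm h0
          (hadj (D + 1)) hD)
      · rcases Nat.lt_or_ge D (j + 2) with h3 | h3
        · exfalso
          have hDj : D = j + 1 := by omega
          subst hDj
          exact hcol _ _ ha ((hw _ _ h1).trans (hw _ _ hD).symm)
        · exact_mod_cast (by omega : D = j + 1 + 1)

end Pool.Agent.Helper2.LD
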