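import Pool.Agent.Helper2.LD.Defs1

/-!
# LD project, part A1: Duplicator's side. Statements of the modules.
-/

set_option autoImplicit false

namespace Pool.Agent.Helper2.LD

/-- Basic facts about games. -/
structure StEFb : Prop where
  sub : ∀ {V W : Type} (G : SimpleGraph V) (H : SimpleGraph W) (r : ℕ) (p q : List (V × W)),
    (∀ x ∈ q, x ∈ p) → EF G H r p → EF G H r q
  mono : ∀ {V W : Type} (G : SimpleGraph V) (H : SimpleGraph W) (r : ℕ) (p : List (V × W)),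
    EF G H (r + 1) p → EF G H r p
  pi : ∀ {V W : Type} (G : SimpleGraph V) (H : SimpleGraph W) (r : ℕ) (p : List (V × W)),
    EF G H r p → PI G H p
  symm : ∀ {V W : Type} (G : SimpleGraph V) (H : SimpleGraph W) (r : ℕ) (p : List (V × W)),
    EF G H r p → EF H G r (p.map Prod.swap)
  trans : ∀ {V W U : Type} (G : SimpleGraph V) (H : SimpleGraph W) (J : SimpleGraph U) (r : ℕ)
    (l : List (V × W × U)), EF G H r (l.map fun x => (x.1, x.2.1)) →
    EF H J r (l.map fun x => (x.2.1, x.2.2)) → EF G J r (l.map fun x => (x.1, x.2.2))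
  iso : ∀ {V W : Type} (G : SimpleGraph V) (H : SimpleGraph W) (φ : G ≃g H) (r : ℕ) (l : List V),
    EF G H r (l.map fun v => (v, φ v))

/-- The game of the frozen statement is `EF`. -/
def StEFfin : Prop :=
  ∀ (n m k : ℕ) (T : SimpleGraph (Fin n)) (H : SimpleGraph (Fin m)),
    (∃ R : (j : ℕ) → (Fin j → Fin n) → (Fin j → Fin m) → Prop,
      R 0 Fin.elim0 Fin.elim0 ∧
      (∀ j ≤ k, ∀ (a : Fin j → Fin n) (b : Fin j → Fin m), R j a b →
        ∀ i i' : Fin j, (a i = a i' ↔ b i = b i') ∧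
          (T.Adj (a i) (a i') ↔ H.Adj (b i) (b i'))) ∧
      (∀ j < k, ∀ (a : Fin j → Fin n) (b : Fin j → Fin m), R j a b →
        (∀ v : Fin n, ∃ w : Fin m,
          R (j + 1) (Fin.snoc (α := fun _ => Fin n) a v)
            (Fin.snoc (α := fun _ => Fin m) b w)) ∧
        (∀ w : Fin m, ∃ v : Fin n,
          R (j + 1) (Fin.snoc (α := fun _ => Fin n) a v)
            (Fin.snoc (α := fun _ => Fin m) b w)))) ↔ EF T H k []

/-- Distances in the plain graph of a skeleton. -/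
def StBrD : Prop :=
  ∀ {K V : Type} (S : SimpleGraph V) (h : ℕ) (u v : BrV K V h),
    (u.1.1 ≠ v.1.1 → (brG K S h).edist u v =
      (u.1.2.length : ℕ∞) + S.edist u.1.1 v.1.1 + (v.1.2.length : ℕ∞)) ∧
    (∀ a b w : List (Finset K), u.1.1 = v.1.1 → u.1.2 = a ++ w → v.1.2 = b ++ w →
      (a = [] ∨ b = [] ∨ a.getLast? ≠ b.getLast?) →
      (brG K S h).edist u v = ((a.length + b.length : ℕ) : ℕ∞))

/-- What the homogeneity argument uses about plain graphs. -/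
structure PL {X : Type} (P : SimpleGraph X) (ht : X → ℕ) (k : ℕ) : Prop where
  bip : Bip P
  cyc : NoCyc P (3 * NN k)
  le : ∀ x, ht x ≤ HH k
  adj : ∀ x y, P.Adj x y → ht x = ht y + 1 ∨ ht y = ht x + 1 ∨ (ht x = HH k ∧ ht y = HH k)
  up : ∀ x, ht x < HH k → ∃! y, P.Adj x y ∧ ht y = ht x + 1
  down : ∀ x, 0 < ht x → ∃ s : Finset X, k + 1 ≤ s.card ∧ ∀ y ∈ s, P.Adj x y ∧ ht y + 1 = ht x
  far : ∀ F : Finset X, F.card ≤ k → ∀ η ≤ NN k, ∃ x, ht x = η ∧
    ∀ y ∈ F, ((NN k : ℕ) : ℕ∞) < P.edist x y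

/-- Standing assumptions on a skeleton graph. -/
def HypS {V : Type} (k : ℕ) (S : SimpleGraph V) : Prop :=
  Bip S ∧ NoCyc S (3 * NN k) ∧ Many V (k + 2)

def StPL : Prop :=
  ∀ (k : ℕ), 40 ≤ k → ∀ (K V : Type) [Fintype K] [DecidableEq K] (S : SimpleGraph V),
    k + 8 ≤ Fintype.card K → HypS k S → PL (brG K S (HH k)) brH k

/-- Directions in graphs without short cycles. -/
def StD12 : Prop :=
  ∀ {X : Type} (P : SimpleGraph X) (L : ℕ), Bip P → NoCyc P L →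
    (∀ z x (d : ℕ), P.edist z x = ((d + 1 : ℕ) : ℕ∞) → 2 * (d + 1) ≤ L →
      ∃! w, P.Adj z w ∧ P.edist w x = (d : ℕ∞)) ∧
    (∀ z x w (d : ℕ), P.edist z x = (d : ℕ∞) → P.Adj z w →
      P.edist w x = ((d + 1 : ℕ) : ℕ∞) ∨ ∃ d', d = d' + 1 ∧ P.edist w x = (d' : ℕ∞)) ∧
    (∀ z x y w w' (a b c : ℕ), P.edist z x = ((a + 1 : ℕ) : ℕ∞) →
      P.edist z y = ((b + 1 : ℕ) : ℕ∞) → P.edist x y = (c : ℕ∞) →
      P.Adj z w → P.edist w x = (a : ℕ∞) → P.Adj z w' → P.edist w' y = (b : ℕ∞) →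
      a + b + 2 + c ≤ L → (w = w' ↔ c < a + b + 2))

/-- The positions of the plain game; the third component is an offset. -/
def Hom {X X' : Type} (P : SimpleGraph X) (ht : X → ℕ) (P' : SimpleGraph X') (ht' : X' → ℕ)
    (r : ℕ) (p : List (X × X' × ℕ)) : Prop :=
  (∀ a ∈ p, ∀ b ∈ p, ∀ d : ℕ, d + a.2.2 + b.2.2 ≤ 2 ^ r →
    (P.edist a.1 b.1 = (d : ℕ∞) ↔ P'.edist a.2.1 b.2.1 = (d : ℕ∞))) ∧
  (∀ a ∈ p, min (ht a.1) (2 ^ r) = min (ht' a.2.1) (2 ^ r))

/-- The extension property of the plain game. -/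
def StHom : Prop :=
  ∀ (k : ℕ), 10 ≤ k → ∀ {X X' : Type} (P : SimpleGraph X) (ht : X → ℕ) (P' : SimpleGraph X')
    (ht' : X' → ℕ), PL P ht k → PL P' ht' k → ∀ (r : ℕ), r + 1 ≤ k - 3 →
    ∀ (p : List (X × X' × ℕ)), p.length ≤ k → Hom P ht P' ht' (r + 1) p →
    ∀ x, ∃ x', Hom P ht P' ht' r ((x, x', 0) :: p)

/-- Two pairs of plain vertices look the same. -/
def PP {K V V' : Type} (k : ℕ) (S : SimpleGraph V) (lab : V → Finset K)
    (S' : SimpleGraph V') (lab' : V' → Finset K) (x y : BrV K V (HH k)) (x' y' : BrV K V' (HH k)) :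
    Prop :=
  x.1.2 = x'.1.2 ∧ y.1.2 = y'.1.2 ∧ lab x.1.1 = lab' x'.1.1 ∧
  PairEq (NN k) (EE k) S lab S' lab' x.1.1 y.1.1 x'.1.1 y'.1.1

/-- The third mark on the plain level. -/
def StExt3 : Prop :=
  ∀ (k : ℕ), 40 ≤ k → ∀ (K V V' : Type) [Fintype K] [DecidableEq K] (S : SimpleGraph V)
    (lab : V → Finset K) (S' : SimpleGraph V') (lab' : V' → Finset K),
    k + 8 ≤ Fintype.card K → HypS k S → HypS k S' →
    ∀ (x1 x2 : BrV K V (HH k)) (x1' x2' : BrV K V' (HH k)),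
    PP k S lab S' lab' x1 x2 x1' x2' →
    (∀ x3, ∃ x3', (∀ d : ℕ, d ≤ NN k →
        ((brG K S (HH k)).edist x1 x3 = (d : ℕ∞) ↔ (brG K S' (HH k)).edist x1' x3' = (d : ℕ∞)) ∧
        ((brG K S (HH k)).edist x2 x3 = (d : ℕ∞) ↔ (brG K S' (HH k)).edist x2' x3' = (d : ℕ∞))) ∧
        min (brH x3) (NN k) = min (brH x3') (NN k)) ∧
    (∀ x3 κ, κ ∈ brL lab x3 → x3 ≠ x1 → x3 ≠ x2 → ∃ x3', κ ∈ brL lab' x3' ∧
        (∀ d : ℕ, d ≤ EE k →
        ((brG K S (HH k)).edist x1 x3 = (d : ℕ∞) ↔ (brG K S' (HH k)).edist x1' x3' = (d : ℕ∞)) ∧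
        ((brG K S (HH k)).edist x2 x3 = (d : ℕ∞) ↔ (brG K S' (HH k)).edist x2' x3' = (d : ℕ∞))) ∧
        min (brH x3) (NN k) = min (brH x3') (NN k))

section Full

variable {K V V' : Type} {k : ℕ} {C : KCode k K} {lab : V → Finset K}

/-- Owner of a vertex of the full graph. -/
def own (u : FullV k C lab) : BrV K V (HH k) := u.1.1

/-- Name of a vertex of the full graph. -/
def fb (u : FullV k C lab) : Fb K := u.1.2

end Full

/-- The positions of the full game after the third round. `q` is the list of the later marks,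
`fl` says that the third mark is a critical leaf whose owner carries no other mark. -/
structure Inv {K V V' : Type} (k : ℕ) (C : KCode k K) (S : SimpleGraph V) (lab : V → Finset K)
    (S' : SimpleGraph V') (lab' : V' → Finset K) (r : ℕ) (fl : Bool)
    (m1 m2 m3 : FullV k C lab × FullV k C lab') (q : List (FullV k C lab × FullV k C lab')) :
    Prop where
  len : q.length + 3 + r ≤ k
  same : ∀ a ∈ q ++ [m3, m2, m1], Fb.same (fb a.1) (fb a.2)
  own : ∀ a ∈ q ++ [m3, m2, m1], ∀ b ∈ q ++ [m3, m2, m1], (LD.own a.1 = LD.own b.1 ↔ LD.own a.2 = LD.own b.2)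
  gid : ∀ a ∈ q ++ [m3, m2, m1], ∀ b ∈ q ++ [m3, m2, m1], LD.own a.1 = LD.own b.1 →
    ((fb a.1).gid = (fb b.1).gid ↔ (fb a.2).gid = (fb b.2).gid)
  eq : ∀ a ∈ q ++ [m3, m2, m1], ∀ b ∈ q ++ [m3, m2, m1], (a.1 = b.1 ↔ a.2 = b.2)
  dist : ∀ a ∈ q ++ [m3, m2, m1], ∀ b ∈ q ++ [m3, m2, m1], ∀ d : ℕ,
    ∀ oa : ℕ, (oa = 4 ∨ ¬ (fl = true ∧ LD.own a.1 = LD.own m3.1)) →
    ∀ ob : ℕ, (ob = 4 ∨ ¬ (fl = true ∧ LD.own b.1 = LD.own m3.1)) → d + oa + ob ≤ 2 ^ r →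
    ((brG K S (HH k)).edist (LD.own a.1) (LD.own b.1) = (d : ℕ∞) ↔
      (brG K S' (HH k)).edist (LD.own a.2) (LD.own b.2) = (d : ℕ∞))
  ht : ∀ a ∈ q ++ [m3, m2, m1],
    min (brH (LD.own a.1)) (2 ^ r) = min (brH (LD.own a.2)) (2 ^ r)
  ex : ∀ a ∈ q ++ [m3, m2, m1], (LD.own a.1 = LD.own m1.1 ∨ LD.own a.1 = LD.own m2.1) →
    fb a.1 = fb a.2 ∧ brL lab (LD.own a.1) = brL lab' (LD.own a.2)
  m3l : ∀ κ c i, fb m3.1 = Fb.lf κ c i → ∀ c' i', fb m3.2 = Fb.lf κ c' i' →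
    ((c = true ∧ κ ∈ brL lab (LD.own m3.1)) ↔ (c' = true ∧ κ ∈ brL lab' (LD.own m3.2)))
  fl : fl = true → (∃ κ c i, fb m3.1 = Fb.lf κ c i) ∧
    (∀ a ∈ q ++ [m3, m2, m1], LD.own a.1 = LD.own m3.1 → a = m3) ∧
    LD.own m3.1 ≠ LD.own m1.1 ∧ LD.own m3.1 ≠ LD.own m2.1

/-- `Inv` is symmetric. -/
def StInvSym : Prop :=
  ∀ {K V V' : Type} (k : ℕ) (C : KCode k K) (S : SimpleGraph V) (lab : V → Finset K)
    (S' : SimpleGraph V') (lab' : V' → Finset K) (r : ℕ) (fl : Bool)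
    (m1 m2 m3 : FullV k C lab × FullV k C lab') (q : List (FullV k C lab × FullV k C lab')),
    Inv k C S lab S' lab' r fl m1 m2 m3 q →
    Inv k C S' lab' S lab r fl m1.swap m2.swap m3.swap (q.map Prod.swap)

/-- One round, while at least two rounds remain afterwards. -/
def StInvStep : Prop :=
  ∀ {K V V' : Type} [Fintype K] [DecidableEq K] (k : ℕ), 40 ≤ k → k + 8 ≤ Fintype.card K →
    ∀ (C : KCode k K) (S : SimpleGraph V) (lab : V → Finset K)
    (S' : SimpleGraph V') (lab' : V' → Finset K), HypS k S → HypS k S' → ∀ (r : ℕ), 2 ≤ r →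
    ∀ (fl : Bool) (m1 m2 m3 : FullV k C lab × FullV k C lab')
    (q : List (FullV k C lab × FullV k C lab')),
    Inv k C S lab S' lab' (r + 1) fl m1 m2 m3 q →
    ∀ v, ∃ v' fl', Inv k C S lab S' lab' r fl' m1 m2 m3 ((v, v') :: q)

/-- Common neighbour. -/
def CN {V : Type} (G : SimpleGraph V) (u v : V) : Prop := ∃ w, G.Adj u w ∧ G.Adj v w

/-- Degree at least `n`. -/
def DegGe {V : Type} (G : SimpleGraph V) (n : ℕ) (v : V) : Prop :=
  ∃ s : Finset V, s.card = n ∧ ∀ w ∈ s, G.Adj v w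

/-- What is needed for the last round. -/
structure C1 {V W : Type} (G : SimpleGraph V) (H : SimpleGraph W) (p : List (V × W)) : Prop where
  eq : ∀ a ∈ p, ∀ b ∈ p, (a.1 = b.1 ↔ a.2 = b.2)
  adj : ∀ a ∈ p, ∀ b ∈ p, (G.Adj a.1 b.1 ↔ H.Adj a.2 b.2)
  cn : ∀ a ∈ p, ∀ b ∈ p, a.1 ≠ b.1 → (CN G a.1 b.1 ↔ CN H a.2 b.2)
  deg : ∀ a ∈ p, ∀ t : Finset V,
    (∀ x ∈ t, x ≠ a.1 ∧ (∃ b ∈ p, b.1 = x) ∧ (G.Adj a.1 x ∨ CN G a.1 x)) →
    ∀ n ≤ t.card + 1, (DegGe G n a.1 ↔ DegGe H n a.2)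

/-- There is always a vertex away from `k` given ones. -/
def Free {V : Type} (G : SimpleGraph V) (k : ℕ) : Prop :=
  ∀ F : Finset V, F.card ≤ k → ∃ v, v ∉ F ∧ ∀ x ∈ F, ¬ G.Adj x v

/-- The last round. -/
def StEF1 : Prop :=
  ∀ {V W : Type} (G : SimpleGraph V) (H : SimpleGraph W) (k : ℕ), Bip G → Bip H →
    NoCyc G 6 → NoCyc H 6 → Free G k → Free H k → ∀ p : List (V × W), p.length ≤ k →
    C1 G H p → EF G H 1 p

/-- The full graph: bipartite, no cycles of length at most 6, free vertices. -/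
def StFull : Prop :=
  ∀ {K V : Type} [Fintype K] [DecidableEq K] (k : ℕ), 40 ≤ k → k + 8 ≤ Fintype.card K →
    ∀ (C : KCode k K) (S : SimpleGraph V) (lab : V → Finset K), HypS k S →
    Bip (full k C S lab) ∧ NoCyc (full k C S lab) 6 ∧ Free (full k C S lab) k

/-- The last but one round. -/
def StInvEnd : Prop :=
  ∀ {K V V' : Type} [Fintype K] [DecidableEq K] (k : ℕ), 40 ≤ k → k + 8 ≤ Fintype.card K →
    ∀ (C : KCode k K) (S : SimpleGraph V) (lab : V → Finset K)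
    (S' : SimpleGraph V') (lab' : V' → Finset K), HypS k S → HypS k S' →
    ∀ (fl : Bool) (m1 m2 m3 : FullV k C lab × FullV k C lab')
    (q : List (FullV k C lab × FullV k C lab')),
    Inv k C S lab S' lab' 2 fl m1 m2 m3 q →
    ∀ v, ∃ v', C1 (full k C S lab) (full k C S' lab') ((v, v') :: (q ++ [m3, m2, m1]))

/-- Positions after one round. -/
def J1 {K V V' : Type} {k : ℕ} {C : KCode k K} (S : SimpleGraph V) {lab : V → Finset K}
    (S' : SimpleGraph V') {lab' : V' → Finset K} (u : FullV k C lab) (u' : FullV k C lab') : Prop :=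
  DR (NN k) (EE k) S lab S' lab' (own u).1.1 (own u').1.1 ∧ (own u).1.2 = (own u').1.2 ∧
    fb u = fb u'

/-- Positions after two rounds. -/
def J2 {K V V' : Type} {k : ℕ} {C : KCode k K} (S : SimpleGraph V) {lab : V → Finset K}
    (S' : SimpleGraph V') {lab' : V' → Finset K} (u v : FullV k C lab) (u' v' : FullV k C lab') :
    Prop :=
  PP k S lab S' lab' (own u) (own v) (own u') (own v') ∧ fb u = fb u' ∧ fb v = fb v'

def StJ12 : Prop :=
  ∀ {K V V' : Type} [Fintype K] [DecidableEq K] (k : ℕ)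
    (C : KCode k K) (S : SimpleGraph V) (lab : V → Finset K)
    (S' : SimpleGraph V') (lab' : V' → Finset K), DEq (NN k) (EE k) S lab S' lab' →
    (∀ u : FullV k C lab, ∃ u' : FullV k C lab', J1 S S' u u') ∧
    (∀ u' : FullV k C lab', ∃ u : FullV k C lab, J1 S S' u u') ∧
    (∀ (u : FullV k C lab) (u' : FullV k C lab'), J1 S S' u u' →
      (∀ v, ∃ v', J2 S S' u v u' v') ∧ (∀ v', ∃ v, J2 S S' u v u' v')) ∧
    (∀ (u v : FullV k C lab) (u' v' : FullV k C lab'), J2 S S' u v u' v' → J2 S' S u' v' u v)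

def StJ3 : Prop :=
  ∀ {K V V' : Type} [Fintype K] [DecidableEq K] (k : ℕ), 40 ≤ k → k + 8 ≤ Fintype.card K →
    ∀ (C : KCode k K) (S : SimpleGraph V) (lab : V → Finset K)
    (S' : SimpleGraph V') (lab' : V' → Finset K), HypS k S → HypS k S' →
    ∀ (u v : FullV k C lab) (u' v' : FullV k C lab'), J2 S S' u v u' v' →
    ∀ w, ∃ w' fl, Inv k C S lab S' lab' (k - 3) fl (u, u') (v, v') (w, w') []

/-- Part A1. -/
def StA1 : Prop :=
  ∀ {K V V' : Type} [Fintype K] [DecidableEq K] (k : ℕ), 40 ≤ k → k + 8 ≤ Fintype.card K →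
    ∀ (C : KCode k K) (S : SimpleGraph V) (lab : V → Finset K)
    (S' : SimpleGraph V') (lab' : V' → Finset K), HypS k S → HypS k S' →
    DEq (NN k) (EE k) S lab S' lab' → EF (full k C S lab) (full k C S' lab') k []

end Pool.Agent.Helper2.LD
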