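import Pool.Agent.Helper2.LD.PartB
import Pool.Agent.Helper2.LD.PartA
import Pool.Agent.Helper2.LD.Final
import Pool.Agent.Helper2.LD.P_Tsee
import Pool.Agent.Helper20.LD.P_Rg
import Pool.Agent.Helper98.LD.P_Face
import Pool.Agent.Helper98.LD.P_Cls
import Pool.Agent.Helper74.LD.P_FL
import Pool.Agent.Helper74.LD.P_Gch
import Pool.Agent.Helper9.LD.P_Dich
import Pool.Agent.Helper9.LD.P_B2K
import Pool.Agent.Helper9.LD.P_B2
import Pool.Agent.Helper48.LD.P_Ntru
import Pool.Agent.Helper48.LD.P_Nfan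
import Pool.Agent.Helper48.LD.P_Ngho
import Pool.Agent.Helper84.LD.P_FTree
import Pool.Agent.Helper84.LD.P_FIso
import Pool.Agent.Helper84.LD.P_FFin
import Pool.Agent.Helper84.LD.P_TFin
import Pool.Agent.Helper84.LD.P_KC
import Pool.Agent.Helper84.LD.P_Ch
import Pool.Agent.Helper84.LD.P_Kd
import Pool.Agent.Helper84.LD.P_Size
import Pool.Agent.Helper32.LD.Mac

set_option autoImplicit false

namespace Pool.Agent.Helper2.LD

theorem hNtru : StNtru := Pool.Agent.Helper48.LD.pNtru hPb hTok hTdist hTpos hGdist hGpos hMt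
theorem hNfan : StNfan := Pool.Agent.Helper48.LD.pNfan hPb hTok hTdist hTpos hGdist hGpos hMt
theorem hNgho : StNgho := Pool.Agent.Helper48.LD.pNgho hPb hTok hTdist hTpos hGdist hGpos hMt
theorem partB1 : StB1 := partB1_of hNtru hNfan hNgho

theorem hRg : StRg := Pool.Agent.Helper20.LD.pRg Pool.Agent.Helper20.LD.pRig hTinj hTdist hTtree
theorem hTsee : StTsee := pTsee hTok hPb hTdist hTinj
theorem hMinj : StMinj := pMinj hTinj hTsee
theorem hCls : StCls := Pool.Agent.Helper98.LD.pCls hTok hTdist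
theorem hFace : StFace := Pool.Agent.Helper98.LD.pFace hTok hPb hTdist
theorem hGlue1 : StGlue1 := Pool.Agent.Helper74.LD.pGlue1 hRg hTsee hCls hPb hTdist hTpos
theorem hGlue2 : StGlue2 := Pool.Agent.Helper12.LD.pGlue2 hRg hTsee hMinj hCls hFace hTdist
theorem hInner : StInner :=
  Pool.Agent.Helper74.LD.pInner hRg hTsee hMinj hCls hGlue1 hGlue2 hTinj hPb hTok hTdist
theorem hRoot : StRoot := Pool.Agent.Helper74.LD.pRoot hRg hTsee hMinj hCls hPb hTdist
theorem hPort : StPort :=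
  Pool.Agent.Helper65.LD.pPort hTok hPb hRg hMinj hCls hInner hRoot hGlue1
theorem hTch : StTch := Pool.Agent.Helper14.LD.pTch hRg hMinj hCls hPort
theorem hGch : StGch := Pool.Agent.Helper74.LD.pGch hRg hMinj hCls hPb
theorem hFL : StFL := Pool.Agent.Helper74.LD.pFL hRg hTsee hMinj hCls hInner hPort hFace hPb
theorem hClA : StClA :=
  Pool.Agent.Helper9.LD.pClA hRg hTsee hMinj hCls hPort hGch hFace hFL hTdist
theorem hClB : StClB :=
  Pool.Agent.Helper9.LD.pClB hRg hTsee hMinj hCls hPort hGch hFace hTdist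
theorem hDich : StDich := Pool.Agent.Helper9.LD.pDich hFace hMinj hPort hClA hClB
theorem hB2K : StB2K := Pool.Agent.Helper9.LD.pB2K hFace hMinj hRoot hClA hDich
theorem hB2I : StB2I :=
  Pool.Agent.Helper51.LD.pB2I hRg hTinj hTsee hMinj hCls hInner hPort hGch hTch hTtree hTok
    hTdist hTpos
theorem partB2 : StB2 := Pool.Agent.Helper9.LD.pB2 hMinj hDich hB2K hB2I hRoot

theorem main_all :
    ¬ ∃ f : ℕ → List (ℕ × ℕ) → ℕ, Computable₂ f ∧ Pool.Agent.Helper84.LD.IsDepth f :=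
  final_of aEFb partA1 partA2a partA2b partB1 partB2 hHyp hTtree Pool.Agent.Helper32.LD.pMac
    Pool.Agent.Helper84.LD.pFTree Pool.Agent.Helper84.LD.pFIso Pool.Agent.Helper84.LD.pFFin
    (Pool.Agent.Helper84.LD.pTFin hTok hTinj) Pool.Agent.Helper84.LD.pKC
    Pool.Agent.Helper84.LD.pCh Pool.Agent.Helper84.LD.pKd Pool.Agent.Helper84.LD.pSize

end Pool.Agent.Helper2.LD
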