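import Mathlib

/-!
# LD project (MP_e47d5b_lc): Ehrenfeucht-Fraisse games, gadgets, brushes, skeletons
-/

set_option autoImplicit false

namespace Pool.Agent.Helper2.LD

/-! ## Games -/

/-- A list of pairs is a partial isomorphism. -/
def PI {V W : Type} (G : SimpleGraph V) (H : SimpleGraph W) (p : List (V × W)) : Prop :=
  ∀ x ∈ p, ∀ y ∈ p, (x.1 = y.1 ↔ x.2 = y.2) ∧ (G.Adj x.1 y.1 ↔ H.Adj x.2 y.2)

/-- Duplicator wins the `r`-round game from the position `p`. -/
def EF {V W : Type} (G : SimpleGraph V) (H : SimpleGraph W) : ℕ → List (V × W) → Prop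
  | 0, p => PI G H p
  | (r + 1), p => PI G H p ∧ (∀ v, ∃ w, EF G H r ((v, w) :: p)) ∧ (∀ w, ∃ v, EF G H r ((v, w) :: p))

/-! ## Parameters (all functions of the number of rounds `k`) -/

def NN (k : ℕ) : ℕ := 2 ^ (k - 3)
def EE (k : ℕ) : ℕ := NN k - 4
def MM (k : ℕ) : ℕ := k - 4
def HH (k : ℕ) : ℕ := 2 * NN k
def SS (k : ℕ) : ℕ := 2 ^ (k - 30)

/-- Codes of kinds: nonempty sets of lengths between `5` and `SS k`. -/
structure KCode (k : ℕ) (K : Type) where
  code : K → Finset ℕ
  inj : Function.Injective code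
  ne : ∀ κ, (code κ).Nonempty
  rng : ∀ κ, ∀ i ∈ code κ, 5 ≤ i ∧ i ≤ SS k

/-! ## Gadgets: the names of the vertices hanging at a plain vertex -/

inductive Fb (K : Type) : Type
  | root : Fb K
  | a1 (κ : K) (c : Bool) : Fb K
  | a2 (κ : K) (c : Bool) : Fb K
  | r (κ : K) (c : Bool) : Fb K
  | lf (κ : K) (c : Bool) (i : ℕ) : Fb K
  | mk (κ : K) (c : Bool) (i j : ℕ) : Fb K

namespace Fb

variable {K : Type}

/-- Which names are used at a plain vertex with label `L`. Copy `true` of the gadget of kind `κ`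
has `m + 1` leaves if `κ ∈ L`; all other gadgets have `m` leaves. -/
def ok (m : ℕ) (code : K → Finset ℕ) (L : Finset K) : Fb K → Prop
  | root => True
  | a1 _ _ => True
  | a2 _ _ => True
  | r _ _ => True
  | lf κ c i => i < m ∨ (i = m ∧ c = true ∧ κ ∈ L)
  | mk κ _ i j => i ∈ code κ ∧ 1 ≤ j ∧ j ≤ i

/-- Parent in the gadget tree (the root is its own parent). -/
def par : Fb K → Fb K
  | root => root
  | a1 _ _ => root
  | a2 κ c => a1 κ c
  | r κ c => a2 κ c
  | lf κ c _ => r κ c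
  | mk κ c i j => if j ≤ 1 then a1 κ c else mk κ c i (j - 1)

/-- Adjacency of names. -/
def adj (f g : Fb K) : Prop := (f ≠ root ∧ g = par f) ∨ (g ≠ root ∧ f = par g)

/-- The gadget (kind and copy) a name belongs to. -/
def gid : Fb K → Option (K × Bool)
  | root => none
  | a1 κ c => some (κ, c)
  | a2 κ c => some (κ, c)
  | r κ c => some (κ, c)
  | lf κ c _ => some (κ, c)
  | mk κ c _ _ => some (κ, c)

/-- Same position up to the copy of the gadget and the index of a leaf. -/
def same : Fb K → Fb K → Prop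
  | root, root => True
  | a1 κ _, a1 κ' _ => κ = κ'
  | a2 κ _, a2 κ' _ => κ = κ'
  | r κ _, r κ' _ => κ = κ'
  | lf κ _ _, lf κ' _ _ => κ = κ'
  | mk κ _ i j, mk κ' _ i' j' => κ = κ' ∧ i = i' ∧ j = j'
  | _, _ => False

end Fb

/-- Vertices of the graph obtained from a plain graph on `X` with labels `L`
by hanging the gadgets. -/
def EncV {X K : Type} (m : ℕ) (code : K → Finset ℕ) (L : X → Finset K) : Type :=
  {p : X × Fb K // Fb.ok m code (L p.1) p.2}

/-- The encoded graph. -/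
def encG {X K : Type} (P : SimpleGraph X) (m : ℕ) (code : K → Finset ℕ) (L : X → Finset K) :
    SimpleGraph (EncV m code L) where
  Adj u v := (P.Adj u.1.1 v.1.1 ∧ u.1.2 = Fb.root ∧ v.1.2 = Fb.root) ∨
    (u.1.1 = v.1.1 ∧ Fb.adj u.1.2 v.1.2)
  symm := by
    refine ⟨?_⟩
    rintro u v (⟨h1, h2, h3⟩ | ⟨h1, h2⟩)
    · exact Or.inl ⟨h1.symm, h3, h2⟩
    · refine Or.inr ⟨h1.symm, ?_⟩
      rcases h2 with h2 | h2
      · exact Or.inr h2
      · exact Or.inl h2
  loopless := by
    refine ⟨?_⟩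
    rintro ⟨⟨x, f⟩, hf⟩ (⟨h1, _, _⟩ | ⟨_, h2⟩)
    · exact P.loopless.irrefl _ h1
    · have key : f ≠ Fb.root → f ≠ Fb.par f := by
        intro h0 h1
        cases f with
        | root => exact h0 rfl
        | a1 κ c => simp [Fb.par] at h1
        | a2 κ c => simp [Fb.par] at h1
        | r κ c => simp [Fb.par] at h1
        | lf κ c i => simp [Fb.par] at h1
        | mk κ c i j =>
          simp only [Fb.par] at h1
          split_ifs at h1 with h2
          simp at h1
          omega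
      rcases h2 with ⟨h3, h4⟩ | ⟨h3, h4⟩
      · exact key h3 h4
      · exact key h3 h4

/-! ## Brushes -/

/-- Admissible brush lists (the head is the deepest entry); the entry at depth `d` is a set of
kinds of size `3 + d % 3`. -/
def okl {K : Type} : List (Finset K) → Prop
  | [] => True
  | (c :: l) => c.card = 3 + (l.length + 1) % 3 ∧ okl l

/-- Plain vertices: a hub `s` and a brush list of length at most `h`. -/
def BrV (K V : Type) (h : ℕ) : Type :=
  {p : V × List (Finset K) // p.2.length ≤ h ∧ okl p.2}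

/-- The plain graph of a skeleton. -/
def brG {V : Type} (K : Type) (S : SimpleGraph V) (h : ℕ) : SimpleGraph (BrV K V h) where
  Adj u v := (u.1.2 = [] ∧ v.1.2 = [] ∧ S.Adj u.1.1 v.1.1) ∨
    (u.1.1 = v.1.1 ∧ ((∃ c, v.1.2 = c :: u.1.2) ∨ (∃ c, u.1.2 = c :: v.1.2)))
  symm := by
    refine ⟨?_⟩
    rintro u v (⟨h1, h2, h3⟩ | ⟨h1, h2⟩)
    · exact Or.inl ⟨h2, h1, h3.symm⟩
    · exact Or.inr ⟨h1.symm, h2.symm⟩
  loopless := by
    refine ⟨?_⟩
    rintro u (⟨_, _, h3⟩ | ⟨_, ⟨c, h⟩ | ⟨c, h⟩⟩)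
    · exact S.loopless.irrefl _ h3
    · simp at h
    · simp at h

/-- Label of a plain vertex. -/
def brL {K V : Type} {h : ℕ} (lab : V → Finset K) (u : BrV K V h) : Finset K :=
  match u.1.2 with
  | [] => lab u.1.1
  | (c :: _) => c

/-- Height of a plain vertex. -/
def brH {K V : Type} {h : ℕ} (u : BrV K V h) : ℕ := h - u.1.2.length

/-- The vertices of the full graph of a skeleton. -/
def FullV {K V : Type} (k : ℕ) (C : KCode k K) (lab : V → Finset K) : Type :=
  EncV (X := BrV K V (HH k)) (MM k) C.code (brL lab)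

/-- The full graph of a skeleton. -/
def full {K V : Type} (k : ℕ) (C : KCode k K) (S : SimpleGraph V) (lab : V → Finset K) :
    SimpleGraph (FullV k C lab) :=
  encG (brG K S (HH k)) (MM k) C.code (brL lab)

/-! ## Data of a hub -/

/-- Kind `κ` is seen at position `p` of a geodesic from `s` to `t`, inside the window. -/
def Win {K V : Type} (e : ℕ) (S : SimpleGraph V) (lab : V → Finset K) (s t : V) (p : ℕ) (κ : K) :
    Prop :=
  ∃ q : ℕ, p ≤ e ∧ q ≤ e ∧ S.edist s t = ((p + q : ℕ) : ℕ∞) ∧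
    ∃ z, S.edist s z = (p : ℕ∞) ∧ S.edist z t = (q : ℕ∞) ∧ κ ∈ lab z

/-- The pairs `(s,t)` and `(s',t')` look the same. -/
def PairEq {K V V' : Type} (N e : ℕ) (S : SimpleGraph V) (lab : V → Finset K)
    (S' : SimpleGraph V') (lab' : V' → Finset K) (s t : V) (s' t' : V') : Prop :=
  lab t = lab' t' ∧ (s = t ↔ s' = t') ∧
  (∀ d : ℕ, d ≤ 2 * N → (S.edist s t = (d : ℕ∞) ↔ S'.edist s' t' = (d : ℕ∞))) ∧
  (∀ p κ, Win e S lab s t p κ ↔ Win e S' lab' s' t' p κ)

/-- `s` and `s'` have the same data. -/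
def DR {K V V' : Type} (N e : ℕ) (S : SimpleGraph V) (lab : V → Finset K)
    (S' : SimpleGraph V') (lab' : V' → Finset K) (s : V) (s' : V') : Prop :=
  lab s = lab' s' ∧ (∀ t, ∃ t', PairEq N e S lab S' lab' s t s' t') ∧
  (∀ t', ∃ t, PairEq N e S lab S' lab' s t s' t')

/-- The two skeletons have the same sets of data. -/
def DEq {K V V' : Type} (N e : ℕ) (S : SimpleGraph V) (lab : V → Finset K)
    (S' : SimpleGraph V') (lab' : V' → Finset K) : Prop :=
  (∀ s, ∃ s', DR N e S lab S' lab' s s') ∧ (∀ s', ∃ s, DR N e S lab S' lab' s s')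

/-- Bipartite. -/
def Bip {V : Type} (G : SimpleGraph V) : Prop :=
  ∃ col : V → Bool, ∀ u v, G.Adj u v → col u ≠ col v

/-- No cycles of length at most `L`. -/
def NoCyc {V : Type} (G : SimpleGraph V) (L : ℕ) : Prop :=
  ∀ (v : V) (c : G.Walk v v), c.IsCycle → L < c.length

/-- More than `n` vertices. -/
def Many (V : Type) (n : ℕ) : Prop := ∀ F : Finset V, F.card ≤ n → ∃ v, v ∉ F

end Pool.Agent.Helper2.LD
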