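import Pool.Agent.Helper2.LD.St3

/-!
# LD project, part B: kinds, the graph `G'`, the tree skeleton `T`
-/

set_option autoImplicit false

namespace Pool.Agent.Helper2.LD

/-- The kinds used in labels. -/
inductive Kd (N : ℕ) (Λ B FB : Type) : Type
  | kap (l : Λ)
  | gam (b : B) (f : FB)
  | pi (j : Fin (2 * N + 1))
  | del (l : Λ)
  | ty (l : Λ) (d : Fin (2 * N))
  | fg (i : Fin 4)
  deriving DecidableEq, Fintype

/-- The natural hubs: core vertices, ghosts at corners, trunks and fans at vertices. -/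
inductive GH (V Q K : Type) : Type
  | core (x : V)
  | gho (q : Q) (j : ℕ)
  | tru (x : V) (j : ℕ)
  | fan (x : V) (l : Finset K)

/-- The kind of a position. -/
def piK (N : ℕ) {Λ B FB : Type} (j : ℕ) : Kd N Λ B FB :=
  Kd.pi ⟨j % (2 * N + 1), Nat.mod_lt _ (Nat.succ_pos _)⟩

section

variable {V Q Λ B FB : Type}

/-- The core vertex to which a natural hub belongs. -/
def GH.own {K : Type} (c : Core V Q Λ B FB) : GH V Q K → V
  | .core x => x
  | .gho q _ => c.ow q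
  | .tru x _ => x
  | .fan x _ => x

/-- The distance to the core vertex. -/
def GH.ht {K : Type} (N : ℕ) : GH V Q K → ℕ
  | .core _ => 0
  | .gho _ j => j
  | .tru _ j => j
  | .fan _ _ => 2 * N

/-- The neighbour in the direction of the core vertex. -/
def GH.dp {K : Type} (N : ℕ) (c : Core V Q Λ B FB) : GH V Q K → GH V Q K
  | .core x => .core x
  | .gho q j => if j ≤ 1 then .core (c.ow q) else .gho q (j - 1)
  | .tru x j => if j ≤ 1 then .core x else .tru x (j - 1)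
  | .fan x _ => .tru x (2 * N - 1)

open Classical in
/-- Labels of natural hubs. -/
noncomputable def gl (N e : ℕ) (c : Core V Q Λ B FB) :
    GH V Q (Kd N Λ B FB) → Finset (Kd N Λ B FB)
  | .core x => {Kd.kap (c.lb x)}
  | .gho q j => if j = e then
      {Kd.kap (c.lb (c.ow ((c.nx^[e]) q))), Kd.kap (c.lb (c.ow ((c.nx^[3 * e]) q)))}
      else {Kd.gam (c.bs (c.lb (c.ow q))) (c.fl q), piK N j}
  | .tru x j => {Kd.del (c.lb x), piK N j}
  | .fan _ l => l

/-- The labels of core vertices, ghosts and trunks. -/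
def NLb (N e : ℕ) (c : Core V Q Λ B FB) : Set (Finset (Kd N Λ B FB)) :=
  {l | (∃ x, l = gl N e c (.core x)) ∨ (∃ q j, 1 ≤ j ∧ j ≤ 2 * N ∧ l = gl N e c (.gho q j)) ∨
    (∃ x j, 1 ≤ j ∧ j < 2 * N ∧ l = gl N e c (.tru x j))}

/-- Which natural hubs exist. -/
def okG (N e : ℕ) (c : Core V Q Λ B FB) : GH V Q (Kd N Λ B FB) → Prop
  | .core _ => True
  | .gho _ j => 1 ≤ j ∧ j ≤ 2 * N
  | .tru _ j => 1 ≤ j ∧ j < 2 * N
  | .fan x l => l ∈ NLb N e c ∧ ∀ j, 1 ≤ j → j < 2 * N → l ≠ gl N e c (.tru x j)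

/-- The hubs of `G'`. -/
def GV (N e : ℕ) (c : Core V Q Λ B FB) : Type := {h : GH V Q (Kd N Λ B FB) // okG N e c h}

/-- The graph `G'`. -/
def GG (N e : ℕ) (c : Core V Q Λ B FB) : SimpleGraph (GV N e c) where
  Adj h h' := h ≠ h' ∧ ((∃ x y, h.1 = .core x ∧ h'.1 = .core y ∧ c.G.Adj x y) ∨
    (h.1.ht N ≠ 0 ∧ h'.1 = h.1.dp N c) ∨ (h'.1.ht N ≠ 0 ∧ h.1 = h'.1.dp N c))
  symm := by
    refine ⟨?_⟩
    rintro h h' ⟨h0, ⟨x, y, h1, h2, h3⟩ | h1 | h1⟩
    · exact ⟨h0.symm, Or.inl ⟨y, x, h2, h1, h3.symm⟩⟩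
    · exact ⟨h0.symm, Or.inr (Or.inr h1)⟩
    · exact ⟨h0.symm, Or.inr (Or.inl h1)⟩
  loopless := ⟨fun h h1 => h1.1 rfl⟩

/-- Labels of `G'`. -/
noncomputable def gL (N e : ℕ) (c : Core V Q Λ B FB) (h : GV N e c) : Finset (Kd N Λ B FB) :=
  gl N e c h.1

/-- The type of a core vertex: the labels seen at distances less than `2 * N`. -/
def TS (N : ℕ) (c : Core V Q Λ B FB) (u : V) : Set (Λ × ℕ) :=
  {p | p.2 < 2 * N ∧ ∃ x, c.lb x = p.1 ∧ c.G.dist u x = p.2}

/-- Choices: representatives of types, predecessors, corners. -/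
structure Ch (V Q : Type) where
  rp : V → V
  pr : V → V → V
  q0 : V → Q

structure ChAx (N : ℕ) (c : Core V Q Λ B FB) (s : Ch V Q) : Prop where
  rp1 : ∀ u, TS N c (s.rp u) = TS N c u
  rp2 : ∀ u u', TS N c u = TS N c u' → s.rp u = s.rp u'
  pr : ∀ u z, u ≠ z → c.G.Adj z (s.pr u z) ∧ c.G.dist u (s.pr u z) + 1 = c.G.dist u z
  q0 : ∀ u, c.ow (s.q0 u) = u

/-- Level of a natural hub with respect to `u`. -/
noncomputable def lev {K : Type} (N : ℕ) (c : Core V Q Λ B FB) (u : V) (h : GH V Q K) : ℕ :=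
  c.G.dist u (h.own c) + h.ht N

open Classical in
/-- Parent in the piece around `u` (`b = true`: the antipodes hang at the ghosts). -/
noncomputable def pb {K : Type} (N e : ℕ) (c : Core V Q Λ B FB) (s : Ch V Q) (b : Bool) (u : V) :
    GH V Q K → GH V Q K
  | .core z => if h : b = true ∧ ∃ q, c.ow q = u ∧ c.ow ((c.nx^[2 * e]) q) = z then
      .gho h.2.choose (2 * e - 1) else .core (s.pr u z)
  | .gho q j => GH.dp N c (.gho q j)
  | .tru x j => GH.dp N c (.tru x j)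
  | .fan x l => GH.dp N c (.fan x l)

/-- The hubs of the tree skeleton: natural hubs and caps of the pieces, connecting paths, root. -/
inductive TH (V Q K : Type) : Type
  | nat (b : Bool) (u : V) (h : GH V Q K)
  | cap (b : Bool) (u : V) (h : GH V Q K)
  | pth (b : Bool) (u : V) (j : ℕ)
  | rt

/-- The depth of the piece `b`: `2 * N` for `true`, `2 * N - 1` for `false`. -/
def dep (N : ℕ) (b : Bool) : ℕ := if b = true then 2 * N else 2 * N - 1

/-- The natural hub whose cap is connected to the root. -/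
def cc {K : Type} (N : ℕ) (s : Ch V Q) (b : Bool) (u : V) : GH V Q K :=
  if b = true then .gho (s.q0 u) (2 * N) else .tru u (2 * N - 1)

/-- Which hubs of the tree skeleton exist. -/
def okT (N e : ℕ) (c : Core V Q Λ B FB) (s : Ch V Q) : TH V Q (Kd N Λ B FB) → Prop
  | .nat b u h => s.rp u = u ∧ okG N e c h ∧
      (lev N c u h ≤ dep N b ∨ (b = false ∧ ∃ q, c.ow q = u ∧ h = .gho q (2 * N)))
  | .cap b u h => s.rp u = u ∧ okG N e c h ∧ lev N c u h = dep N b ∧
      (b = true → ∀ l, h ≠ .fan u l) ∧ (b = false → ∀ q j, c.ow q = u → h ≠ .gho q j)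
  | .pth _ u j => s.rp u = u ∧ 1 ≤ j ∧ j ≤ 2 * N
  | .rt => True

/-- The hubs of the tree skeleton. -/
def TV (N e : ℕ) (c : Core V Q Λ B FB) (s : Ch V Q) : Type :=
  {x : TH V Q (Kd N Λ B FB) // okT N e c s x}

/-- Oriented edges of the tree skeleton. -/
def TE {K : Type} (N e : ℕ) (c : Core V Q Λ B FB) (s : Ch V Q) : TH V Q K → TH V Q K → Prop
  | .nat b u h, .nat b' u' h' => b = b' ∧ u = u' ∧ h ≠ .core u ∧ h' = pb N e c s b u h
  | .cap b u h, .nat b' u' h' => b = b' ∧ u = u' ∧ h = h'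
  | .pth b u j, .cap b' u' h => b = b' ∧ u = u' ∧ j = 1 ∧ h = cc N s b u
  | .pth b u j, .pth b' u' j' => b = b' ∧ u = u' ∧ j = j' + 1
  | .rt, .pth _ _ j => j = 2 * N
  | _, _ => False

/-- The tree skeleton. -/
def TG (N e : ℕ) (c : Core V Q Λ B FB) (s : Ch V Q) : SimpleGraph (TV N e c s) where
  Adj x y := x ≠ y ∧ (TE N e c s x.1 y.1 ∨ TE N e c s y.1 x.1)
  symm := ⟨fun _ _ h => ⟨h.1.symm, h.2.symm⟩⟩
  loopless := ⟨fun _ h => h.1 rfl⟩

variable [Fintype Λ] [Fintype B] [Fintype FB]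

open Classical in
/-- The kinds coding a type. -/
noncomputable def tyl (N : ℕ) (τ : Set (Λ × ℕ)) : Finset (Kd N Λ B FB) :=
  Finset.univ.filter fun κ => ∃ (l : Λ) (d : Fin (2 * N)), κ = Kd.ty l d ∧ (l, (d : ℕ)) ∈ τ

open Classical in
/-- Labels of the hubs of the tree skeleton. -/
noncomputable def tl (N e : ℕ) (c : Core V Q Λ B FB) (s : Ch V Q) :
    TH V Q (Kd N Λ B FB) → Finset (Kd N Λ B FB)
  | .nat _ _ h => gl N e c h
  | .cap b u h => gl N e c h ∪ gl N e c (pb N e c s b u h) ∪ tyl N (TS N c u) ∪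
      {Kd.fg (if b = true then 1 else 0)}
  | .pth b u j => {piK N j, Kd.fg 2, Kd.fg (if b = true then 1 else 0)} ∪ tyl N (TS N c u)
  | .rt => {Kd.fg 3}

/-- Labels of the tree skeleton. -/
noncomputable def tL (N e : ℕ) (c : Core V Q Λ B FB) (s : Ch V Q) (x : TV N e c s) :
    Finset (Kd N Λ B FB) := tl N e c s x.1

end

end Pool.Agent.Helper2.LD
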