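import Pool.Agent.Helper9.LD.Tool

/-!
# LD project, module Minj: labels in `M`
-/

set_option autoImplicit false

namespace Pool.Agent.Helper2.LD

open Pool.Agent.Helper9.LD

section

variable {V Q Λ B FB W : Type} [Fintype Λ] [Fintype B] [Fintype FB] {N e : ℕ}
    {c : Core V Q Λ B FB} {s : Ch V Q} {M : SimpleGraph W} {lm : W → Finset (Kd N Λ B FB)}

theorem minj_two (hTinj : StTinj) (hC : Cx N e c s M lm) (g g' : W) (hne : g ≠ g')
    (hd : M.edist g g' ≤ 2) : lm g ≠ lm g' := by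
  intro h
  have hN := par_le hC.par
  obtain ⟨x, hx⟩ := hC.deq.2 g
  obtain ⟨y, hy⟩ := hx.2.2 g'
  have h1 : x ≠ y := fun h0 => hne ((pe_eq hy).1 h0)
  have h2 : (TG N e c s).edist x y ≤ ((2 : ℕ) : ℕ∞) := (pe_le hy (by omega)).2 (by exact_mod_cast hd)
  refine hTinj.inj N e c s hC.par hC.ax hC.ch x y h1 (by exact_mod_cast h2) ?_
  rw [hx.1, pe_lab hy, h]

theorem minj_sep (hTsee : StTsee) (hC : Cx N e c s M lm) (g g' : W) (hne : g ≠ g')
    (h : lm g = lm g') (hp : PlnL N (lm g)) : ((2 * N : ℕ) : ℕ∞) ≤ M.edist g g' := by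
  obtain ⟨x, hx⟩ := hC.deq.2 g
  obtain ⟨y, hy⟩ := hx.2.2 g'
  have h1 : x ≠ y := fun h0 => hne ((pe_eq hy).1 h0)
  have h2 : tL N e c s x = tL N e c s y := by rw [hx.1, pe_lab hy, h]
  have h3 : ((2 * N : ℕ) : ℕ∞) ≤ (TG N e c s).edist x y :=
    hTsee.sep N e c s hC.par hC.ax hC.ch x y h1 h2 (by rw [hx.1]; exact hp)
  by_contra hlt
  rw [not_le] at hlt
  obtain ⟨d, hd, hd'⟩ := exists_eq_of_le hlt.le
  have h4 : d < 2 * N := by
    rw [hd'] at hlt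
    exact_mod_cast hlt
  have h5 := (pe_dist hy hd).2 hd'
  rw [h5] at h3
  have : 2 * N ≤ d := by exact_mod_cast h3
  omega

theorem minj_uni (hTinj : StTinj) (hC : Cx N e c s M lm) (t : TV N e c s)
    (ht : ∀ b u h, t.1 ≠ .nat b u h) : ∃! g, lm g = tL N e c s t := by
  obtain ⟨g, hg⟩ := hC.deq.1 t
  refine ⟨g, hg.1.symm, fun g' hg' => ?_⟩
  obtain ⟨y, hy⟩ := hg.2.2 g'
  have h1 : t = y := hTinj.cap N e c s hC.par hC.ax hC.ch t y (by rw [pe_lab hy, hg']) ht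
  exact ((pe_eq hy).1 h1).symm

theorem minj_nbr (hTinj : StTinj) (hC : Cx N e c s M lm) (x : TV N e c s) (g : W)
    (hx : Pt N e c s M lm x.1 g) :
    lm g = tL N e c s x ∧
    (∀ y, (TG N e c s).Adj x y → ∃! g', M.Adj g g' ∧ lm g' = tL N e c s y) ∧
    (∀ g', M.Adj g g' → ∃! y, (TG N e c s).Adj x y ∧ tL N e c s y = lm g') := by
  have hN := par_le hC.par
  refine ⟨(pt_lab hx).symm, fun y hxy => ?_, fun g' hgg => ?_⟩
  · obtain ⟨g', hg'⟩ := pt_fwd hx x y rfl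
    refine ⟨g', ⟨(pe_adj hN.2.2.1 hg').1 hxy, (pe_lab hg').symm⟩, fun g'' hg'' => ?_⟩
    by_contra hne
    have h1 : M.Adj g g' := (pe_adj hN.2.2.1 hg').1 hxy
    refine minj_two hTinj hC g'' g' hne ?_ (by rw [hg''.2, pe_lab hg'])
    exact_mod_cast le_add (adj_le hg''.1.symm) (adj_le h1)
  · obtain ⟨y, hy⟩ := pt_bwd hx x rfl g'
    refine ⟨y, ⟨(pe_adj hN.2.2.1 hy).2 hgg, pe_lab hy⟩, fun y' hy' => ?_⟩
    by_contra hne
    have h1 : (TG N e c s).Adj x y := (pe_adj hN.2.2.1 hy).2 hgg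
    refine hTinj.inj N e c s hC.par hC.ax hC.ch y' y hne ?_ (by rw [hy'.2, pe_lab hy])
    exact_mod_cast le_add (adj_le hy'.1.symm) (adj_le h1)

theorem minj_ex (hC : Cx N e c s M lm) :
    (∀ g, ∃ t, Pt N e c s M lm t g) ∧ ∀ t, okT N e c s t → ∃ g, Pt N e c s M lm t g := by
  refine ⟨fun g => ?_, fun t ht => ?_⟩
  · obtain ⟨⟨t, ht⟩, hx⟩ := hC.deq.2 g
    exact ⟨t, ht, hx⟩
  · obtain ⟨g, hg⟩ := hC.deq.1 ⟨t, ht⟩
    exact ⟨g, ht, hg⟩

end

/-- Module Minj. -/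
theorem pMinj (hTinj : StTinj) (hTsee : StTsee) : StMinj where
  two := fun _ _ _ _ _ _ hC g g' hne hd => minj_two hTinj hC g g' hne hd
  sep := fun _ _ _ _ _ _ hC g g' hne h hp => minj_sep hTsee hC g g' hne h hp
  uni := fun _ _ _ _ _ _ hC t ht => minj_uni hTinj hC t ht
  nbr := fun _ _ _ _ _ _ hC x g hx => minj_nbr hTinj hC x g hx
  ex := fun _ _ _ _ _ _ hC => minj_ex hC

end Pool.Agent.Helper2.LD
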