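import Pool.Agent.Helper2.LD.St5

/-!
# LD project, part B3: finiteness, isomorphisms, choices; statements
-/

set_option autoImplicit false

namespace Pool.Agent.Helper2.LD

/-- The full graph of a tree skeleton is a tree. -/
def StFTree : Prop :=
  ∀ {K V : Type} [Fintype K] [DecidableEq K] (k : ℕ) (C : KCode k K) (S : SimpleGraph V)
    (lab : V → Finset K), S.IsTree → (full k C S lab).IsTree

/-- A label preserving isomorphism of skeletons gives an isomorphism of the full graphs. -/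
def StFIso : Prop :=
  ∀ {K V V' : Type} (k : ℕ) (C : KCode k K) (S : SimpleGraph V) (lab : V → Finset K)
    (S' : SimpleGraph V') (lab' : V' → Finset K) (φ : S ≃g S'), (∀ x, lab' (φ x) = lab x) →
    Nonempty (full k C S lab ≃g full k C S' lab')

/-- The full graph of a finite skeleton is finite; a larger skeleton has a larger full graph. -/
structure StFFin : Prop where
  fin : ∀ {K V : Type} [Fintype K] [Fintype V] (k : ℕ) (C : KCode k K) (lab : V → Finset K),
    Finite (FullV k C lab)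
  card : ∀ {K V : Type} [Fintype K] [Fintype V] (k : ℕ) (C : KCode k K) (lab : V → Finset K),
    Nat.card (FullV k C lab) ≤ Fintype.card V * (2 ^ Fintype.card K + 1) ^ HH k *
      (1 + 2 * Fintype.card K * (4 + MM k + (SS k + 1) ^ 2))
  sum : ∀ {K V V' : Type} [Fintype K] [Fintype V] [Fintype V'] [Nonempty V'] (k : ℕ)
    (C : KCode k K) (lab : V → Finset K) (lab' : V' → Finset K),
    Nat.card (FullV k C lab) < Nat.card (FullV k C (Sum.elim lab lab'))

/-- The tree skeleton and `G'` are finite; size of the tree skeleton. -/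
structure StTFin : Prop where
  finT : ∀ {V Q Λ B FB : Type} [Fintype V] [Fintype Q] [Fintype Λ] [Fintype B] [Fintype FB]
    (N e : ℕ) (c : Core V Q Λ B FB) (s : Ch V Q), Finite (TV N e c s)
  finG : ∀ {V Q Λ B FB : Type} [Fintype V] [Fintype Q] [Fintype Λ] [Fintype B] [Fintype FB]
    (N e : ℕ) (c : Core V Q Λ B FB), Finite (GV N e c)
  card : ∀ {V Q Λ B FB : Type} [Fintype V] [Fintype Q] [Fintype Λ] [Fintype B] [Fintype FB]
    (N e : ℕ) (c : Core V Q Λ B FB) (s : Ch V Q), Par N e → CoreAx N e c → ChAx N c s →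
    Nat.card (TV N e c s) ≤ 1 + 2 * 2 ^ Fintype.card (Kd N Λ B FB) *
      (2 * N + 2 * (1 + (2 ^ Fintype.card (Kd N Λ B FB)) ^ 2))

/-- Existence of codes. -/
def StKC : Prop :=
  ∀ (k : ℕ) (K : Type) [Fintype K], 60 ≤ k → Fintype.card K < 2 ^ (SS k - 4) →
    Nonempty (KCode k K)

/-- Existence of choices. -/
def StCh : Prop :=
  ∀ {V Q Λ B FB : Type} (N e : ℕ) (c : Core V Q Λ B FB), CoreAx N e c → ∃ s : Ch V Q, ChAx N c s

/-- The number of kinds. -/
def StKd : Prop :=
  ∀ {Λ B FB : Type} [Fintype Λ] [Fintype B] [Fintype FB] (N : ℕ),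
    Fintype.card (Kd N Λ B FB) = Fintype.card Λ * (2 * N + 2) + Fintype.card B * Fintype.card FB +
      (2 * N + 1) + 4

/-- The computable size bound. -/
def StSize : Prop :=
  ∃ S : ℕ → ℕ, Computable S ∧ ∀ k : ℕ, 60 ≤ k → k ≤ S k ∧ ∀ K T F : ℕ, K < 2 ^ (SS k - 4) →
    T ≤ 1 + 2 * 2 ^ K * (2 * NN k + 2 * (1 + (2 ^ K) ^ 2)) →
    F ≤ T * (2 ^ K + 1) ^ HH k * (1 + 2 * K * (4 + MM k + (SS k + 1) ^ 2)) → F ≤ S k

end Pool.Agent.Helper2.LD
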