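import Pool.Agent.Helper98.LD.P_Forest
import Pool.Agent.Helper84.LD.P_Bridge
import Pool.Agent.Helper84.LD.P_Ttree
import Pool.Agent.Helper12.LD.P_Tok
import Pool.Agent.Helper12.LD.P_Glue2
import Pool.Agent.Helper69.LD.P_Pb
import Pool.Agent.Helper51.LD.P_Tdist
import Pool.Agent.Helper51.LD.P_B2I
import Pool.Agent.Helper33.LD.P_Gdist
import Pool.Agent.Helper33.LD.P_Gpos
import Pool.Agent.Helper74.LD.P_Mt
import Pool.Agent.Helper74.LD.P_Far
import Pool.Agent.Helper74.LD.P_B1
import Pool.Agent.Helper74.LD.P_Inner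
import Pool.Agent.Helper74.LD.P_Root
import Pool.Agent.Helper74.LD.P_Glue1
import Pool.Agent.Helper48.LD.P_Ncore
import Pool.Agent.Helper65.LD.P_Tinj
import Pool.Agent.Helper65.LD.P_Port
import Pool.Agent.Helper98.LD.P_Hyp
import Pool.Agent.Helper20.LD.P_Rig
import Pool.Agent.Helper14.LD.P_Tch
import Pool.Agent.Helper9.LD.P_ClA
import Pool.Agent.Helper9.LD.P_ClB
import Pool.Agent.Helper2.LD.P_Minj
import Pool.Agent.Helper2.LD.St6

/-!
# LD project: parts B1 and B2 (assembly)
-/

set_option autoImplicit false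

namespace Pool.Agent.Helper2.LD

theorem hForest : StForest := Pool.Agent.Helper98.LD.pForest
theorem hBridge : StBridge := Pool.Agent.Helper84.LD.pBridge
theorem hTok : StTok := Pool.Agent.Helper12.LD.pTok
theorem hPb : StPb := Pool.Agent.Helper69.LD.pPb
theorem hTdist : StTdist := Pool.Agent.Helper51.LD.pTdist hForest hBridge hTok
theorem hTtree : StTtree := Pool.Agent.Helper84.LD.pTtree hTok
theorem hTpos : StTpos := Pool.Agent.Helper84.LD.pTpos hTok hTdist
theorem hGdist : StGdist := Pool.Agent.Helper33.LD.pGdist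
theorem hGpos : StGpos := Pool.Agent.Helper33.LD.pGpos hGdist hPb
theorem hMt : StMt := Pool.Agent.Helper74.LD.pMt
theorem hNcore : StNcore :=
  Pool.Agent.Helper48.LD.pNcore hPb hTok hTdist hTpos hGdist hGpos hMt
theorem hFar : StFar := Pool.Agent.Helper74.LD.pFar hTok hTdist
theorem hTinj : StTinj := Pool.Agent.Helper65.LD.pTinj hPb
theorem hHyp : StHyp := Pool.Agent.Helper98.LD.pHyp hTtree hTinj

theorem partB1_of (hNtru : StNtru) (hNfan : StNfan) (hNgho : StNgho) : StB1 :=
  Pool.Agent.Helper74.LD.pB1 hNcore hNtru hNfan hNgho hFar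

theorem partB2_pre (hRg : StRg) (hTsee : StTsee) (hCls : StCls) (hFace : StFace)
    (hGch : StGch) (hFL : StRg → StTsee → StMinj → StCls → StInner → StRoot → StPort → StFL) :
    StClA ∧ StClB := by
  have hMinj : StMinj := pMinj hTinj hTsee
  have hG1 : StGlue1 := Pool.Agent.Helper74.LD.pGlue1 hRg hTsee hCls hPb hTdist hTpos
  have hG2 : StGlue2 := Pool.Agent.Helper12.LD.pGlue2 hRg hTsee hMinj hCls hFace hTdist
  have hInner : StInner :=
    Pool.Agent.Helper74.LD.pInner hRg hTsee hMinj hCls hG1 hG2 hTinj hPb hTok hTdist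
  have hRoot : StRoot := Pool.Agent.Helper74.LD.pRoot hRg hTsee hMinj hCls hPb hTdist
  have hPort : StPort := Pool.Agent.Helper65.LD.pPort hTok hPb hRg hMinj hCls hInner hRoot hG1
  have hTch : StTch := Pool.Agent.Helper14.LD.pTch hRg hMinj hCls hPort
  have hFL : StFL := hFL hRg hTsee hMinj hCls hInner hRoot hPort
  have hClA : StClA :=
    Pool.Agent.Helper9.LD.pClA hRg hTsee hMinj hCls hPort hGch hFace hFL hTdist
  have hClB : StClB := Pool.Agent.Helper9.LD.pClB hRg hTsee hMinj hCls hPort hGch hFace hTdist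
  exact ⟨hClA, hClB⟩

end Pool.Agent.Helper2.LD
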