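import Pool.Agent.Helper2.LD.St1

/-!
# LD project, part A2: Spoiler's side (decoding). Definitions and statements of the modules.
-/

set_option autoImplicit false

namespace Pool.Agent.Helper2.LD

/-- A property of pointed graphs preserved by `q` rounds. -/
def Inv1 (q : ℕ) (φ : ∀ {V : Type}, SimpleGraph V → V → Prop) : Prop :=
  ∀ {V W : Type} (G : SimpleGraph V) (H : SimpleGraph W) (p : List (V × W)) (v : V) (w : W),
    EF G H q p → (v, w) ∈ p → (φ G v ↔ φ H w)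

/-- A property of doubly pointed graphs preserved by `q` rounds. -/
def Inv2 (q : ℕ) (φ : ∀ {V : Type}, SimpleGraph V → V → V → Prop) : Prop :=
  ∀ {V W : Type} (G : SimpleGraph V) (H : SimpleGraph W) (p : List (V × W)) (v v' : V) (w w' : W),
    EF G H q p → (v, w) ∈ p → (v', w') ∈ p → (φ G v v' ↔ φ H w w')

def Leaf {V : Type} (G : SimpleGraph V) (v : V) : Prop := ∃ u, G.Adj v u ∧ ∀ w, G.Adj v w → w = u

/-- At least three leaves as neighbours. -/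
def Rv {V : Type} (G : SimpleGraph V) (v : V) : Prop :=
  ∃ s : Finset V, s.card = 3 ∧ ∀ w ∈ s, G.Adj v w ∧ Leaf G w

def A2v {V : Type} (G : SimpleGraph V) (v : V) : Prop := ¬ Leaf G v ∧ ∃ u, G.Adj v u ∧ Rv G u

def A1v {V : Type} (G : SimpleGraph V) (v : V) : Prop := ¬ Rv G v ∧ ∃ u, G.Adj v u ∧ A2v G u

/-- Plain vertices. -/
def Plv {V : Type} (G : SimpleGraph V) (v : V) : Prop :=
  ¬ A2v G v ∧ DegGe G 3 v ∧ ∃ u, G.Adj v u ∧ A1v G u

/-- Walks of length at most `n` whose inner vertices are not plain. -/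
def RW {V : Type} (G : SimpleGraph V) : ℕ → V → V → Prop
  | 0, u, v => u = v
  | (n + 1), u, v => u = v ∨ ∃ w, G.Adj u w ∧ (w = v ∨ (¬ Plv G w ∧ RW G n w v))

/-- A vertex of sort `a1` with code `X`. -/
def Knd {V : Type} (k : ℕ) (G : SimpleGraph V) (X : Finset ℕ) (v : V) : Prop :=
  A1v G v ∧ ∀ i, 5 ≤ i → i ≤ SS k → (i ∈ X ↔ ∃ z, Leaf G z ∧ RW G i v z ∧ ¬ RW G (i - 1) v z)

/-- The sorts of vertices. -/
inductive Cl (K : Type) : Type
  | pl : Cl K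
  | a1 (κ : K) : Cl K
  | a2 (κ : K) : Cl K
  | r (κ : K) : Cl K
  | l (κ : K) : Cl K
  | m (κ : K) (i j : ℕ) : Cl K

namespace Cl

variable {K : Type}

def ok (code : K → Finset ℕ) : Cl K → Prop
  | m κ i j => i ∈ code κ ∧ 1 ≤ j ∧ j ≤ i
  | _ => True

def par : Cl K → Cl K
  | pl => pl
  | a1 _ => pl
  | a2 κ => a1 κ
  | r κ => a2 κ
  | l κ => r κ
  | m κ i j => if j ≤ 1 then a1 κ else m κ i (j - 1)

end Cl

/-- The sort of a name. -/
def clOf {K : Type} : Fb K → Cl K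
  | Fb.root => Cl.pl
  | Fb.a1 κ _ => Cl.a1 κ
  | Fb.a2 κ _ => Cl.a2 κ
  | Fb.r κ _ => Cl.r κ
  | Fb.lf κ _ _ => Cl.l κ
  | Fb.mk κ _ i j => Cl.m κ i j

/-- The vertex `v` of the graph `G` looks like a vertex of sort `c`. -/
def Is {K V : Type} (k : ℕ) (code : K → Finset ℕ) (G : SimpleGraph V) : Cl K → V → Prop
  | Cl.pl, v => Plv G v
  | Cl.a1 κ, v => Knd k G (code κ) v
  | Cl.a2 κ, v => A2v G v ∧ ∃ u, G.Adj v u ∧ Knd k G (code κ) u
  | Cl.r κ, v => Rv G v ∧ ∃ u, G.Adj v u ∧ A2v G u ∧ ∃ a, G.Adj u a ∧ Knd k G (code κ) a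
  | Cl.l κ, v => Leaf G v ∧ ∃ z, G.Adj v z ∧ Rv G z ∧ ∃ u, G.Adj z u ∧ A2v G u ∧
      ∃ a, G.Adj u a ∧ Knd k G (code κ) a
  | Cl.m κ i j, v => ¬ Plv G v ∧ ¬ A1v G v ∧ ¬ A2v G v ∧ ¬ Rv G v ∧ (¬ ∃ u, G.Adj v u ∧ Rv G u) ∧
      ∃ a, Knd k G (code κ) a ∧ RW G j a v ∧ ¬ RW G (j - 1) a v ∧
      ∃ z, Leaf G z ∧ (¬ ∃ u, G.Adj z u ∧ Rv G u) ∧ RW G i a z ∧ ¬ RW G (i - 1) a z ∧
        RW G (i - j) v z ∧ (i = j ∨ ¬ RW G (i - j - 1) v z)

/-- Ranks of the basic properties. -/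
structure StRank : Prop where
  leaf : Inv1 2 Leaf
  degge : ∀ n, Inv1 n (fun {_} G v => DegGe G n v)
  pl : Inv1 8 Plv
  dist : ∀ n j, n ≤ 2 ^ j → Inv2 j (fun {_} G u v => G.edist u v ≤ (n : ℕ∞))
  rw' : ∀ n j, n ≤ 2 ^ j → Inv2 (8 + j) (fun {_} G u v => RW G n u v)
  cls : ∀ (k : ℕ), 40 ≤ k → ∀ {K : Type} (code : K → Finset ℕ) (c : Cl K),
    (∀ κ, ∀ i ∈ code κ, i ≤ SS k) → c.ok code → Inv1 (k - 18) (fun {_} G v => Is k code G c v)

/-- Sorts in the full graph. -/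
def StIs : Prop :=
  ∀ {K V : Type} [Fintype K] [DecidableEq K] (k : ℕ), 40 ≤ k → k + 8 ≤ Fintype.card K →
    ∀ (C : KCode k K) (S : SimpleGraph V) (lab : V → Finset K) (v : FullV k C lab) (c : Cl K),
    c.ok C.code → (Is k C.code (full k C S lab) c v ↔ c = clOf (fb v))

/-- Local axioms satisfied by every graph equivalent to a full graph. -/
structure LocAx {K V : Type} (k : ℕ) (code : K → Finset ℕ) (H : SimpleGraph V) : Prop where
  ex : ∀ v, ∃ c : Cl K, c.ok code ∧ Is k code H c v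
  un : ∀ v (c c' : Cl K), c.ok code → c'.ok code → Is k code H c v → Is k code H c' v → c = c'
  up : ∀ v (c : Cl K), c.ok code → Is k code H c v → c ≠ Cl.pl →
    ∃! w, H.Adj v w ∧ Is k code H c.par w
  dn : ∀ v (c c' : Cl K), c.ok code → c'.ok code → Is k code H c v → c' ≠ Cl.pl → c'.par = c →
    (∀ κ, c' ≠ Cl.a1 κ) → (∀ κ, c' ≠ Cl.l κ) → ∃! w, H.Adj v w ∧ Is k code H c' w
  dn2 : ∀ v κ, Plv H v → ∃ w1 w2, w1 ≠ w2 ∧ (H.Adj v w1 ∧ Is k code H (Cl.a1 κ) w1) ∧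
    (H.Adj v w2 ∧ Is k code H (Cl.a1 κ) w2) ∧
    ∀ w, H.Adj v w → Is k code H (Cl.a1 κ) w → w = w1 ∨ w = w2
  nb : ∀ v w (c c' : Cl K), c.ok code → c'.ok code → H.Adj v w → Is k code H c v →
    Is k code H c' w → (c = Cl.pl ∧ c' = Cl.pl) ∨ (c ≠ Cl.pl ∧ c' = c.par) ∨
      (c' ≠ Cl.pl ∧ c = c'.par)
  rdeg : ∀ v κ, Is k code H (Cl.r κ) v → DegGe H (MM k + 1) v ∧ ¬ DegGe H (MM k + 3) v
  str : ∀ v κ w1 w2 x1 x2 y1 y2, Plv H v → w1 ≠ w2 →
    H.Adj v w1 → Is k code H (Cl.a1 κ) w1 → H.Adj w1 x1 → Is k code H (Cl.a2 κ) x1 →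
    H.Adj x1 y1 → Is k code H (Cl.r κ) y1 →
    H.Adj v w2 → Is k code H (Cl.a1 κ) w2 → H.Adj w2 x2 → Is k code H (Cl.a2 κ) x2 →
    H.Adj x2 y2 → Is k code H (Cl.r κ) y2 → ¬ (DegGe H (MM k + 2) y1 ∧ DegGe H (MM k + 2) y2)

/-- Transfer of the local axioms. -/
def StTrX : Prop :=
  ∀ {K V W : Type} [Fintype K] [DecidableEq K] (k : ℕ), 40 ≤ k → k + 8 ≤ Fintype.card K →
    ∀ (C : KCode k K) (S : SimpleGraph V) (lab : V → Finset K) (H : SimpleGraph W),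
    EF (full k C S lab) H k [] → LocAx k C.code H

/-- There is a gadget of kind `κ` with `m + 1` leaves at the plain vertex `v`. -/
def StrAt {K V : Type} (k : ℕ) (code : K → Finset ℕ) (H : SimpleGraph V) (v : V) (κ : K) : Prop :=
  ∃ w x y, H.Adj v w ∧ Is k code H (Cl.a1 κ) w ∧ H.Adj w x ∧ Is k code H (Cl.a2 κ) x ∧
    H.Adj x y ∧ Is k code H (Cl.r κ) y ∧ DegGe H (MM k + 2) y

/-- A graph with the local axioms is an encoded labelled graph. -/
def StDecX : Prop :=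
  ∀ {K W : Type} [Fintype K] [DecidableEq K] (k : ℕ), 40 ≤ k →
    ∀ (C : KCode k K) (H : SimpleGraph W), LocAx k C.code H →
    ∃ (L : {v // Plv H v} → Finset K)
      (φ : H ≃g encG (H.comap (Subtype.val : {v // Plv H v} → W)) (MM k) C.code L),
      (∀ v : {v // Plv H v}, (φ v.1).1 = (v, Fb.root)) ∧
      (∀ v κ, κ ∈ L v ↔ StrAt k C.code H v.1 κ)

/-- Labels not of brush type. -/
def HubL {K : Type} (c : Finset K) : Prop := c.card ≠ 3 ∧ c.card ≠ 4 ∧ c.card ≠ 5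

/-- `d` is the distance to the nearest vertex with a hub label. -/
def Dep {X K : Type} (P : SimpleGraph X) (L : X → Finset K) (x : X) (d : ℕ) : Prop :=
  (∃ s, HubL (L s) ∧ P.edist x s = (d : ℕ∞)) ∧ ∀ s, HubL (L s) → (d : ℕ∞) ≤ P.edist x s

/-- Axioms of the plain graph. -/
structure PlAx {X K : Type} (h : ℕ) (P : SimpleGraph X) (L : X → Finset K) : Prop where
  dep : ∀ x, ∃ d ≤ h, Dep P L x d ∧ (1 ≤ d → (L x).card = 3 + d % 3)
  ch : ∀ x d, Dep P L x d → d < h → ∀ c : Finset K, c.card = 3 + (d + 1) % 3 →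
    ∃! y, P.Adj x y ∧ L y = c
  pr : ∀ x d, Dep P L x (d + 1) → ∃! y, P.Adj x y ∧ (L y).card ≠ 3 + (d + 2) % 3
  top : ∀ x, Dep P L x h → ∀ y, P.Adj x y → (L y).card ≠ 3 + (h + 1) % 3
  hub : ∀ x, Dep P L x 0 → ∀ y, P.Adj x y → HubL (L y) ∨ (L y).card = 4

/-- A plain graph with the axioms comes from a skeleton. -/
def StDecY : Prop :=
  ∀ {X K : Type} [Fintype K] [DecidableEq K] (h : ℕ) (P : SimpleGraph X) (L : X → Finset K),
    5 ≤ Fintype.card K → 2 ≤ h → PlAx h P L →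
    ∃ φ : P ≃g brG K (P.comap (Subtype.val : {x // HubL (L x)} → X)) h,
      ∀ x, brL (fun s : {x // HubL (L x)} => L s.1) (φ x) = L x

/-- Assumptions on the labels of the skeleton of the tree. -/
def HypL {K V : Type} (S : SimpleGraph V) (lab : V → Finset K) : Prop :=
  (∀ s, HubL (lab s)) ∧ (∀ s t, s ≠ t → S.edist s t ≤ 2 → lab s ≠ lab t)

/-- Transfer of the axioms of the plain graph. -/
def StTrY : Prop :=
  ∀ {K V W : Type} [Fintype K] [DecidableEq K] (k : ℕ), 40 ≤ k → k + 8 ≤ Fintype.card K →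
    ∀ (C : KCode k K) (S : SimpleGraph V) (lab : V → Finset K) (H : SimpleGraph W), HypL S lab →
    EF (full k C S lab) H k [] →
    ∀ (L : {v // Plv H v} → Finset K)
      (φ : H ≃g encG (H.comap (Subtype.val : {v // Plv H v} → W)) (MM k) C.code L),
      (∀ v : {v // Plv H v}, (φ v.1).1 = (v, Fb.root)) →
      (∀ v κ, κ ∈ L v ↔ StrAt k C.code H v.1 κ) →
      PlAx (HH k) (H.comap (Subtype.val : {v // Plv H v} → W)) L

/-- Part A2a: decoding. -/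
def StA2a : Prop :=
  ∀ {K V W : Type} [Fintype K] [DecidableEq K] (k : ℕ), 40 ≤ k → k + 8 ≤ Fintype.card K →
    ∀ (C : KCode k K) (S : SimpleGraph V) (lab : V → Finset K) (H : SimpleGraph W), HypL S lab →
    EF (full k C S lab) H k [] →
    ∃ (s : Set W) (S' : SimpleGraph s) (lab' : s → Finset K),
      Nonempty (H ≃g full k C S' lab') ∧ ∀ x, HubL (lab' x)

/-- Part A2b: the data are visible. -/
def StA2b : Prop :=
  ∀ {K V V' : Type} [Fintype K] [DecidableEq K] (k : ℕ), 40 ≤ k → k + 8 ≤ Fintype.card K →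
    ∀ (C : KCode k K) (S : SimpleGraph V) (lab : V → Finset K)
    (S' : SimpleGraph V') (lab' : V' → Finset K), (∀ s, HubL (lab s)) → (∀ s, HubL (lab' s)) →
    EF (full k C S lab) (full k C S' lab') k [] → DEq (NN k) (EE k) S lab S' lab'

end Pool.Agent.Helper2.LD
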