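import Pool.Agent.Helper2.LD.St1

/-!
# LD project, part B: the core complex (interface between the tiling part and the tree part)
-/

set_option autoImplicit false

namespace Pool.Agent.Helper2.LD

/-- A core complex: a graph with labels, and corners. A corner `q` belongs to the vertex `ow q`;
going around its face once means applying `nx` `4 * e` times. -/
structure Core (V Q Λ B FB : Type) where
  G : SimpleGraph V
  ow : Q → V
  nx : Equiv.Perm Q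
  lb : V → Λ
  bs : Λ → B
  fl : Q → FB

/-- Axioms of a core complex. -/
structure CoreAx (N e : ℕ) {V Q Λ B FB : Type} (c : Core V Q Λ B FB) : Prop where
  conn : c.G.Connected
  bip : Bip c.G
  girth : NoCyc c.G (4 * e - 1)
  nb : ∀ x, ∃ w, c.G.Adj x w
  per : ∀ q, (c.nx^[4 * e]) q = q
  adj : ∀ q, c.G.Adj (c.ow q) (c.ow (c.nx q))
  flx : ∀ q, c.fl (c.nx q) = c.fl q
  iso : ∀ q, ∀ j ≤ 2 * e, c.G.edist (c.ow q) (c.ow ((c.nx^[j]) q)) = (j : ℕ∞)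
  k1 : ∀ u z w w' (d : ℕ), d + 1 < 2 * e → c.G.edist u z = ((d + 1 : ℕ) : ℕ∞) →
    c.G.Adj z w → c.G.edist u w = (d : ℕ∞) → c.G.Adj z w' → c.G.edist u w' = (d : ℕ∞) → w = w'
  k2 : ∀ u z w w', c.G.edist u z = ((2 * e : ℕ) : ℕ∞) →
    c.G.Adj z w → c.G.edist u w = ((2 * e - 1 : ℕ) : ℕ∞) →
    c.G.Adj z w' → c.G.edist u w' = ((2 * e - 1 : ℕ) : ℕ∞) → w ≠ w' →
    ∃ q, c.ow q = u ∧ c.ow ((c.nx^[2 * e]) q) = z ∧
      ((w = c.ow ((c.nx^[2 * e - 1]) q) ∧ w' = c.ow ((c.nx^[2 * e + 1]) q)) ∨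
        (w' = c.ow ((c.nx^[2 * e - 1]) q) ∧ w = c.ow ((c.nx^[2 * e + 1]) q)))
  k4 : ∀ q q', c.ow q = c.ow q' → c.ow ((c.nx^[2 * e]) q) = c.ow ((c.nx^[2 * e]) q') → q = q'
  k5 : ∀ x y, c.G.edist x y ≤ ((4 * N + 2 : ℕ) : ℕ∞) → c.bs (c.lb x) = c.bs (c.lb y) → x = y
  k6 : ∀ x x' w, c.lb x = c.lb x' → c.G.Adj x w →
    ∃ w', c.G.Adj x' w' ∧ c.bs (c.lb w') = c.bs (c.lb w)
  k7 : ∀ q x', c.lb (c.ow q) = c.lb x' → ∃ q', c.ow q' = x' ∧ c.fl q' = c.fl q ∧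
    c.bs (c.lb (c.ow (c.nx q'))) = c.bs (c.lb (c.ow (c.nx q))) ∧
    c.bs (c.lb (c.ow (c.nx.symm q'))) = c.bs (c.lb (c.ow (c.nx.symm q)))
  k8 : ∀ q q', c.ow q = c.ow q' → c.fl q = c.fl q' → q = q'
  k9 : ∀ x w, c.G.Adj x w → ∃ q, c.ow q = x ∧ (c.ow (c.nx q) = w ∨ c.ow (c.nx.symm q) = w)
  link : ∀ x (P : V → Prop), (∀ q, c.ow q = x → (P (c.ow (c.nx q)) ↔ P (c.ow (c.nx.symm q)))) →
    ∀ w w', c.G.Adj x w → c.G.Adj x w' → P w → P w'

/-- A graph which looks locally like the core complex. -/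
def LocLike (e : ℕ) {V Q Λ B FB : Type} (c : Core V Q Λ B FB) {W : Type} (M : SimpleGraph W)
    (L : W → Λ) : Prop :=
  ∀ g, ∃ u, L g = c.lb u ∧
    (∀ w, c.G.Adj u w → ∃! g', M.Adj g g' ∧ L g' = c.lb w) ∧
    (∀ g', M.Adj g g' → ∃ w, c.G.Adj u w ∧ L g' = c.lb w) ∧
    ∀ q, c.ow q = u → ∃ p : ℕ → W, p 0 = g ∧ p (4 * e) = g ∧
      (∀ j < 4 * e, M.Adj (p j) (p (j + 1))) ∧
      ∀ j ≤ 4 * e, L (p j) = c.lb (c.ow ((c.nx^[j]) q))

/-- **The tiling part.** There is an undecidable predicate `K` with computable witnesses such that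
for every `a` with `K a` there is a finite core complex, whose label sets are small with respect to
the number `kk a` of rounds, and such that every finite graph which looks locally like it has size
at least a witness for `K a`. -/
def StMac : Prop :=
  ∃ (K : ℕ → Prop) (Wt : ℕ → ℕ → Prop) (kk : ℕ → ℕ), ¬ ComputablePred K ∧
    (ComputablePred fun x : ℕ × ℕ => Wt x.1 x.2) ∧ (∀ a B B', B ≤ B' → Wt a B → Wt a B') ∧
    (∀ a B, Wt a B → K a) ∧ Computable kk ∧ (∀ a, 60 ≤ kk a) ∧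
    ∀ a, K a → ∃ (V Q Λ B FB : Type) (_ : Fintype V) (_ : Fintype Q) (_ : Fintype Λ)
      (_ : Fintype B) (_ : Fintype FB) (c : Core V Q Λ B FB),
      CoreAx (NN (kk a)) (EE (kk a)) c ∧
      (∀ (W : Type) [Fintype W] [Nonempty W] (M : SimpleGraph W) (L : W → Λ),
        LocLike (EE (kk a)) c M L → Wt a (Fintype.card W)) ∧
      Fintype.card Λ * (2 * NN (kk a) + 2) + Fintype.card B * Fintype.card FB +
        (2 * NN (kk a) + 1) + 4 < 2 ^ (SS (kk a) - 4)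

end Pool.Agent.Helper2.LD
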