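import Pool.Agent.Helper2.LD.Defs4
import Pool.Agent.Helper2.LD.St2

/-!
# LD project, part B: general facts, facts on the tree skeleton and on `G'`, part B1
-/

set_option autoImplicit false

namespace Pool.Agent.Helper2.LD

/-- A forest given by levels and parents. -/
structure Forest {X : Type} (G : SimpleGraph X) (lv : X → ℕ) (par : X → X) : Prop where
  adj : ∀ x y, G.Adj x y ↔ (lv x ≠ 0 ∧ y = par x) ∨ (lv y ≠ 0 ∧ x = par y)
  lv : ∀ x, lv x ≠ 0 → lv (par x) + 1 = lv x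

/-- Distances in a forest. -/
def StForest : Prop :=
  ∀ {X : Type} (G : SimpleGraph X) (lv : X → ℕ) (par : X → X), Forest G lv par →
    ∀ x y (d : ℕ), G.edist x y ≤ (d : ℕ∞) ↔
      ∃ i j, i ≤ lv x ∧ j ≤ lv y ∧ i + j ≤ d ∧ par^[i] x = par^[j] y

/-- Distances and a part which is connected to the rest by one edge. -/
def StBridge : Prop :=
  ∀ {X : Type} (G : SimpleGraph X) (A : Set X) (a b : X), a ∈ A → b ∉ A → G.Adj a b →
    (∀ x ∈ A, ∀ y, y ∉ A → G.Adj x y → x = a ∧ y = b) →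
    (∀ x y : A, G.edist x y = (G.induce A).edist x y) ∧
    (∀ x ∈ A, ∀ y, y ∉ A → G.edist x y = G.edist x a + 1 + G.edist b y)

/-- The parameters. -/
def Par (N e : ℕ) : Prop := e + 4 = N ∧ 20 ≤ e

section

variable {V Q Λ B FB : Type}

/-- Parents in the pieces of the tree skeleton. -/
noncomputable def tpar {K : Type} (N e : ℕ) (c : Core V Q Λ B FB) (s : Ch V Q) :
    TH V Q K → TH V Q K
  | .nat b u h => .nat b u (pb N e c s b u h)
  | .cap b u h => .nat b u h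
  | .pth b u j => if j = 2 * N then .rt else .pth b u (j + 1)
  | .rt => .rt

/-- Levels in the pieces of the tree skeleton. -/
noncomputable def tlev {K : Type} (N : ℕ) (c : Core V Q Λ B FB) : TH V Q K → ℕ
  | .nat _ u h => lev N c u h
  | .cap _ u h => lev N c u h + 1
  | .pth _ _ j => 2 * N + 1 - j
  | .rt => 0

/-- The piece of a hub. -/
def pc {K : Type} : TH V Q K → Option (Bool × V)
  | .nat b u _ => some (b, u)
  | .cap b u _ => some (b, u)
  | .pth _ _ _ => none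
  | .rt => none

/-- Connecting edges. -/
def Bdg {K : Type} (N : ℕ) (s : Ch V Q) (x y : TH V Q K) : Prop :=
  ∃ b u, x = .cap b u (cc N s b u) ∧ y = .pth b u 1

end

/-- Levels in the pieces and parents. -/
structure StTok : Prop where
  ok : ∀ {V Q Λ B FB : Type} (N e : ℕ) (c : Core V Q Λ B FB) (s : Ch V Q), Par N e →
    CoreAx N e c → ChAx N c s → ∀ x, okT N e c s x → tlev N c x ≠ 0 →
    okT N e c s (tpar N e c s x) ∧ tlev N c (tpar N e c s x) + 1 = tlev N c x ∧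
      pc (tpar N e c s x) = pc x
  zero : ∀ {V Q Λ B FB : Type} (N e : ℕ) (c : Core V Q Λ B FB) (s : Ch V Q), Par N e →
    CoreAx N e c → ChAx N c s → ∀ x, okT N e c s x → tlev N c x = 0 →
    x = .rt ∨ ∃ b u, s.rp u = u ∧ x = .nat b u (.core u)
  okc : ∀ {V Q Λ B FB : Type} (N e : ℕ) (c : Core V Q Λ B FB) (s : Ch V Q), Par N e →
    CoreAx N e c → ChAx N c s → ∀ b u, s.rp u = u → okT N e c s (.cap b u (cc N s b u))
  adj : ∀ {V Q Λ B FB : Type} (N e : ℕ) (c : Core V Q Λ B FB) (s : Ch V Q), Par N e →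
    CoreAx N e c → ChAx N c s → ∀ x y : TV N e c s, (TG N e c s).Adj x y ↔
      (tlev N c x.1 ≠ 0 ∧ y.1 = tpar N e c s x.1) ∨ (tlev N c y.1 ≠ 0 ∧ x.1 = tpar N e c s y.1) ∨
        Bdg N s x.1 y.1 ∨ Bdg N s y.1 x.1

/-- Parents in the piece around `u` below the critical level. -/
def StPb : Prop :=
  ∀ {V Q Λ B FB K : Type} (N e : ℕ) (c : Core V Q Λ B FB) (s : Ch V Q), Par N e →
    CoreAx N e c → ChAx N c s → ∀ (b : Bool) (u : V),
    (∀ z w, c.G.dist u z < 2 * e → c.G.Adj z w → c.G.dist u w + 1 = c.G.dist u z →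
      pb (K := K) N e c s b u (.core z) = .core w) ∧
    (∀ q, c.ow q = u → pb (K := K) N e c s true u (.core (c.ow ((c.nx^[2 * e]) q))) =
      .gho q (2 * e - 1)) ∧
    (∀ q, c.ow q = u → (c.ow ((c.nx^[2 * e]) q)) ≠ u ∧ c.ow ((c.nx^[e]) q) ≠ c.ow ((c.nx^[3 * e]) q) ∧
      c.G.dist u (c.ow ((c.nx^[2 * e]) q)) = 2 * e ∧ c.G.dist u (c.ow ((c.nx^[e]) q)) = e ∧
      c.G.dist u (c.ow ((c.nx^[3 * e]) q)) = e)

/-- Distances in the tree skeleton. -/
structure StTdist : Prop where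
  inn : ∀ {V Q Λ B FB : Type} (N e : ℕ) (c : Core V Q Λ B FB) (s : Ch V Q), Par N e →
    CoreAx N e c → ChAx N c s → ∀ x y : TV N e c s, pc x.1 = pc y.1 →
    ∀ d : ℕ, (TG N e c s).edist x y ≤ (d : ℕ∞) ↔ ∃ i j, i ≤ tlev N c x.1 ∧ j ≤ tlev N c y.1 ∧
      i + j ≤ d ∧ (tpar N e c s)^[i] x.1 = (tpar N e c s)^[j] y.1
  out : ∀ {V Q Λ B FB : Type} (N e : ℕ) (c : Core V Q Λ B FB) (s : Ch V Q), Par N e →
    CoreAx N e c → ChAx N c s → ∀ (x y a a' : TV N e c s) (b : Bool) (u : V),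
    pc x.1 = some (b, u) → pc y.1 ≠ some (b, u) → a.1 = .cap b u (cc N s b u) →
    a'.1 = .pth b u 1 →
    (TG N e c s).edist x y = (TG N e c s).edist x a + 1 + (TG N e c s).edist a' y
  near : ∀ {V Q Λ B FB : Type} (N e : ℕ) (c : Core V Q Λ B FB) (s : Ch V Q), Par N e →
    CoreAx N e c → ChAx N c s → ∀ (x y : TV N e c s) (b : Bool) (u : V),
    pc x.1 = some (b, u) → (TG N e c s).edist x y ≤ ((2 * N : ℕ) : ℕ∞) →
    pc y.1 = some (b, u) ∨ ∃ j, y.1 = .pth b u j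
  root : ∀ {V Q Λ B FB : Type} (N e : ℕ) (c : Core V Q Λ B FB) (s : Ch V Q), Par N e →
    CoreAx N e c → ChAx N c s → ∀ (x y : TV N e c s) (b : Bool) (u : V),
    x.1 = .nat b u (.core u) → pc y.1 = some (b, u) →
    (TG N e c s).edist x y = ((tlev N c y.1 : ℕ) : ℕ∞)

/-- The tree skeleton is a tree. -/
def StTtree : Prop :=
  ∀ {V Q Λ B FB : Type} (N e : ℕ) (c : Core V Q Λ B FB) (s : Ch V Q), Par N e →
    CoreAx N e c → ChAx N c s → (TG N e c s).IsTree

/-- Distances and geodesics in `G'`. -/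
structure StGdist : Prop where
  core : ∀ {V Q Λ B FB : Type} (N e : ℕ) (c : Core V Q Λ B FB), Par N e → CoreAx N e c →
    ∀ (x h : GV N e c) (u : V), x.1 = .core u → (GG N e c).edist x h = ((lev N c u h.1 : ℕ) : ℕ∞)
  gho : ∀ {V Q Λ B FB : Type} (N e : ℕ) (c : Core V Q Λ B FB), Par N e → CoreAx N e c →
    ∀ (x h : GV N e c) (q : Q) (j : ℕ), x.1 = .gho q j →
    (∀ j', h.1 = .gho q j' → (GG N e c).edist x h = ((j - j' + (j' - j) : ℕ) : ℕ∞)) ∧
    ((∀ j', h.1 ≠ .gho q j') → (GG N e c).edist x h = ((j + lev N c (c.ow q) h.1 : ℕ) : ℕ∞))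
  tru : ∀ {V Q Λ B FB : Type} (N e : ℕ) (c : Core V Q Λ B FB), Par N e → CoreAx N e c →
    ∀ (x h : GV N e c) (u : V) (j : ℕ), x.1 = .tru u j →
    (∀ j', h.1 = .tru u j' → (GG N e c).edist x h = ((j - j' + (j' - j) : ℕ) : ℕ∞)) ∧
    (∀ l, h.1 = .fan u l → (GG N e c).edist x h = ((2 * N - j : ℕ) : ℕ∞)) ∧
    ((∀ j', h.1 ≠ .tru u j') → (∀ l, h.1 ≠ .fan u l) →
      (GG N e c).edist x h = ((j + lev N c u h.1 : ℕ) : ℕ∞))
  fan : ∀ {V Q Λ B FB : Type} (N e : ℕ) (c : Core V Q Λ B FB), Par N e → CoreAx N e c →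
    ∀ (x h : GV N e c) (u : V) (l : Finset (Kd N Λ B FB)), x.1 = .fan u l →
    (∀ j, h.1 = .tru u j → (GG N e c).edist x h = ((2 * N - j : ℕ) : ℕ∞)) ∧
    (∀ l', l' ≠ l → h.1 = .fan u l' → (GG N e c).edist x h = (2 : ℕ∞)) ∧
    ((∀ j, h.1 ≠ .tru u j) → (∀ l, h.1 ≠ .fan u l) →
      (GG N e c).edist x h = ((2 * N + lev N c u h.1 : ℕ) : ℕ∞))

/-- Points of short geodesics in `G'` starting at a core vertex. -/
structure StGpos : Prop where
  pos : ∀ {V Q Λ B FB : Type} (N e : ℕ) (c : Core V Q Λ B FB) (s : Ch V Q), Par N e →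
    CoreAx N e c → ChAx N c s → ∀ (x h z : GV N e c) (u : V) (p q : ℕ), x.1 = .core u →
    lev N c u h.1 = p + q → p + q ≤ 2 * e →
    (∀ r, c.ow r = u → h.1 ≠ .core (c.ow ((c.nx^[2 * e]) r))) →
    (((GG N e c).edist x z = (p : ℕ∞) ∧ (GG N e c).edist z h = (q : ℕ∞)) ↔
      z.1 = (pb N e c s false u)^[q] h.1)
  anti : ∀ {V Q Λ B FB : Type} (N e : ℕ) (c : Core V Q Λ B FB), Par N e →
    CoreAx N e c → ∀ (x h z : GV N e c) (u : V) (r : Q), x.1 = .core u → c.ow r = u →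
    h.1 = .core (c.ow ((c.nx^[2 * e]) r)) →
    (((GG N e c).edist x z = (e : ℕ∞) ∧ (GG N e c).edist z h = (e : ℕ∞)) ↔
      (z.1 = .core (c.ow ((c.nx^[e]) r)) ∨ z.1 = .core (c.ow ((c.nx^[3 * e]) r))))

section

variable {V Q Λ B FB : Type}

/-- Matching natural hubs around `x` and around `u`. -/
def Mt {K : Type} (N : ℕ) (c : Core V Q Λ B FB) (x u : V) : GH V Q K → GH V Q K → Prop
  | .core z, .core z' => c.lb z = c.lb z' ∧ c.G.dist x z = c.G.dist u z' ∧ c.G.dist x z < 2 * N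
  | .gho q j, .gho q' j' => j = j' ∧ c.fl q = c.fl q' ∧ c.lb (c.ow q) = c.lb (c.ow q') ∧
      c.G.dist x (c.ow q) = c.G.dist u (c.ow q') ∧ c.G.dist x (c.ow q) < 2 * N
  | .tru z j, .tru z' j' => j = j' ∧ c.lb z = c.lb z' ∧ c.G.dist x z = c.G.dist u z' ∧
      c.G.dist x z < 2 * N
  | _, _ => False

end

/-- Facts on matching hubs. -/
structure StMt : Prop where
  /-- existence -/
  ex : ∀ {V Q Λ B FB : Type} (N e : ℕ) (c : Core V Q Λ B FB), Par N e → CoreAx N e c →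
    ∀ x u, TS N c x = TS N c u → ∀ h : GH V Q (Kd N Λ B FB), okG N e c h →
    c.G.dist x (h.own c) < 2 * N → (∀ z l, h ≠ .fan z l) → ∃ h', okG N e c h' ∧ Mt N c x u h h'
  symm : ∀ {V Q Λ B FB K : Type} (N : ℕ) (c : Core V Q Λ B FB) (x u : V) (h h' : GH V Q K),
    Mt N c x u h h' → Mt N c u x h' h
  lev : ∀ {V Q Λ B FB K : Type} (N : ℕ) (c : Core V Q Λ B FB) (x u : V) (h h' : GH V Q K),
    Mt N c x u h h' → lev N c x h = lev N c u h'
  uniq : ∀ {V Q Λ B FB K : Type} (N e : ℕ) (c : Core V Q Λ B FB), Par N e → CoreAx N e c →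
    ∀ (x u : V) (h h' h'' : GH V Q K), Mt N c x u h h' → Mt N c x u h h'' → h' = h''
  /-- labels -/
  lab : ∀ {V Q Λ B FB : Type} (N e : ℕ) (c : Core V Q Λ B FB), Par N e → CoreAx N e c →
    ∀ x u, TS N c x = TS N c u → ∀ h h' : GH V Q (Kd N Λ B FB), Mt N c x u h h' →
    LD.lev N c x h < 2 * N → gl N e c h = gl N e c h'
  /-- parents -/
  par : ∀ {V Q Λ B FB K : Type} (N e : ℕ) (c : Core V Q Λ B FB) (s : Ch V Q), Par N e →
    CoreAx N e c → ChAx N c s → ∀ x u, TS N c x = TS N c u → ∀ h h' : GH V Q K, Mt N c x u h h' →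
    LD.lev N c x h ≤ 2 * e → LD.lev N c x h ≠ 0 →
    (∀ r, c.ow r = x → h ≠ .core (c.ow ((c.nx^[2 * e]) r))) →
    Mt N c x u (pb N e c s false x h) (pb N e c s false u h')
  /-- antipodes -/
  anti : ∀ {V Q Λ B FB : Type} (N e : ℕ) (c : Core V Q Λ B FB), Par N e → CoreAx N e c →
    ∀ x u, TS N c x = TS N c u → ∀ (r : Q) (z' : V), c.ow r = x →
    c.lb (c.ow ((c.nx^[2 * e]) r)) = c.lb z' → c.G.dist u z' = 2 * e →
    ∃ r', c.ow r' = u ∧ c.fl r' = c.fl r ∧ c.ow ((c.nx^[2 * e]) r') = z' ∧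
      c.lb (c.ow ((c.nx^[e]) r')) = c.lb (c.ow ((c.nx^[e]) r)) ∧
      c.lb (c.ow ((c.nx^[3 * e]) r')) = c.lb (c.ow ((c.nx^[3 * e]) r))

section

variable {V Q Λ B FB : Type} [Fintype Λ] [Fintype B] [Fintype FB]

/-- The hubs `s` of the tree skeleton and `g` of `G'` see the same within distance `2 * N`. -/
def NearEq (N e : ℕ) (c : Core V Q Λ B FB) (s : Ch V Q) (x : TV N e c s) (g : GV N e c) : Prop :=
  (∀ y, (TG N e c s).edist x y ≤ ((2 * N : ℕ) : ℕ∞) →
    ∃ h, PairEq N e (TG N e c s) (tL N e c s) (GG N e c) (gL N e c) x y g h) ∧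
  (∀ h, (GG N e c).edist g h ≤ ((2 * N : ℕ) : ℕ∞) →
    ∃ y, PairEq N e (TG N e c s) (tL N e c s) (GG N e c) (gL N e c) x y g h)

end

/-- Positions in the tree skeleton: the point of a geodesic from the root of a piece. -/
def StTpos : Prop :=
  ∀ {V Q Λ B FB : Type} (N e : ℕ) (c : Core V Q Λ B FB) (s : Ch V Q), Par N e →
    CoreAx N e c → ChAx N c s → ∀ (x y z : TV N e c s) (b : Bool) (u : V) (p q : ℕ),
    x.1 = .nat b u (.core u) → pc y.1 = some (b, u) → tlev N c y.1 = p + q →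
    (((TG N e c s).edist x z = (p : ℕ∞) ∧ (TG N e c s).edist z y = (q : ℕ∞)) ↔
      z.1 = (tpar N e c s)^[q] y.1)

/-- Nearby hubs of a core vertex of `G'`. -/
def StNcore : Prop :=
  ∀ {V Q Λ B FB : Type} [Fintype Λ] [Fintype B] [Fintype FB] (N e : ℕ) (c : Core V Q Λ B FB)
    (s : Ch V Q), Par N e → CoreAx N e c → ChAx N c s → ∀ (x : V) (y : TV N e c s) (g : GV N e c),
    g.1 = .core x → y.1 = .nat true (s.rp x) (.core (s.rp x)) → NearEq N e c s y g

def StNtru : Prop :=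
  ∀ {V Q Λ B FB : Type} [Fintype Λ] [Fintype B] [Fintype FB] (N e : ℕ) (c : Core V Q Λ B FB)
    (s : Ch V Q), Par N e → CoreAx N e c → ChAx N c s → ∀ (x : V) (j : ℕ) (y : TV N e c s)
    (g : GV N e c), g.1 = .tru x j → y.1 = .nat true (s.rp x) (.tru (s.rp x) j) →
    NearEq N e c s y g

def StNfan : Prop :=
  ∀ {V Q Λ B FB : Type} [Fintype Λ] [Fintype B] [Fintype FB] (N e : ℕ) (c : Core V Q Λ B FB)
    (s : Ch V Q), Par N e → CoreAx N e c → ChAx N c s → ∀ (x : V) (l : Finset (Kd N Λ B FB))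
    (y : TV N e c s) (g : GV N e c), g.1 = .fan x l → y.1 = .nat true (s.rp x) (.fan (s.rp x) l) →
    NearEq N e c s y g

def StNgho : Prop :=
  ∀ {V Q Λ B FB : Type} [Fintype Λ] [Fintype B] [Fintype FB] (N e : ℕ) (c : Core V Q Λ B FB)
    (s : Ch V Q), Par N e → CoreAx N e c → ChAx N c s → ∀ (q q' : Q) (j : ℕ) (y : TV N e c s)
    (g : GV N e c), g.1 = .gho q j → c.ow q' = s.rp (c.ow q) → c.fl q' = c.fl q →
    y.1 = .nat false (s.rp (c.ow q)) (.gho q' j) → NearEq N e c s y g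

/-- Labels occur far away. -/
structure StFar : Prop where
  one : ∀ {V Q Λ B FB : Type} [Fintype Λ] [Fintype B] [Fintype FB] (N e : ℕ)
    (c : Core V Q Λ B FB) (s : Ch V Q), Par N e → CoreAx N e c → ChAx N c s →
    ∀ (x : TV N e c s) (l : Finset (Kd N Λ B FB)), l ∈ NLb N e c →
    ∃ y, tL N e c s y = l ∧ ((2 * N : ℕ) : ℕ∞) < (TG N e c s).edist x y
  two : ∀ {V Q Λ B FB : Type} [Fintype Λ] [Fintype B] [Fintype FB] (N e : ℕ)
    (c : Core V Q Λ B FB) (s : Ch V Q), Par N e → CoreAx N e c → ChAx N c s →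
    ∀ (x y : TV N e c s), (∃ u, x.1 = .nat true u (.core u) ∨ (∃ j, x.1 = .nat true u (.tru u j)) ∨
      (∃ l, x.1 = .nat true u (.fan u l)) ∨ (∃ q j, 1 ≤ j ∧ c.ow q = u ∧ x.1 = .nat false u (.gho q j))) →
    ∃ y', tL N e c s y' = tL N e c s y ∧ ((2 * N : ℕ) : ℕ∞) < (TG N e c s).edist x y'

section

variable {V Q Λ B FB : Type} [Fintype Λ] [Fintype B] [Fintype FB]

/-- Disjoint union of `T` and `G'`. -/
def SG (N e : ℕ) (c : Core V Q Λ B FB) (s : Ch V Q) : SimpleGraph (TV N e c s ⊕ GV N e c) where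
  Adj x y := match x, y with
    | .inl a, .inl b => (TG N e c s).Adj a b
    | .inr a, .inr b => (GG N e c).Adj a b
    | _, _ => False
  symm := by
    refine ⟨?_⟩
    rintro (a | a) (b | b) h
    · exact (TG N e c s).symm.symm _ _ h
    · exact h
    · exact h
    · exact (GG N e c).symm.symm _ _ h
  loopless := by
    refine ⟨?_⟩
    rintro (a | a) h
    · exact (TG N e c s).loopless.irrefl a h
    · exact (GG N e c).loopless.irrefl a h

/-- Labels of the disjoint union. -/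
noncomputable def sL (N e : ℕ) (c : Core V Q Λ B FB) (s : Ch V Q) :
    TV N e c s ⊕ GV N e c → Finset (Kd N Λ B FB) := Sum.elim (tL N e c s) (gL N e c)

end

/-- Part B1: the tree skeleton and its union with `G'` have the same data. -/
def StB1 : Prop :=
  ∀ {V Q Λ B FB : Type} [Fintype Λ] [Fintype B] [Fintype FB] (N e : ℕ) (c : Core V Q Λ B FB)
    (s : Ch V Q), Par N e → CoreAx N e c → ChAx N c s →
    DEq N e (TG N e c s) (tL N e c s) (SG N e c s) (sL N e c s)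

/-- Hub labels, and hubs at distance at most `2` have different labels. -/
structure StTinj : Prop where
  hub : ∀ {V Q Λ B FB : Type} [Fintype Λ] [Fintype B] [Fintype FB] (N e : ℕ)
    (c : Core V Q Λ B FB) (s : Ch V Q), Par N e → CoreAx N e c → ChAx N c s →
    ∀ x, HubL (sL N e c s x)
  inj : ∀ {V Q Λ B FB : Type} [Fintype Λ] [Fintype B] [Fintype FB] (N e : ℕ)
    (c : Core V Q Λ B FB) (s : Ch V Q), Par N e → CoreAx N e c → ChAx N c s →
    ∀ x y, x ≠ y → (TG N e c s).edist x y ≤ 2 → tL N e c s x ≠ tL N e c s y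
  cap : ∀ {V Q Λ B FB : Type} [Fintype Λ] [Fintype B] [Fintype FB] (N e : ℕ)
    (c : Core V Q Λ B FB) (s : Ch V Q), Par N e → CoreAx N e c → ChAx N c s →
    ∀ x y, tL N e c s x = tL N e c s y → (∀ b u h, x.1 ≠ .nat b u h) → x = y
  /-- natural hubs with the same label in the same piece -/
  nat : ∀ {V Q Λ B FB : Type} (N e : ℕ)
    (c : Core V Q Λ B FB) (s : Ch V Q), Par N e → CoreAx N e c → ChAx N c s →
    ∀ b u h h', okT N e c s (.nat b u h) → okT N e c s (.nat b u h') → gl N e c h = gl N e c h' →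
    h = h' ∨ (b = true ∧ ∃ l, h = .fan u l) ∨ (b = true ∧ ∃ l, h' = .fan u l) ∨
      ∃ q q', h = .gho q e ∧ h' = .gho q' e
  /-- edges of a piece are determined by the labels of their ends -/
  edge : ∀ {V Q Λ B FB : Type} [Fintype Λ] [Fintype B] [Fintype FB] (N e : ℕ)
    (c : Core V Q Λ B FB) (s : Ch V Q), Par N e → CoreAx N e c → ChAx N c s →
    ∀ (x y x' y' : TV N e c s), (TG N e c s).Adj x y → (TG N e c s).Adj x' y' →
    pc x.1 = pc y'.1 → pc x.1 ≠ none → tL N e c s x = tL N e c s x' → tL N e c s y = tL N e c s y' →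
    x = x' ∧ y = y'

/-- The standing assumptions for the two skeletons. -/
def StHyp : Prop :=
  ∀ {V Q Λ B FB : Type} [Fintype Λ] [Fintype B] [Fintype FB] (k : ℕ) (c : Core V Q Λ B FB)
    (s : Ch V Q), 60 ≤ k → CoreAx (NN k) (EE k) c → ChAx (NN k) c s →
    HypS k (TG (NN k) (EE k) c s) ∧ HypS k (SG (NN k) (EE k) c s) ∧
    HypL (TG (NN k) (EE k) c s) (tL (NN k) (EE k) c s) ∧
    ∀ x, HubL (sL (NN k) (EE k) c s x)

end Pool.Agent.Helper2.LD
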